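import Mathlib

/-!
Multigraphs, connectivity, forests and spanning trees.
-/

open Finset

namespace Pool.Agent.P.MP_3f5ce9_co

/-- A multigraph: every edge has two ends. -/
structure Gr (V E : Type*) where
  s : E → V
  t : E → V

namespace Gr

variable {V E : Type*}

def map (G : Gr V E) (φ : V → V) : Gr V E := ⟨fun e => φ (G.s e), fun e => φ (G.t e)⟩

@[simp] theorem map_s (G : Gr V E) (φ : V → V) (e : E) : (G.map φ).s e = φ (G.s e) := rfl
@[simp] theorem map_t (G : Gr V E) (φ : V → V) (e : E) : (G.map φ).t e = φ (G.t e) := rfl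

def Joins (G : Gr V E) (e : E) (u w : V) : Prop :=
  (G.s e = u ∧ G.t e = w) ∨ (G.s e = w ∧ G.t e = u)

def Inc (G : Gr V E) (e : E) (u : V) : Prop := G.s e = u ∨ G.t e = u

def Closed (G : Gr V E) (F : Finset E) (X : Set V) : Prop :=
  ∀ e ∈ F, (G.s e ∈ X ↔ G.t e ∈ X)

def Conn (G : Gr V E) (F : Finset E) (u w : V) : Prop :=
  ∀ X : Set V, G.Closed F X → (u ∈ X ↔ w ∈ X)

def Within (G : Gr V E) (F : Finset E) (X : Finset V) : Prop :=
  ∀ e ∈ F, G.s e ∈ X ∧ G.t e ∈ X

variable {G : Gr V E} {F F' : Finset E} {u w z : V} {e : E}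

theorem Joins.symm (h : G.Joins e u w) : G.Joins e w u := Or.symm h

theorem Joins.inc (h : G.Joins e u w) : G.Inc e u := by
  rcases h with h | h
  · exact Or.inl h.1
  · exact Or.inr h.2

theorem Joins.inc' (h : G.Joins e u w) : G.Inc e w := h.symm.inc

theorem Joins.inc_iff (h : G.Joins e u w) : G.Inc e z ↔ z = u ∨ z = w := by
  unfold Joins at h; unfold Inc; grind

theorem joins_st (G : Gr V E) (e : E) : G.Joins e (G.s e) (G.t e) := Or.inl ⟨rfl, rfl⟩

theorem Inc.exists_joins (h : G.Inc e u) : ∃ w, G.Joins e u w := by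
  rcases h with h | h
  · exact ⟨G.t e, Or.inl ⟨h, rfl⟩⟩
  · exact ⟨G.s e, Or.inr ⟨rfl, h⟩⟩

theorem Joins.map (h : G.Joins e u w) (φ : V → V) : (G.map φ).Joins e (φ u) (φ w) := by
  rcases h with ⟨h1, h2⟩ | ⟨h1, h2⟩
  · exact Or.inl ⟨by simp [h1], by simp [h2]⟩
  · exact Or.inr ⟨by simp [h1], by simp [h2]⟩

theorem Joins.mem {X : Finset V} (hW : G.Within F X) (he : e ∈ F) (h : G.Joins e u w) :
    u ∈ X ∧ w ∈ X := by
  have := hW e he
  unfold Joins at h; grind

theorem Inc.mem {X : Finset V} (hW : G.Within F X) (he : e ∈ F) (h : G.Inc e u) : u ∈ X := by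
  have := hW e he
  unfold Inc at h; grind

theorem Conn.refl (G : Gr V E) (F : Finset E) (u : V) : G.Conn F u u := fun _ _ => Iff.rfl

theorem Conn.symm (h : G.Conn F u w) : G.Conn F w u := fun X hX => (h X hX).symm

theorem Conn.trans (h : G.Conn F u w) (h' : G.Conn F w z) : G.Conn F u z :=
  fun X hX => (h X hX).trans (h' X hX)

theorem Conn.mono (h : G.Conn F u w) (hF : F ⊆ F') : G.Conn F' u w :=
  fun X hX => h X fun e he => hX e (hF he)

theorem Conn.edge (he : e ∈ F) (h : G.Joins e u w) : G.Conn F u w := by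
  intro X hX
  have := hX e he
  rcases h with ⟨rfl, rfl⟩ | ⟨rfl, rfl⟩
  · exact this
  · exact this.symm

theorem Joins.conn (h : G.Joins e u w) (h' : G.Conn F u w) : G.Conn F (G.s e) (G.t e) := by
  rcases h with ⟨rfl, rfl⟩ | ⟨rfl, rfl⟩
  · exact h'
  · exact h'.symm

theorem Joins.conn' (h : G.Joins e u w) (h' : G.Conn F (G.s e) (G.t e)) : G.Conn F u w := by
  rcases h with ⟨rfl, rfl⟩ | ⟨rfl, rfl⟩
  · exact h'
  · exact h'.symm

theorem Conn.of_spans (h : G.Conn F u w) (hF : ∀ e ∈ F, G.Conn F' (G.s e) (G.t e)) :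
    G.Conn F' u w :=
  fun X hX => h X fun e he => hF e he X hX

theorem closed_comp (G : Gr V E) (F : Finset E) (u : V) : G.Closed F {z | G.Conn F u z} := by
  intro e he
  have := Conn.edge he (G.joins_st e)
  exact ⟨fun h => Conn.trans h this, fun h => Conn.trans h this.symm⟩

theorem Conn.map (h : G.Conn F u w) (φ : V → V) : (G.map φ).Conn F (φ u) (φ w) :=
  fun X hX => h (φ ⁻¹' X) fun e he => hX e he

theorem Conn.unmap {φ : V → V} {X : Finset V} (hW : G.Within F X) (hu : u ∈ X) (hw : w ∈ X)
    (hφ : ∀ p ∈ X, ∀ q ∈ X, φ p = φ q → G.Conn F' p q) (hF : F ⊆ F')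
    (h : (G.map φ).Conn F (φ u) (φ w)) : G.Conn F' u w := by
  intro Y hY
  have key : ∀ p ∈ X, (φ p ∈ {z | ∃ q ∈ X, q ∈ Y ∧ φ q = z} ↔ p ∈ Y) := by
    intro p hp
    constructor
    · rintro ⟨q, hq, hqY, hqp⟩
      exact (hφ q hq p hp hqp Y hY).1 hqY
    · intro hpY
      exact ⟨p, hp, hpY, rfl⟩
  rw [← key u hu, ← key w hw]
  apply h
  intro e he
  simp only [map_s, map_t]
  rw [key _ (hW e he).1, key _ (hW e he).2]
  exact hY e (hF he)

theorem conn_congr {G' : Gr V E} (hG : ∀ e ∈ F, G'.s e = G.s e ∧ G'.t e = G.t e)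
    (h : G.Conn F u w) : G'.Conn F u w := by
  intro X hX
  apply h
  intro e he
  rw [← (hG e he).1, ← (hG e he).2]
  exact hX e he

/-- a vertex without edges is connected only to itself -/
theorem Conn.eq_of_isolated (h : G.Conn F u w) (hu : ∀ e ∈ F, ¬ G.Inc e u) : w = u := by
  have := h {u} (by
    intro e he
    have := hu e he
    unfold Inc at this
    simp only [Set.mem_singleton_iff]
    tauto)
  simpa using this

variable [DecidableEq E]

/-- after deleting one edge, one reaches one of its ends or nothing changes -/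
theorem Conn.erase_or {a b : V} (hj : G.Joins e a b) (h : G.Conn F a w) :
    G.Conn (F.erase e) a w ∨ G.Conn (F.erase e) b w := by
  have := h ({z | G.Conn (F.erase e) a z} ∪ {z | G.Conn (F.erase e) b z}) (by
    intro g hg
    by_cases hge : g = e
    · subst hge
      have h1 : a ∈ {z | G.Conn (F.erase g) a z} ∪ {z | G.Conn (F.erase g) b z} :=
        Or.inl (Conn.refl _ _ _)
      have h2 : b ∈ {z | G.Conn (F.erase g) a z} ∪ {z | G.Conn (F.erase g) b z} :=
        Or.inr (Conn.refl _ _ _)
      rcases hj with ⟨rfl, rfl⟩ | ⟨rfl, rfl⟩ <;> simp only [h1, h2]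
    · have h1 := G.closed_comp (F.erase e) a g (mem_erase.2 ⟨hge, hg⟩)
      have h2 := G.closed_comp (F.erase e) b g (mem_erase.2 ⟨hge, hg⟩)
      simp only [Set.mem_union]
      rw [h1, h2])
  exact this.1 (Or.inl (Conn.refl _ _ _))

/-- an edge leaving a set closed under the other edges is not needed inside the set -/
theorem Conn.erase_of_side {Y : Set V} {a b : V} (hj : G.Joins e a b) (hY : G.Closed (F.erase e) Y)
    (hb : b ∉ Y) (hu : u ∈ Y) (hw : w ∈ Y) (h : G.Conn F u w) : G.Conn (F.erase e) u w := by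
  intro X hX
  have := h {z | (z ∈ Y ∧ z ∈ X) ∨ (z ∉ Y ∧ a ∈ X)} (by
    intro g hg
    by_cases hge : g = e
    · subst hge
      simp only [Set.mem_ofPred_eq]
      rcases hj with ⟨rfl, rfl⟩ | ⟨rfl, rfl⟩ <;> tauto
    · have h1 := hX g (mem_erase.2 ⟨hge, hg⟩)
      have h2 := hY g (mem_erase.2 ⟨hge, hg⟩)
      simp only [Set.mem_ofPred_eq]
      tauto)
  simp only [Set.mem_ofPred_eq] at this
  tauto

/-- deleting the edge at a leaf -/
theorem Conn.erase_leaf {v : V} (hi : G.Inc e v) (hl : ∀ g ∈ F, G.Inc g v → g = e) (hu : u ≠ v)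
    (hw : w ≠ v) (h : G.Conn F u w) : G.Conn (F.erase e) u w := by
  obtain ⟨a, ha⟩ := hi.exists_joins
  refine Conn.erase_of_side (Y := {v}ᶜ) ha.symm ?_ (by simp) hu hw h
  intro g hg
  have h1 : ¬ G.Inc g v := fun h => (mem_erase.1 hg).1 (hl g (mem_of_mem_erase hg) h)
  unfold Inc at h1
  simp only [Set.mem_compl_iff, Set.mem_singleton_iff]
  tauto

def Acyc (G : Gr V E) (F : Finset E) : Prop := ∀ e ∈ F, ¬ G.Conn (F.erase e) (G.s e) (G.t e)

theorem Acyc.mono (h : G.Acyc F') (hF : F ⊆ F') : G.Acyc F :=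
  fun e he hc => h e (hF he) (hc.mono (erase_subset_erase _ hF))

theorem Acyc.ne (h : G.Acyc F) (he : e ∈ F) (hj : G.Joins e u w) : u ≠ w := by
  rintro rfl
  exact h e he (hj.conn (Conn.refl _ _ _))

theorem Acyc.not_conn (h : G.Acyc F) (he : e ∈ F) (hj : G.Joins e u w) :
    ¬ G.Conn (F.erase e) u w := fun hc => h e he (hj.conn hc)

variable [DecidableEq V]

/-- the map sending `v` to `b` -/
def ctr (v b : V) : V → V := fun u => if u = v then b else u

theorem ctr_self (v b : V) : ctr v b v = b := by simp [ctr]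

theorem ctr_of_ne {v b u : V} (h : u ≠ v) : ctr v b u = u := by simp [ctr, h]

theorem ctr_mem {X : Finset V} {v b : V} (hb : b ∈ X) (hbv : b ≠ v) (hu : u ∈ X) :
    ctr v b u ∈ X.erase v := by
  unfold ctr; split_ifs with h
  · exact mem_erase.2 ⟨hbv, hb⟩
  · exact mem_erase.2 ⟨h, hu⟩

theorem ctr_conn {v b : V} (he : e ∈ F) (hj : G.Joins e v b) (h : ctr v b u = ctr v b w) :
    G.Conn F u w := by
  have := Conn.edge he hj
  unfold ctr at h
  split_ifs at h with h1 h2 h2
  · rw [h1, h2]; exact Conn.refl _ _ _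
  · rw [h1, ← h]; exact this
  · rw [h2, h]; exact this.symm
  · rw [h]; exact Conn.refl _ _ _

theorem Within.ctr {X : Finset V} {v b : V} (h : G.Within F X) (hb : b ∈ X) (hbv : b ≠ v) :
    (G.map (ctr v b)).Within F (X.erase v) :=
  fun e he => ⟨ctr_mem hb hbv (h e he).1, ctr_mem hb hbv (h e he).2⟩

omit [DecidableEq V] [DecidableEq E] in
theorem Within.mono {X : Finset V} (h : G.Within F' X) (hF : F ⊆ F') : G.Within F X :=
  fun e he => h e (hF he)

/-- a connected graph has at least `n - 1` edges -/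
theorem card_le_of_conn (n : ℕ) : ∀ (G : Gr V E) (F : Finset E) (X : Finset V), F.card = n →
    G.Within F X → (∀ u ∈ X, ∀ w ∈ X, G.Conn F u w) → X.card ≤ F.card + 1 := by
  induction n with
  | zero =>
    intro G F X hn _ hc
    rw [card_eq_zero] at hn
    subst hn
    simp only [card_empty, zero_add]
    rw [card_le_one]
    intro a ha b hb
    exact ((hc a ha b hb).eq_of_isolated (by simp)).symm
  | succ n ih =>
    intro G F X hn hW hc
    obtain ⟨y, hy⟩ : F.Nonempty := card_pos.1 (by omega)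
    have hcard : (F.erase y).card = n := by rw [card_erase_of_mem hy]; omega
    by_cases hl : G.t y = G.s y
    · have := ih G (F.erase y) X hcard (hW.mono (erase_subset _ _)) (by
        intro u hu w hw
        refine (hc u hu w hw).of_spans fun e he => ?_
        by_cases hey : e = y
        · rw [hey, hl]; exact Conn.refl _ _ _
        · exact Conn.edge (mem_erase.2 ⟨hey, he⟩) (G.joins_st e))
      omega
    · have := ih (G.map (ctr (G.s y) (G.t y))) (F.erase y) (X.erase (G.s y)) hcard
        ((hW.mono (erase_subset _ _)).ctr (hW y hy).2 hl) (by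
          intro u hu w hw
          have h1 := (hc u (mem_of_mem_erase hu) w (mem_of_mem_erase hw)).map
            (ctr (G.s y) (G.t y))
          rw [ctr_of_ne (mem_erase.1 hu).1, ctr_of_ne (mem_erase.1 hw).1] at h1
          refine h1.of_spans fun e he => ?_
          by_cases hey : e = y
          · subst hey
            simp only [map_s, map_t, ctr_self, ctr_of_ne hl]
            exact Conn.refl _ _ _
          · exact Conn.edge (mem_erase.2 ⟨hey, he⟩) (joins_st _ e))
      rw [card_erase_of_mem (hW y hy).1] at this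
      omega

/-- a forest has at most `n - 1` edges -/
theorem card_le_of_acyc (n : ℕ) : ∀ (G : Gr V E) (F : Finset E) (X : Finset V), F.card = n →
    G.Within F X → X.Nonempty → G.Acyc F → F.card + 1 ≤ X.card := by
  induction n with
  | zero =>
    intro G F X hn _ hX _
    have := hX.card_pos
    omega
  | succ n ih =>
    intro G F X hn hW _ hA
    obtain ⟨y, hy⟩ : F.Nonempty := card_pos.1 (by omega)
    have hcard : (F.erase y).card = n := by rw [card_erase_of_mem hy]; omega
    have hl : G.t y ≠ G.s y := (hA.ne hy (G.joins_st y)).symm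
    have := ih (G.map (ctr (G.s y) (G.t y))) (F.erase y) (X.erase (G.s y)) hcard
      ((hW.mono (erase_subset _ _)).ctr (hW y hy).2 hl) ⟨G.t y, mem_erase.2 ⟨hl, (hW y hy).2⟩⟩ (by
        intro e he hc
        have he' := mem_of_mem_erase he
        refine hA e he' (Conn.unmap (X := X) (hW.mono ((erase_subset _ _).trans (erase_subset _ _)))
          (hW e he').1 (hW e he').2 ?_ ?_ hc)
        · intro p _ q _ hpq
          exact ctr_conn (mem_erase.2 ⟨(mem_erase.1 he).1.symm, hy⟩) (G.joins_st y) hpq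
        · intro g hg
          simp only [mem_erase] at hg ⊢
          tauto)
    rw [card_erase_of_mem (hW y hy).1] at this
    have := card_pos.2 ⟨_, (hW y hy).1⟩
    omega

/-- `F` is a spanning tree on the vertex set `X` -/
structure Tr (G : Gr V E) (X : Finset V) (F : Finset E) : Prop where
  within : G.Within F X
  conn : ∀ u ∈ X, ∀ w ∈ X, G.Conn F u w
  card : F.card + 1 = X.card

theorem Tr.acyc {X : Finset V} (h : G.Tr X F) : G.Acyc F := by
  intro e he hc
  have := card_le_of_conn _ G (F.erase e) X rfl (h.within.mono (erase_subset _ _)) (by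
    intro u hu w hw
    refine (h.conn u hu w hw).of_spans fun g hg => ?_
    by_cases hge : g = e
    · rw [hge]; exact hc
    · exact Conn.edge (mem_erase.2 ⟨hge, hg⟩) (G.joins_st g))
  have h1 := h.card
  have h2 := card_pos.2 ⟨e, he⟩
  rw [card_erase_of_mem he] at this
  omega

/-- the edges of `F` inside `X` -/
def ind (G : Gr V E) (F : Finset E) (X : Finset V) : Finset E :=
  F.filter fun e => G.s e ∈ X ∧ G.t e ∈ X

omit [DecidableEq E] in
theorem mem_ind {X : Finset V} : e ∈ G.ind F X ↔ e ∈ F ∧ G.s e ∈ X ∧ G.t e ∈ X := by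
  simp [ind]

omit [DecidableEq E] in
theorem Joins.mem_ind {X : Finset V} (hj : G.Joins e u w) :
    e ∈ G.ind F X ↔ e ∈ F ∧ u ∈ X ∧ w ∈ X := by
  rw [Gr.mem_ind]
  rcases hj with ⟨rfl, rfl⟩ | ⟨rfl, rfl⟩ <;> tauto

omit [DecidableEq E] in
theorem ind_subset (G : Gr V E) (F : Finset E) (X : Finset V) : G.ind F X ⊆ F :=
  filter_subset _ _

omit [DecidableEq E] in
theorem within_ind (G : Gr V E) (F : Finset E) (X : Finset V) : G.Within (G.ind F X) X :=
  fun _ he => (mem_ind.1 he).2

theorem Acyc.card_ind (h : G.Acyc F) {X : Finset V} (hX : X.Nonempty) :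
    (G.ind F X).card + 1 ≤ X.card :=
  card_le_of_acyc _ G _ X rfl (G.within_ind F X) hX (h.mono (G.ind_subset F X))

/-- a forest with `n - 1` edges is a tree -/
theorem Acyc.tr (h : G.Acyc F) {X : Finset V} (hW : G.Within F X) (hc : X.card ≤ F.card + 1)
    (hX : X.Nonempty) : G.Tr X F := by
  classical
  refine ⟨hW, ?_, le_antisymm (card_le_of_acyc _ G F X rfl hW hX h) hc⟩
  intro u hu w hw
  by_contra hn
  set X1 := X.filter fun z => G.Conn F u z
  set X2 := X.filter fun z => ¬ G.Conn F u z
  have h1 := h.card_ind (X := X1) ⟨u, mem_filter.2 ⟨hu, Conn.refl _ _ _⟩⟩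
  have h2 := h.card_ind (X := X2) ⟨w, mem_filter.2 ⟨hw, hn⟩⟩
  have h3 : X1.card + X2.card = X.card := card_filter_add_card_filter_not _
  have h4 : F ⊆ G.ind F X1 ∪ G.ind F X2 := by
    intro e he
    have := G.closed_comp F u e he
    have := hW e he
    simp only [mem_union, mem_ind, X1, X2, mem_filter, Set.mem_ofPred_eq] at *
    tauto
  have h5 := (card_le_card h4).trans (card_union_le _ _)
  omega

/-- a forest inside a connected graph extends to a spanning tree -/
theorem exists_tr (n : ℕ) {X : Finset V} (hX : X.Nonempty) (hA : G.Acyc F) : ∀ B : Finset E,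
    B.card = n → F ⊆ B → G.Within B X → (∀ u ∈ X, ∀ w ∈ X, G.Conn B u w) →
    ∃ T, F ⊆ T ∧ T ⊆ B ∧ G.Tr X T := by
  induction n using Nat.strong_induction_on with
  | _ n ih =>
  intro B hn hFB hW hc
  by_cases h : ∃ a ∈ B, a ∉ F ∧ G.Conn (B.erase a) (G.s a) (G.t a)
  · obtain ⟨a, haB, haF, ha⟩ := h
    have := card_pos.2 ⟨a, haB⟩
    obtain ⟨T, h1, h2, h3⟩ := ih (n - 1) (by omega) (B.erase a)
      (by rw [card_erase_of_mem haB, hn]) (fun g hg => mem_erase.2 ⟨by rintro rfl; exact haF hg,
        hFB hg⟩) (hW.mono (erase_subset _ _)) (by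
        intro u hu w hw
        refine (hc u hu w hw).of_spans fun g hg => ?_
        by_cases hge : g = a
        · rw [hge]; exact ha
        · exact Conn.edge (mem_erase.2 ⟨hge, hg⟩) (G.joins_st g))
    exact ⟨T, h1, h2.trans (erase_subset _ _), h3⟩
  · push Not at h
    refine ⟨B, hFB, Subset.rfl, Acyc.tr ?_ hW (card_le_of_conn _ G B X rfl hW hc) hX⟩
    intro e he hce
    by_cases heF : e ∈ F
    swap
    · exact h e he heF hce
    have key : ∀ A : Finset E, A ⊆ B \ F → G.Conn ((B.erase e) \ A) (G.s e) (G.t e) := by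
      intro A
      induction A using Finset.induction_on with
      | empty => intro _; simpa using hce
      | insert a A ha ihA =>
        intro hA'
        have h1 := ihA ((subset_insert _ _).trans hA')
        have h2 := mem_sdiff.1 (hA' (mem_insert_self _ _))
        have h3 := h a h2.1 h2.2
        have hea : e ≠ a := by rintro rfl; exact h2.2 heF
        have h4 : G.Conn (B.erase a) (G.s e) (G.t e) :=
          Conn.edge (mem_erase.2 ⟨hea, he⟩) (G.joins_st e)
        have h5 : ((B.erase e) \ A).erase a = (B.erase e) \ insert a A := by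
          ext g; simp only [mem_erase, mem_sdiff, mem_insert]; tauto
        have h6 : G.Closed (((B.erase e) \ A).erase a) {z | G.Conn (B.erase a) (G.s e) z} := by
          intro g hg
          refine G.closed_comp (B.erase a) (G.s e) g ?_
          simp only [mem_erase, mem_sdiff] at hg ⊢
          tauto
        rw [← h5]
        by_cases h7 : G.Conn (B.erase a) (G.s e) (G.t a)
        · exact Conn.erase_of_side (G.joins_st a).symm h6 (fun h8 => h3 (Conn.trans (Conn.symm h8) h7))
            (Conn.refl _ _ _) h4 h1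
        · exact Conn.erase_of_side (G.joins_st a) h6 h7 (Conn.refl _ _ _) h4 h1
    refine hA e heF ((key (B \ F) Subset.rfl).mono ?_)
    intro g hg
    simp only [mem_erase, mem_sdiff] at hg ⊢
    tauto

end Gr

end Pool.Agent.P.MP_3f5ce9_co
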