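import Mathlib

/-!
Two systems of `t` cuts of a set with more than `2t` points, each having a matching with one pair
split by each cut, have a common such matching.
-/

open Finset

set_option linter.unusedSectionVars false

namespace Pool.Agent.P.MP_3f5ce9_co

variable {ι E : Type*} [DecidableEq ι] [DecidableEq E]

/-- the points lying on one of the sides in `Q` -/
def nb (D : Finset E) (f : ι → E → Bool) (Q : Finset (ι × Bool)) : Finset E :=
  D.filter fun e => ∃ x ∈ Q, f x.1 e = x.2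

def Hall (D : Finset E) (J : Finset ι) (f : ι → E → Bool) : Prop :=
  ∀ Q : Finset (ι × Bool), (∀ x ∈ Q, x.1 ∈ J) → Q.card ≤ (nb D f Q).card

variable {D : Finset E} {J : Finset ι} {f : ι → E → Bool} {Q Q' : Finset (ι × Bool)}

theorem mem_nb {e : E} : e ∈ nb D f Q ↔ e ∈ D ∧ ∃ x ∈ Q, f x.1 e = x.2 := by simp [nb]

theorem nb_union : nb D f (Q ∪ Q') = nb D f Q ∪ nb D f Q' := by
  ext e; simp only [mem_nb, mem_union]; grind

theorem nb_inter : nb D f (Q ∩ Q') ⊆ nb D f Q ∩ nb D f Q' := by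
  intro e; simp only [mem_nb, mem_inter]; grind

theorem nb_subset : nb D f Q ⊆ D := filter_subset _ _

theorem nb_erase (p q : E) : nb ((D.erase p).erase q) f Q = ((nb D f Q).erase p).erase q := by
  ext e; simp only [mem_nb, mem_erase]; tauto

theorem card_slots (hQ : ∀ x ∈ Q, x.1 ∈ J) : Q.card ≤ 2 * J.card := by
  have : Q ⊆ J ×ˢ (univ : Finset Bool) := fun x hx => mem_product.2 ⟨hQ x hx, mem_univ _⟩
  have := card_le_card this
  rw [card_product, card_univ, Fintype.card_bool] at this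
  omega

theorem card_slots' (hQ : ∀ x ∈ Q, x.1 ∈ J) {x : ι × Bool} (hx : x.1 ∈ J) (hxQ : x ∉ Q) :
    Q.card + 1 ≤ 2 * J.card := by
  rw [← card_insert_of_notMem hxQ]
  refine card_slots fun y hy => ?_
  rcases mem_insert.1 hy with rfl | hy
  · exact hx
  · exact hQ y hy

theorem tight_inter (h : Hall D J f) (hQ : ∀ x ∈ Q, x.1 ∈ J)
    (k : (nb D f Q ∩ nb D f Q').card ≤ (Q ∩ Q').card) :
    nb D f (Q ∩ Q') = nb D f Q ∩ nb D f Q' ∧ (nb D f (Q ∩ Q')).card ≤ (Q ∩ Q').card := by
  have h1 := h (Q ∩ Q') fun x hx => hQ x (mem_inter.1 hx).1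
  have h2 := eq_of_subset_of_card_le (nb_inter (D := D) (f := f) (Q := Q) (Q' := Q')) (by omega)
  exact ⟨h2, by rw [h2]; exact k⟩

theorem exists_bipartite (h : Hall D J f) (hJ : J.Nonempty) (hD : 2 * J.card + 1 ≤ D.card) :
    ∃ A ⊆ D, A.Nonempty ∧ A ≠ D ∧ ∀ a ∈ A, ∀ b ∈ D, b ∉ A →
      ∃ j ∈ J, f j a ≠ f j b ∧ Hall ((D.erase a).erase b) (J.erase j) f := by
  classical
  set 𝓕 := ((J ×ˢ (univ : Finset Bool)).powerset).filter fun Q => Q.Nonempty ∧ nb D f Q ≠ D
    with h𝓕
  have mem : ∀ Q, Q ∈ 𝓕 ↔ (∀ x ∈ Q, x.1 ∈ J) ∧ Q.Nonempty ∧ nb D f Q ≠ D := by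
    intro Q
    simp only [h𝓕, mem_filter, mem_powerset, subset_iff, mem_product, mem_univ, and_true]
  have hne : 𝓕.Nonempty := by
    obtain ⟨j, hj⟩ := hJ
    refine ⟨{(j, true)}, (mem _).2 ⟨by simpa using hj, by simp, fun h1 => ?_⟩⟩
    have h2 := h {(j, false)} (by simpa using hj)
    rw [card_singleton] at h2
    obtain ⟨e, he⟩ := card_pos.1 h2
    have h3 : e ∈ nb D f {(j, true)} := by rw [h1]; exact nb_subset he
    simp only [mem_nb, mem_singleton, exists_eq_left] at he h3
    grind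
  obtain ⟨Q1, hQ1, hmin⟩ := exists_min_image 𝓕 (fun Q => (nb D f Q).card - Q.card) hne
  set m := (nb D f Q1).card - Q1.card
  obtain ⟨Q, hQ, hmax⟩ := exists_max_image (𝓕.filter fun Q => (nb D f Q).card - Q.card = m) card
    ⟨Q1, mem_filter.2 ⟨hQ1, rfl⟩⟩
  obtain ⟨hQ, hm⟩ := mem_filter.1 hQ
  obtain ⟨q1, q2, q3⟩ := (mem Q).1 hQ
  have q4 := h Q q1
  refine ⟨nb D f Q, nb_subset, card_pos.1 (lt_of_lt_of_le q2.card_pos q4), q3, ?_⟩
  intro a ha b hb hbA
  obtain ⟨Q0, hQ0, hmin0⟩ := exists_min_image (Q.powerset.filter fun R => a ∈ nb D f R ∧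
    (nb D f R).card ≤ R.card + m) card ⟨Q, mem_filter.2 ⟨mem_powerset_self _, ha, by omega⟩⟩
  simp only [mem_filter, mem_powerset] at hQ0 hmin0
  obtain ⟨s0, a0, t0⟩ := hQ0
  obtain ⟨-, ⟨j, ε⟩, hx, hfa⟩ := mem_nb.1 a0
  have hxQ := s0 hx
  have hj : j ∈ J := q1 _ hxQ
  simp only at hfa
  have hfb : f j b ≠ ε := fun h1 => hbA (mem_nb.2 ⟨hb, _, hxQ, h1⟩)
  refine ⟨j, hj, by rw [hfa]; exact hfb.symm, fun R hR => ?_⟩
  by_contra hv
  rw [nb_erase] at hv
  have r1 : ∀ x ∈ R, x.1 ∈ J := fun x hx => mem_of_mem_erase (hR x hx)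
  have r2 : ∀ ε', (j, ε') ∉ R := fun ε' h1 => by simpa using hR _ h1
  have r3 := card_slots hR
  rw [card_erase_of_mem hj] at r3
  have r4 := hJ.card_pos
  have r5 := h R r1
  have e1 := pred_card_le_card_erase (s := nb D f R) (a := a)
  have e2 := pred_card_le_card_erase (s := (nb D f R).erase a) (a := b)
  have hRF : R ∈ 𝓕 := by
    refine (mem R).2 ⟨r1, card_pos.1 (by omega), fun h1 => ?_⟩
    rw [h1] at e1 e2 hv
    omega
  have m1 := hmin R hRF
  have fin : ∀ R' : Finset (ι × Bool), (∀ x ∈ R', x.1 ∈ J) → R'.Nonempty → (j, ε) ∉ R' →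
      a ∈ nb D f R' → (nb D f R').card ≤ R'.card → False := by
    intro R' k1 k2 k3 k4 k5
    have k6 := card_slots k1
    have k7 := hmin R' ((mem R').2 ⟨k1, k2, fun h1 => by rw [h1] at k5; omega⟩)
    have k8 : ∀ x ∈ Q0, x.1 ∈ J := fun x hx => q1 x (s0 hx)
    have k9 := h (Q0 ∪ R') fun x hx => (mem_union.1 hx).elim (k8 x) (k1 x)
    rw [nb_union] at k9
    have k10 := card_union_add_card_inter Q0 R'
    have k11 := card_union_add_card_inter (nb D f Q0) (nb D f R')
    obtain ⟨k12, k13⟩ := tight_inter (Q' := R') h k8 (by omega)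
    have k14 := hmin0 (Q0 ∩ R') ⟨inter_subset_left.trans s0,
      by rw [k12]; exact mem_inter.2 ⟨a0, k4⟩, by omega⟩
    have k15 : (Q0 ∩ R').card < Q0.card :=
      card_lt_card ⟨inter_subset_left, fun h1 => k3 (mem_inter.1 (h1 hx)).2⟩
    omega
  by_cases hbR : b ∈ nb D f R
  · have u1 : ∀ x ∈ Q ∪ R, x.1 ∈ J := fun x hx => (mem_union.1 hx).elim (q1 x) (r1 x)
    have u2 : (j, !ε) ∉ Q ∪ R := by
      intro h1
      rcases mem_union.1 h1 with h1 | h1
      · refine hbA (mem_nb.2 ⟨hb, _, h1, ?_⟩)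
        exact Bool.eq_not.2 hfb
      · exact r2 _ h1
    have u3 := card_slots' u1 (x := (j, !ε)) hj u2
    have u4 : Q.card < (Q ∪ R).card := by
      refine card_lt_card ⟨subset_union_left, fun h1 => hbA ?_⟩
      obtain ⟨_, x, hx, h2⟩ := mem_nb.1 hbR
      exact mem_nb.2 ⟨hb, x, h1 (mem_union_right _ hx), h2⟩
    have u5 : (Q ∪ R).card + m + 1 ≤ (nb D f (Q ∪ R)).card := by
      by_cases h1 : nb D f (Q ∪ R) = D
      · rw [h1]; omega
      · have h2 : Q ∪ R ∈ 𝓕 := (mem _).2 ⟨u1, q2.mono subset_union_left, h1⟩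
        have h3 := hmin _ h2
        have h4 := h _ u1
        by_contra h5
        have := hmax (Q ∪ R) (mem_filter.2 ⟨h2, by omega⟩)
        omega
    rw [nb_union] at u5
    have u6 := card_union_add_card_inter Q R
    have u7 := card_union_add_card_inter (nb D f Q) (nb D f R)
    have u8 := h (Q ∩ R) fun x hx => q1 x (mem_inter.1 hx).1
    have u9 := card_le_card (nb_inter (D := D) (f := f) (Q := Q) (Q' := R))
    have haR : a ∈ nb D f R := by
      by_contra h1
      rw [erase_eq_of_notMem h1] at hv e2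
      omega
    obtain ⟨k1, k2⟩ := tight_inter (Q' := R) h q1 (by omega)
    have k3 : a ∈ nb D f (Q ∩ R) := by rw [k1]; exact mem_inter.2 ⟨ha, haR⟩
    refine fin (Q ∩ R) (fun x hx => q1 x (mem_inter.1 hx).1) (card_pos.1 ?_)
      (fun h1 => r2 _ (mem_inter.1 h1).2) k3 k2
    have := card_pos.2 ⟨a, k3⟩
    omega
  · rw [erase_eq_of_notMem (fun h1 => hbR (mem_of_mem_erase h1))] at hv
    have haR : a ∈ nb D f R := by
      by_contra h1
      rw [erase_eq_of_notMem h1] at hv
      omega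
    exact fin R r1 (card_pos.1 (by omega)) (r2 _) haR (by omega)

theorem Hall.symm_erase {a b : E} (h : Hall ((D.erase a).erase b) J f) :
    Hall ((D.erase b).erase a) J f := by rwa [erase_right_comm]

theorem common_matching [Inhabited ι] (t : ℕ) : ∀ (D : Finset E) (J J' : Finset ι)
    (f g : ι → E → Bool), J.card = t → J'.card = t → 2 * t + 1 ≤ D.card → Hall D J f →
    Hall D J' g → ∃ (Z : Finset E) (ρ : E → E) (π π' : E → ι), Z ⊆ D ∧ Z.card = t ∧
      (∀ z ∈ Z, ρ z ∈ D ∧ ρ z ∉ Z) ∧ Set.InjOn ρ Z ∧ Set.BijOn π Z J ∧ Set.BijOn π' Z J' ∧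
      ∀ z ∈ Z, f (π z) z ≠ f (π z) (ρ z) ∧ g (π' z) z ≠ g (π' z) (ρ z) := by
  induction t with
  | zero =>
    intro D J J' f g hJ hJ' _ _ _
    rw [card_eq_zero] at hJ hJ'
    subst hJ hJ'
    exact ⟨∅, id, fun _ => default, fun _ => default, by simp, by simp, by simp, by simp, by simp,
      by simp, by simp⟩
  | succ t ih =>
    intro D J J' f g hJ hJ' hD h h'
    obtain ⟨A, A1, A2, A3, A4⟩ := exists_bipartite h (card_pos.1 (by omega)) (by omega)
    obtain ⟨B, B1, B2, B3, B4⟩ := exists_bipartite h' (card_pos.1 (by omega)) (by omega)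
    have key : ∃ a ∈ D, ∃ b ∈ D, a ∈ A ∧ b ∉ A ∧ ¬ (a ∈ B ↔ b ∈ B) := by
      obtain ⟨a, ha⟩ := A2
      obtain ⟨b, hb⟩ := B2
      obtain ⟨a', ha', ha''⟩ : ∃ x ∈ D, x ∉ A := by
        by_contra hn; push Not at hn; exact A3 (Subset.antisymm A1 hn)
      obtain ⟨b', hb', hb''⟩ : ∃ x ∈ D, x ∉ B := by
        by_contra hn; push Not at hn; exact B3 (Subset.antisymm B1 hn)
      by_contra hn
      push Not at hn
      have h1 := hn a (A1 ha) a' ha' ha ha''
      have h2 := hn a (A1 ha) b (B1 hb) ha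
      have h3 := hn a (A1 ha) b' hb' ha
      have h4 := hn b (B1 hb) a' ha'
      have h5 := hn b' hb' a' ha'
      grind
    obtain ⟨a, ha, b, hb, haA, hbA, hB⟩ := key
    have hab : a ≠ b := by rintro rfl; exact hbA haA
    obtain ⟨j, hj, fj, Hj⟩ := A4 a haA b hb hbA
    obtain ⟨j', hj', gj, Hj'⟩ : ∃ j ∈ J', g j a ≠ g j b ∧
        Hall ((D.erase a).erase b) (J'.erase j) g := by
      by_cases h1 : a ∈ B
      · exact B4 a h1 b hb (by tauto)
      · obtain ⟨j, k1, k2, k3⟩ := B4 b (by tauto) a ha h1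
        exact ⟨j, k1, k2.symm, k3.symm_erase⟩
    obtain ⟨Z, ρ, π, π', z1, z2, z3, z4, z5, z6, z7⟩ := ih _ _ _ f g
      (by rw [card_erase_of_mem hj]; omega) (by rw [card_erase_of_mem hj']; omega)
      (by rw [card_erase_of_mem (mem_erase.2 ⟨hab.symm, hb⟩), card_erase_of_mem ha]; omega) Hj Hj'
    have haZ : a ∉ Z := fun h1 => by simpa using z1 h1
    have hbZ : b ∉ Z := fun h1 => by simpa using z1 h1
    have bij : ∀ (J : Finset ι) (j : ι) (π : E → ι), j ∈ J → Set.BijOn π Z (J.erase j) →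
        Set.BijOn (Function.update π a j) (insert a Z : Finset E) J := by
      intro J j π hj hπ
      have h1 : Set.BijOn (Function.update π a j) Z (J.erase j) := by
        refine hπ.congr fun z hz => ?_
        rw [Function.update_of_ne (by rintro rfl; exact haZ hz)]
      have h2 := h1.insert (a := a) (by simp)
      rw [Function.update_self] at h2
      rw [coe_insert]
      convert h2 using 1
      rw [← coe_insert, insert_erase hj]
    refine ⟨insert a Z, Function.update ρ a b, Function.update π a j, Function.update π' a j',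
      ?_, ?_, ?_, ?_, bij _ _ _ hj z5, bij _ _ _ hj' z6, ?_⟩
    · exact insert_subset ha (z1.trans ((erase_subset _ _).trans (erase_subset _ _)))
    · rw [card_insert_of_notMem haZ, z2]
    · intro z hz
      rcases mem_insert.1 hz with rfl | hz'
      · simp [hb, hbZ, hab.symm]
      · have := z3 z hz'
        rw [Function.update_of_ne (by rintro rfl; exact haZ hz')]
        simp only [mem_erase, mem_insert] at this ⊢
        tauto
    · intro z hz w hw hzw
      simp only [coe_insert, Set.mem_insert_iff, mem_coe] at hz hw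
      have k1 := z3 z
      have k2 := z3 w
      have k3 := @z4 z
      simp only [mem_erase, mem_coe] at k1 k2 k3
      have k4 := @k3
      by_cases h1 : z = a <;> by_cases h2 : w = a
      · rw [h1, h2]
      · rw [h1, Function.update_self, Function.update_of_ne h2] at hzw
        grind
      · rw [h2, Function.update_self, Function.update_of_ne h1] at hzw
        grind
      · rw [Function.update_of_ne h1, Function.update_of_ne h2] at hzw
        exact z4 (by simpa [h1] using hz) (by simpa [h2] using hw) hzw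
    · intro z hz
      rcases mem_insert.1 hz with rfl | hz'
      · simp [fj, gj]
      · have h1 : z ≠ a := by rintro rfl; exact haZ hz'
        simp only [Function.update_of_ne h1]
        exact z7 z hz'

end Pool.Agent.P.MP_3f5ce9_co
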