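import Pool.Agent.P.MP_3f5ce9_co.Node

/-!
The flipping lemma: some marked edge can be recoloured by leaf moves avoiding the root.
-/

open Finset

set_option linter.unusedSectionVars false

namespace Pool.Agent.P.MP_3f5ce9_co

namespace Gr

variable {V E : Type*} [DecidableEq V] [DecidableEq E]
variable {G : Gr V E} {X Y Z : Finset V} {F S T Es U Φ : Finset E} {u w v a b c r : V}
  {e f x y z : E} {p q : Finset E × Finset E}

/-- every vertex set avoiding `r` with at least two points spans at most `2|Y| - 3` edges of `U` -/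
def Sp (G : Gr V E) (X : Finset V) (U : Finset E) (r : V) : Prop :=
  ∀ Y ⊆ X, r ∉ Y → 2 ≤ Y.card → (G.ind U Y).card + 3 ≤ 2 * Y.card

theorem ind_mono (hU : U ⊆ F) (hY : Y ⊆ Z) : G.ind U Y ⊆ G.ind F Z := by
  intro e he
  rw [mem_ind] at he ⊢
  exact ⟨hU he.1, hY he.2.1, hY he.2.2⟩

theorem ind_supermod (G : Gr V E) (U : Finset E) (Y Z : Finset V) :
    (G.ind U Y).card + (G.ind U Z).card ≤ (G.ind U (Y ∪ Z)).card + (G.ind U (Y ∩ Z)).card := by
  rw [← card_union_add_card_inter]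
  refine add_le_add (card_le_card ?_) (card_le_card ?_)
  · exact union_subset (ind_mono Subset.rfl subset_union_left)
      (ind_mono Subset.rfl subset_union_right)
  · intro e he
    simp only [mem_inter, mem_ind] at he ⊢
    tauto

theorem Sp.ne (h : G.Sp X U r) (hx : x ∈ U) (hy : y ∈ U) (hxy : x ≠ y) (jx : G.Joins x v a)
    (jy : G.Joins y v b) (hv : v ∈ X) (ha : a ∈ X) (hav : a ≠ v) (hvr : v ≠ r) (har : a ≠ r) :
    a ≠ b := by
  rintro rfl
  have h1 := h {v, a} (by intro g hg; simp only [mem_insert, mem_singleton] at hg; grind)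
    (by simp only [mem_insert, mem_singleton]; grind) (by rw [card_pair hav.symm])
  have h2 : {x, y} ⊆ G.ind U {v, a} := by
    intro g hg
    simp only [mem_insert, mem_singleton] at hg
    rcases hg with rfl | rfl
    · rw [jx.mem_ind]; simp [hx]
    · rw [jy.mem_ind]; simp [hy]
  have h3 := card_le_card h2
  rw [card_pair hxy] at h3
  rw [card_pair hav.symm] at h1
  omega

theorem Node.sp_mark (N : G.Node Es v x y z a b c) (h : G.Sp X (Es \ Φ) r) :
    (G.map (ctr v b)).Sp (X.erase v) (((Es.erase x).erase y) \ insert z Φ) r := by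
  intro Y hY hr h2
  refine le_trans (Nat.add_le_add_right (card_le_card fun g hg => ?_) _)
    (h Y (hY.trans (erase_subset _ _)) hr h2)
  simp only [mem_ind, mem_sdiff, mem_erase, mem_insert, not_or] at hg ⊢
  have := N.ends hg.1.1.2.2 hg.1.1.2.1 hg.1.1.1 hg.1.2.1
  rw [this.1, this.2] at hg
  tauto

theorem Node.bad (N : G.Node Es v x y z a b c) (h : G.Sp X (Es \ Φ) r)
    (hb : ¬ (G.map (ctr v b)).Sp (X.erase v) (((Es.erase x).erase y) \ Φ) r) :
    z ∉ Φ ∧ ∃ Z ⊆ X, v ∉ Z ∧ r ∉ Z ∧ b ∈ Z ∧ c ∈ Z ∧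
      2 * Z.card ≤ (G.ind (Es \ Φ) Z).card + 3 := by
  unfold Sp at hb
  push Not at hb
  obtain ⟨Z, hZ, hr, h2, h3⟩ := hb
  have h4 := h Z (hZ.trans (erase_subset _ _)) hr h2
  have h5 : ∀ g ∈ (G.map (ctr v b)).ind (((Es.erase x).erase y) \ Φ) Z, g ≠ z →
      g ∈ G.ind (Es \ Φ) Z := by
    intro g hg hgz
    simp only [mem_ind, mem_sdiff, mem_erase] at hg ⊢
    have := N.ends hg.1.1.2.2 hg.1.1.2.1 hg.1.1.1 hgz
    rw [this.1, this.2] at hg
    tauto
  have h6 : z ∈ (G.map (ctr v b)).ind (((Es.erase x).erase y) \ Φ) Z := by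
    by_contra hz
    have := card_le_card (fun g hg => h5 g hg (by rintro rfl; exact hz hg))
    omega
  have h7 : (G.map (ctr v b)).ind (((Es.erase x).erase y) \ Φ) Z ⊆
      insert z (G.ind (Es \ Φ) Z) := by
    intro g hg
    by_cases hgz : g = z
    · simp [hgz]
    · exact mem_insert_of_mem (h5 g hg hgz)
  have h8 := (card_le_card h7).trans (card_insert_le _ _)
  rw [N.jz'.mem_ind] at h6
  refine ⟨(mem_sdiff.1 h6.1).2, Z, hZ.trans (erase_subset _ _), fun hv => ?_, hr, h6.2.1, h6.2.2,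
    by omega⟩
  simpa using hZ hv

theorem Node.card_insert (N : G.Node Es v x y z a b c) (hx : x ∈ U) (hy : y ∈ U) (hz : z ∈ U)
    (hv : v ∉ Z) (ha : a ∈ Z) (hb : b ∈ Z) (hc : c ∈ Z) :
    (G.ind U Z).card + 3 ≤ (G.ind U (insert v Z)).card := by
  have h1 : x ∉ G.ind U Z := by rw [N.jx.mem_ind]; tauto
  have h2 : y ∉ G.ind U Z := by rw [N.jy.mem_ind]; tauto
  have h3 : z ∉ G.ind U Z := by rw [N.jz.mem_ind]; tauto
  have h4 : insert x (insert y (insert z (G.ind U Z))) ⊆ G.ind U (insert v Z) := by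
    intro g hg
    simp only [mem_insert] at hg
    rcases hg with rfl | rfl | rfl | hg
    · rw [N.jx.mem_ind]; simp [hx, ha]
    · rw [N.jy.mem_ind]; simp [hy, hb]
    · rw [N.jz.mem_ind]; simp [hz, hc]
    · exact ind_mono Subset.rfl (subset_insert _ _) hg
  have h5 := card_le_card h4
  have := N.xy
  have := N.xz
  have := N.yz
  rw [card_insert_of_notMem (by simp only [mem_insert]; tauto),
    card_insert_of_notMem (by simp only [mem_insert]; tauto), card_insert_of_notMem h3] at h5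
  omega

theorem Node.two_bad (N : G.Node Es v x y z a b c) (h : G.Sp X U r) (hx : x ∈ U) (hy : y ∈ U)
    (hz : z ∈ U) (hvX : v ∈ X) (hvr : v ≠ r) (hY : Y ⊆ X) (hZ : Z ⊆ X) (vY : v ∉ Y) (vZ : v ∉ Z)
    (rY : r ∉ Y) (rZ : r ∉ Z) (bY : b ∈ Y) (cY : c ∈ Y) (aZ : a ∈ Z) (cZ : c ∈ Z)
    (k1 : 2 * Y.card ≤ (G.ind U Y).card + 3) (k2 : 2 * Z.card ≤ (G.ind U Z).card + 3) :
    ∀ w ∈ Y, w ∈ Z → w = c := by
  intro w wY wZ
  by_contra hwc
  have h1 : 2 ≤ (Y ∩ Z).card := by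
    rw [← card_pair hwc]
    refine card_le_card fun g hg => ?_
    simp only [mem_insert, mem_singleton, mem_inter] at hg ⊢
    grind
  have h2 := h (Y ∩ Z) (inter_subset_left.trans hY) (by simp [rY]) h1
  have h3 := G.ind_supermod U Y Z
  have h4 := card_union_add_card_inter Y Z
  have h5 : v ∉ Y ∪ Z := by simp [vY, vZ]
  have h6 := N.card_insert hx hy hz h5 (by simp [aZ]) (by simp [bY]) (by simp [cY])
  have h7 := h (insert v (Y ∪ Z)) (insert_subset hvX (union_subset hY hZ))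
    (by simp [rY, rZ, hvr.symm])
    (by rw [card_insert_of_notMem h5]; have := card_pos.2 ⟨c, mem_union_left Z cY⟩; omega)
  rw [card_insert_of_notMem h5] at h7
  omega

theorem ind_empty_of_le (hloop : ∀ e ∈ U, G.s e ≠ G.t e) (hY : ∀ w ∈ Y, w = c) :
    (G.ind U Y).card = 0 := by
  rw [card_eq_zero, eq_empty_iff_forall_notMem]
  intro e he
  rw [mem_ind] at he
  exact hloop e he.1 ((hY _ he.2.1).trans (hY _ he.2.2).symm)

theorem Node.three_bad (N : G.Node Es v x y z a b c) (h : G.Sp X U r) (hx : x ∈ U) (hy : y ∈ U)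
    (hz : z ∈ U) (hvX : v ∈ X) (hvr : v ≠ r) (hloop : ∀ e ∈ U, G.s e ≠ G.t e) {W : Finset V}
    (hY : Y ⊆ X) (hZ : Z ⊆ X) (hW : W ⊆ X) (vY : v ∉ Y) (vZ : v ∉ Z) (vW : v ∉ W)
    (rY : r ∉ Y) (rZ : r ∉ Z) (rW : r ∉ W) (bY : b ∈ Y) (cY : c ∈ Y) (aZ : a ∈ Z) (cZ : c ∈ Z)
    (aW : a ∈ W) (bW : b ∈ W)
    (k1 : 2 * Y.card ≤ (G.ind U Y).card + 3) (k2 : 2 * Z.card ≤ (G.ind U Z).card + 3)
    (k3 : 2 * W.card ≤ (G.ind U W).card + 3) : False := by
  have i1 := N.two_bad h hx hy hz hvX hvr hY hZ vY vZ rY rZ bY cY aZ cZ k1 k2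
  have i2 := N.s23.two_bad h hx hz hy hvX hvr hY hW vY vW rY rW cY bY aW bW k1 k3
  have i3 := N.s12.s23.two_bad h hy hz hx hvX hvr hZ hW vZ vW rZ rW cZ aZ bW aW k2 k3
  have hab : a ≠ b := h.ne hx hy N.xy N.jx N.jy hvX (hZ aZ) N.av hvr (by rintro rfl; exact rZ aZ)
  have c1 : (Y ∩ Z).card = 1 := by
    rw [card_eq_one]
    exact ⟨c, by ext g; simp only [mem_inter, mem_singleton]; grind⟩
  have c2 : ((Y ∪ Z) ∩ W).card = 2 := by
    rw [← card_pair hab]
    congr 1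
    ext g; simp only [mem_inter, mem_union, mem_insert, mem_singleton]; grind
  have h4 := card_union_add_card_inter Y Z
  have h4' := card_union_add_card_inter (Y ∪ Z) W
  have d1 : Disjoint (G.ind U Y) (G.ind U Z) := by
    rw [disjoint_left]
    intro e h1 h2
    rw [mem_ind] at h1 h2
    exact hloop e h1.1 ((i1 _ h1.2.1 h2.2.1).trans (i1 _ h1.2.2 h2.2.2).symm)
  have d2 : Disjoint (G.ind U Y ∪ G.ind U Z) (G.ind U W) := by
    rw [disjoint_left]
    intro e h1 h2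
    rw [mem_union, mem_ind, mem_ind] at h1
    rw [mem_ind] at h2
    rcases h1 with h1 | h1
    · exact hloop e h1.1 ((i2 _ h1.2.1 h2.2.1).trans (i2 _ h1.2.2 h2.2.2).symm)
    · exact hloop e h1.1 ((i3 _ h1.2.1 h2.2.1).trans (i3 _ h1.2.2 h2.2.2).symm)
  have h3 : G.ind U Y ∪ G.ind U Z ∪ G.ind U W ⊆ G.ind U (Y ∪ Z ∪ W) :=
    union_subset (union_subset (ind_mono Subset.rfl (subset_union_left.trans subset_union_left))
      (ind_mono Subset.rfl (subset_union_right.trans subset_union_left)))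
      (ind_mono Subset.rfl subset_union_right)
  have h3' := card_le_card h3
  rw [card_union_of_disjoint d2, card_union_of_disjoint d1] at h3'
  have h5 : v ∉ Y ∪ Z ∪ W := by simp [vY, vZ, vW]
  have h6 := N.card_insert hx hy hz h5 (by simp [aZ]) (by simp [bY]) (by simp [cY])
  have h7 := h (insert v (Y ∪ Z ∪ W)) (insert_subset hvX (union_subset (union_subset hY hZ) hW))
    (by simp [rY, rZ, rW, hvr.symm])
    (by rw [card_insert_of_notMem h5]; have := card_pos.2 ⟨a, mem_union_right (Y ∪ Z) aW⟩; omega)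
  rw [card_insert_of_notMem h5] at h7
  omega

theorem chi (h : G.St X Es (S, T)) (hy : y ∈ T) (hz : z ∈ T) (hyz : y ≠ z) (jy : G.Joins y v b)
    (jz : G.Joins z v c) (hv : v ∉ Z) (hb : b ∈ Z) (hc : c ∈ Z)
    (k : 2 * Z.card ≤ (G.ind Es Z).card + 3) :
    (G.ind S Z).card + 1 = Z.card ∧ (G.ind T Z).card + 2 = Z.card := by
  have h1 := h.card_ind Z
  have h2 := h.fst.acyc.card_ind ⟨b, hb⟩
  have h3 := h.snd.acyc.card_ind (X := insert v Z) ⟨v, mem_insert_self _ _⟩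
  rw [card_insert_of_notMem hv] at h3
  have h4 : insert y (insert z (G.ind T Z)) ⊆ G.ind T (insert v Z) := by
    intro g hg
    simp only [mem_insert] at hg
    rcases hg with rfl | rfl | hg
    · rw [jy.mem_ind]; simp [hy, hb]
    · rw [jz.mem_ind]; simp [hz, hc]
    · exact ind_mono Subset.rfl (subset_insert _ _) hg
  have h5 := card_le_card h4
  have h6 : y ∉ G.ind T Z := by rw [jy.mem_ind]; tauto
  have h7 : z ∉ G.ind T Z := by rw [jz.mem_ind]; tauto
  rw [card_insert_of_notMem (by simp only [mem_insert]; tauto), card_insert_of_notMem h7] at h5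
  simp only at h1 h2 h3
  omega

/-- for a state of type `x` the colour of `z` is determined by any critical set through `b, c` -/
theorem Node.chi' (N : G.Node Es v x y z a b c) (h : G.St X Es p) (ht : Ty x y z p) (hv : v ∉ Z)
    (hb : b ∈ Z) (hc : c ∈ Z) (k : 2 * Z.card ≤ (G.ind Es Z).card + 3) :
    (z ∈ p.1 ↔ (G.ind p.1 Z).card + 2 = Z.card) := by
  obtain ⟨S, T⟩ := p
  have := h.disj z
  rcases ht with ⟨_, h2, h3⟩ | ⟨_, h2, h3⟩
  · have := chi h h2 h3 N.yz N.jy N.jz hv hb hc k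
    simp only at *
    constructor
    · tauto
    · omega
  · have := chi h.swap h2 h3 N.yz N.jy N.jz hv hb hc k
    exact ⟨fun _ => this.2, fun _ => h3⟩

theorem Node.vmove' (N : G.Node Es v x y z a b c) (hv : v ≠ r) (h : G.St X Es p)
    (ht : Ty x y z p) :
    (∃ q, G.Step X Es r p q ∧ Ty y x z q ∧ ∀ g, g ≠ x → g ≠ y → (g ∈ q.1 ↔ g ∈ p.1)) ∨
    (∃ q, G.Step X Es r p q ∧ Ty z x y q ∧ ∀ g, g ≠ x → g ≠ z → (g ∈ q.1 ↔ g ∈ p.1)) := by
  obtain ⟨S, T⟩ := p
  have := N.xy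
  have := N.xz
  have := N.yz
  rcases ht with ⟨h1, h2, h3⟩ | ⟨h1, h2, h3⟩
  · rcases N.vmove hv h h1 h2 h3 with h4 | h4
    · refine Or.inl ⟨_, h4, Or.inl ?_, fun g _ _ => ?_⟩ <;>
        simp only [mem_insert, mem_erase] at * <;> grind
    · refine Or.inr ⟨_, h4, Or.inl ?_, fun g _ _ => ?_⟩ <;>
        simp only [mem_insert, mem_erase] at * <;> grind
  · rcases N.vmove hv h.swap h1 h2 h3 with h4 | h4
    · refine Or.inl ⟨_, h4.swap, Or.inr ?_, fun g _ _ => ?_⟩ <;>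
        simp only [mem_insert, mem_erase, Prod.swap_prod_mk] at * <;> grind
    · refine Or.inr ⟨_, h4.swap, Or.inr ?_, fun g _ _ => ?_⟩ <;>
        simp only [mem_insert, mem_erase, Prod.swap_prod_mk] at * <;> grind

theorem Node.ty_ne (N : G.Node Es v x y z a b c) (h : G.St X Es p) (ht : Ty x y z p) : b ≠ c := by
  rintro rfl
  rcases ht with ⟨_, h2, h3⟩ | ⟨_, h2, h3⟩
  · exact h.snd.acyc.not_conn h2 N.jy (Conn.edge (mem_erase.2 ⟨N.yz.symm, h3⟩) N.jz)
  · exact h.fst.acyc.not_conn h2 N.jy (Conn.edge (mem_erase.2 ⟨N.yz.symm, h3⟩) N.jz)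

theorem Ty.flip {X' : Finset V} (hp : G.St X Es p) (hq : G.St X' Es q) (h1 : Ty x y z p)
    (h2 : Ty y x z q) (hz : z ∈ q.1 ↔ z ∈ p.1) :
    ¬ (x ∈ p.1 ↔ x ∈ q.1) ∧ ¬ (y ∈ p.1 ↔ y ∈ q.1) := by
  have := hp.disj x
  have := hp.disj y
  have := hp.disj z
  have := hq.disj x
  have := hq.disj y
  have := hq.disj z
  unfold Ty at *
  grind

def FlipProp (V E : Type*) [DecidableEq V] [DecidableEq E] (n : ℕ) : Prop :=
  ∀ (G : Gr V E) (X : Finset V) (Es Φ : Finset E) (r : V) (p : Finset E × Finset E),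
    X.card ≤ n → r ∈ X → G.Sp X (Es \ Φ) r → (∃ g ∈ Es, g ∈ Φ) → G.St X Es p →
    ∃ q, G.Reach X Es r p q ∧ ∃ g ∈ Φ, ¬ (g ∈ p.1 ↔ g ∈ q.1)

/-- a splitting that keeps the sparsity condition is available at `q` -/
def Good (G : Gr V E) (X : Finset V) (Es Φ : Finset E) (r v : V) (q : Finset E × Finset E) :
    Prop :=
  ∃ x y z a b c, G.Node Es v x y z a b c ∧ Ty x y z q ∧ x ∉ Φ ∧ y ∉ Φ ∧
    (G.map (ctr v b)).Sp (X.erase v) (((Es.erase x).erase y) \ Φ) r ∧ (a ≠ r → a ≠ b ∧ a ≠ c)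

theorem Node.step_aux {n : ℕ} (hE : FlipProp V E n) (hn : X.card ≤ n + 1)
    (N : G.Node Es v x y z a b c) (hv : v ≠ r) (hr : r ∈ X) (hs : G.Sp X (Es \ Φ) r)
    (hp : G.St X Es p) (ht : Ty x y z p) (hq : G.Step X Es r p q) (ht' : Ty y x z q)
    (hpq : ∀ g, g ≠ x → g ≠ y → (g ∈ q.1 ↔ g ∈ p.1)) :
    ∃ q, G.Reach X Es r p q ∧ ((∃ g ∈ Φ, ¬ (g ∈ p.1 ↔ g ∈ q.1)) ∨ G.Good X Es Φ r v q) := by
  have hW := hp.within
  have mx := N.jx.mem hW N.hx
  have my := N.jy.mem hW N.hy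
  have mz := N.jz.mem hW N.hz
  have fl := Ty.flip hp hq.2.1 ht ht' (hpq z N.xz.symm N.yz.symm)
  by_cases hx : x ∈ Φ
  · exact ⟨q, hq.reach, Or.inl ⟨x, hx, fl.1⟩⟩
  by_cases hy : y ∈ Φ
  · exact ⟨q, hq.reach, Or.inl ⟨y, hy, fl.2⟩⟩
  have hxU : x ∈ Es \ Φ := mem_sdiff.2 ⟨N.hx, hx⟩
  have hyU : y ∈ Es \ Φ := mem_sdiff.2 ⟨N.hy, hy⟩
  have hbc := N.ty_ne hp ht
  have hac := N.s12.ty_ne hq.2.1 ht'
  have hab : a ≠ r → a ≠ b := hs.ne hxU hyU N.xy N.jx N.jy mx.1 mx.2 N.av hv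
  by_cases g1 : (G.map (ctr v b)).Sp (X.erase v) (((Es.erase x).erase y) \ Φ) r
  · exact ⟨p, Reach.refl _, Or.inr ⟨x, y, z, a, b, c, N, ht, hx, hy, g1, by tauto⟩⟩
  by_cases g2 : (G.map (ctr v a)).Sp (X.erase v) (((Es.erase y).erase x) \ Φ) r
  · exact ⟨q, hq.reach, Or.inr ⟨y, x, z, b, a, c, N.s12, ht', hy, hx, g2, by grind⟩⟩
  obtain ⟨hz, Z1, s1, v1, r1, b1, c1, k1⟩ := N.bad hs g1
  obtain ⟨-, Z2, s2, v2, r2, a2, c2, k2⟩ := N.s12.bad hs g2
  have hzU : z ∈ Es \ Φ := mem_sdiff.2 ⟨N.hz, hz⟩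
  have i1 := N.two_bad hs hxU hyU hzU mx.1 hv s1 s2 v1 v2 r1 r2 b1 c1 a2 c2 k1 k2
  have hloop : ∀ e ∈ Es, G.s e ≠ G.t e := fun e he => hp.ne he (G.joins_st e)
  have g3 : (G.map (ctr v a)).Sp (X.erase v) (((Es.erase z).erase x) \ Φ) r := by
    by_contra g3
    obtain ⟨-, Z3, s3, v3, r3, a3, b3, k3⟩ := N.s23.s12.bad hs g3
    exact N.three_bad hs hxU hyU hzU mx.1 hv (fun e he => hloop e (mem_sdiff.1 he).1) s1 s2 s3
      v1 v2 v3 r1 r2 r3 b1 c1 a2 c2 a3 b3 k1 k2 k3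
  have hside : a ≠ r → a ≠ b ∧ a ≠ c := by tauto
  obtain ⟨p', hp', e1⟩ := N.down hp ht
  obtain ⟨q', hq', g, hg, hgf⟩ := hE _ _ _ _ r p' (by rw [card_erase_of_mem mx.1]; omega)
    (mem_erase.2 ⟨hv.symm, hr⟩) (N.sp_mark hs) ⟨z, N.z_mem, mem_insert_self _ _⟩ hp'
  by_cases hgz : g = z
  swap
  · have hgΦ : g ∈ Φ := (mem_insert.1 hg).resolve_left hgz
    have h1 := N.lift hW hv hside hq'
    rw [e1] at h1
    refine ⟨_, h1, Or.inl ⟨g, hgΦ, ?_⟩⟩
    rw [← e1, mem_up (by rintro rfl; exact hx hgΦ) (by rintro rfl; exact hy hgΦ),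
      mem_up (by rintro rfl; exact hx hgΦ) (by rintro rfl; exact hy hgΦ)]
    exact hgf
  subst hgz
  obtain ⟨ρ, τ, h1, h2, h3⟩ := hq'.exists_flip hgf
  have l1 := N.lift hW hv hside h1
  rw [e1] at l1
  have l2 := l1.trans (N.lift_step hW hv hside h2)
  obtain ⟨u1, t1⟩ := N.up_st hW h2.1
  obtain ⟨u2, t2⟩ := N.up_st hW h2.2.1
  have fin : ∀ u, G.Reach X Es r p u → Ty g x y u → G.Good X Es Φ r v u := fun u _ hu =>
    ⟨g, x, y, c, a, b, N.s23.s12, hu, hz, hx, g3, fun _ => ⟨hac.symm, hbc.symm⟩⟩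
  rcases N.vmove' hv u1 t1 with ⟨w1, m1, m2, m3⟩ | ⟨w1, m1, m2, -⟩
  swap
  · exact ⟨w1, l1.trans m1.reach, Or.inr (fin _ (l1.trans m1.reach) m2)⟩
  rcases N.vmove' hv u2 t2 with ⟨w2, n1, n2, n3⟩ | ⟨w2, n1, n2, -⟩
  swap
  · exact ⟨w2, l2.trans n1.reach, Or.inr (fin _ (l2.trans n1.reach) n2)⟩
  exfalso
  have k1' : 2 * Z1.card ≤ (G.ind Es Z1).card + 3 :=
    k1.trans (Nat.add_le_add_right (card_le_card (ind_mono sdiff_subset Subset.rfl)) _)
  have k2' : 2 * Z2.card ≤ (G.ind Es Z2).card + 3 :=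
    k2.trans (Nat.add_le_add_right (card_le_card (ind_mono sdiff_subset Subset.rfl)) _)
  have j1 := N.chi' u1 t1 v1 b1 c1 k1'
  have j2 := N.chi' u2 t2 v1 b1 c1 k1'
  have j3 := N.s12.chi' m1.2.1 m2 v2 a2 c2 k2'
  have j4 := N.s12.chi' n1.2.1 n2 v2 a2 c2 k2'
  rw [m3 g N.xz.symm N.yz.symm] at j3
  rw [n3 g N.xz.symm N.yz.symm] at j4
  rw [mem_up N.xz.symm N.yz.symm] at j1 j2 j3 j4
  have hins : ∀ Z : Finset V, v ∉ Z → ∀ k, G.s k ∈ Z → G.t k ∈ Z → k ≠ x ∧ k ≠ y ∧ k ≠ g := by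
    intro Z hZ k h4 h5
    have := N.jx.inc
    have := N.jy.inc
    have := N.jz.inc
    unfold Inc at *
    grind
  obtain ⟨e, f, hef⟩ := h2.exists_two
  obtain ⟨o, ho⟩ : ∃ o, ∀ k, k ≠ g → k ≠ o → (k ∈ ρ.1 ↔ k ∈ τ.1) := by
    by_cases h4 : g = e
    · exact ⟨f, fun k h5 h6 => hef k (h4 ▸ h5) h6⟩
    · have h5 : g = f := by
        by_contra h5
        exact h3 (hef g h4 h5)
      exact ⟨e, fun k h6 h7 => hef k h7 (h5 ▸ h6)⟩
  by_cases ho1 : G.s o ∈ Z1 ∧ G.t o ∈ Z1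
  · have e2 : G.ind w1.1 Z2 = G.ind w2.1 Z2 := by
      ext k
      simp only [mem_ind]
      refine and_congr_left fun h4 => ?_
      obtain ⟨h5, h6, h7⟩ := hins Z2 v2 k h4.1 h4.2
      rw [m3 k h5 h6, n3 k h5 h6, mem_up h5 h6, mem_up h5 h6]
      by_cases hko : k = o
      · subst hko
        have h8 : G.s k = G.t k := (i1 _ ho1.1 h4.1).trans (i1 _ ho1.2 h4.2).symm
        have h9 : k ∉ Es := fun h => hloop k h h8
        have h10 := h2.1.cov k
        have h11 := h2.2.1.cov k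
        simp only [mem_erase, h9, and_false, false_iff, not_or] at h10 h11
        simp [h10.1, h11.1]
      · exact ho k h7 hko
    rw [e2] at j3
    exact h3 (j3.trans j4.symm)
  · have e2 : G.ind (up x y g ρ).1 Z1 = G.ind (up x y g τ).1 Z1 := by
      ext k
      simp only [mem_ind]
      refine and_congr_left fun h4 => ?_
      obtain ⟨h5, h6, h7⟩ := hins Z1 v1 k h4.1 h4.2
      rw [mem_up h5 h6, mem_up h5 h6]
      exact ho k h7 (by rintro rfl; exact ho1 h4)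
    rw [e2] at j1
    exact h3 (j1.trans j2.symm)

theorem Node.step {n : ℕ} (hE : FlipProp V E n) (hn : X.card ≤ n + 1)
    (N : G.Node Es v x y z a b c) (hv : v ≠ r) (hr : r ∈ X) (hs : G.Sp X (Es \ Φ) r)
    (hp : G.St X Es p) :
    ∃ q, G.Reach X Es r p q ∧ ((∃ g ∈ Φ, ¬ (g ∈ p.1 ↔ g ∈ q.1)) ∨ G.Good X Es Φ r v q) := by
  have key : ∀ {x y z a b c}, G.Node Es v x y z a b c → Ty x y z p → ∃ q, G.Reach X Es r p q ∧
      ((∃ g ∈ Φ, ¬ (g ∈ p.1 ↔ g ∈ q.1)) ∨ G.Good X Es Φ r v q) := by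
    intro x y z a b c N ht
    rcases N.vmove' hv hp ht with ⟨q, h1, h2, h3⟩ | ⟨q, h1, h2, h3⟩
    · exact N.step_aux hE hn hv hr hs hp ht h1 h2 h3
    · exact N.s23.step_aux hE hn hv hr hs hp ht.s23 h1 h2 h3
  rcases N.cases hp with h | h | h
  · exact key N h
  · exact key N.s12 h
  · exact key N.s23.s12 h

/-- the degree of a vertex -/
def deg (G : Gr V E) (Es : Finset E) (v : V) : ℕ := (Es.filter fun e => G.Inc e v).card

theorem sum_deg_le (G : Gr V E) (Es : Finset E) (A : Finset V) :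
    ∑ u ∈ A, G.deg Es u ≤
      (Es.filter fun e => G.s e ∈ A).card + (Es.filter fun e => G.t e ∈ A).card := by
  induction A using Finset.induction_on with
  | empty => simp
  | insert u A hu ih =>
    rw [sum_insert hu]
    have h1 : (Es.filter fun e => G.s e ∈ insert u A).card =
        (Es.filter fun e => G.s e = u).card + (Es.filter fun e => G.s e ∈ A).card := by
      rw [← card_union_of_disjoint]
      · congr 1; ext e; simp only [mem_filter, mem_insert, mem_union]; tauto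
      · rw [disjoint_left]; intro e h1 h2; simp only [mem_filter] at h1 h2; grind
    have h2 : (Es.filter fun e => G.t e ∈ insert u A).card =
        (Es.filter fun e => G.t e = u).card + (Es.filter fun e => G.t e ∈ A).card := by
      rw [← card_union_of_disjoint]
      · congr 1; ext e; simp only [mem_filter, mem_insert, mem_union]; tauto
      · rw [disjoint_left]; intro e h1 h2; simp only [mem_filter] at h1 h2; grind
    have h3 : G.deg Es u ≤
        (Es.filter fun e => G.s e = u).card + (Es.filter fun e => G.t e = u).card := by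
      refine le_trans (card_le_card fun e he => ?_) (card_union_le _ _)
      simp only [mem_filter, mem_union, Inc] at he ⊢
      tauto
    omega

theorem exists_low_deg {R : Finset V} {k : ℕ} (hR : R ⊆ X)
    (h : 2 * Es.card + k * R.card < k * X.card +
      ((Es.filter fun e => G.s e ∈ R).card + (Es.filter fun e => G.t e ∈ R).card)) :
    ∃ v ∈ X, v ∉ R ∧ G.deg Es v < k := by
  by_contra hn
  push Not at hn
  have h1 := G.sum_deg_le Es (X \ R)
  have h2 : (X \ R).card • k ≤ ∑ u ∈ X \ R, G.deg Es u :=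
    card_nsmul_le_sum _ _ _ fun u hu => hn u (mem_sdiff.1 hu).1 (mem_sdiff.1 hu).2
  have h3 : (Es.filter fun e => G.s e ∈ X \ R).card + (Es.filter fun e => G.s e ∈ R).card
      ≤ Es.card := by
    rw [← card_union_of_disjoint]
    · exact card_le_card (union_subset (filter_subset _ _) (filter_subset _ _))
    · rw [disjoint_left]; intro e h1 h2; simp only [mem_filter, mem_sdiff] at h1 h2; tauto
  have h4 : (Es.filter fun e => G.t e ∈ X \ R).card + (Es.filter fun e => G.t e ∈ R).card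
      ≤ Es.card := by
    rw [← card_union_of_disjoint]
    · exact card_le_card (union_subset (filter_subset _ _) (filter_subset _ _))
    · rw [disjoint_left]; intro e h1 h2; simp only [mem_filter, mem_sdiff] at h1 h2; tauto
  have h5 := card_sdiff_add_card_eq_card hR
  rw [smul_eq_mul] at h2
  rw [← h5, mul_add, mul_comm k (X \ R).card] at h
  omega

theorem St.exists_low (hp : G.St X Es p) {W : Finset V} (hW : W ⊆ X) (hr : r ∈ W) (hne : W ≠ X)
    (ht : 2 * W.card ≤ (G.ind Es W).card + 2) : ∃ v ∈ X, v ∉ W ∧ G.deg Es v < 4 := by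
  refine exists_low_deg hW ?_
  obtain ⟨u, hu, huW⟩ : ∃ u ∈ X, u ∉ W := by
    by_contra hn
    push Not at hn
    exact hne (Subset.antisymm hW hn)
  obtain ⟨g, hg, hc⟩ : ∃ g ∈ p.1, ¬ (G.s g ∈ W ↔ G.t g ∈ W) := by
    by_contra hn
    push Not at hn
    have := hp.fst.conn r (hW hr) u hu (W : Set V) (fun e he => by simpa using hn e he)
    simp [hr, huW] at this
  have hgE : g ∈ Es := (hp.cov g).2 (Or.inl hg)
  have hgi : g ∉ G.ind Es W := by rw [mem_ind]; tauto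
  have h1 : G.ind Es W ⊆ Es.filter fun e => G.s e ∈ W := fun e he => by
    rw [mem_ind] at he; rw [mem_filter]; tauto
  have h2 : G.ind Es W ⊆ Es.filter fun e => G.t e ∈ W := fun e he => by
    rw [mem_ind] at he; rw [mem_filter]; tauto
  have h3 := card_le_card h1
  have h4 := card_le_card h2
  have h5 := hp.card
  by_cases hs : G.s g ∈ W
  · have := card_le_card (insert_subset (mem_filter.2 ⟨hgE, hs⟩) h1)
    rw [card_insert_of_notMem hgi] at this
    omega
  · have := card_le_card (insert_subset (mem_filter.2 ⟨hgE, by tauto⟩) h2)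
    rw [card_insert_of_notMem hgi] at this
    omega

theorem St.node (hp : G.St X Es p) (hv : v ∈ X) (hu : u ∈ X) (huv : u ≠ v)
    (hd : G.deg Es v < 4) :
    (∃ x y a b, G.Node2 Es v x y a b ∧ x ∈ p.1 ∧ y ∈ p.2) ∨
      ∃ x y z a b c, G.Node Es v x y z a b c := by
  obtain ⟨x, hx, ix⟩ := hp.fst.exists_inc hv hu huv
  obtain ⟨y, hy, iy⟩ := hp.snd.exists_inc hv hu huv
  obtain ⟨a, ja⟩ := ix.exists_joins
  obtain ⟨b, jb⟩ := iy.exists_joins
  have hxE := (hp.cov x).2 (Or.inl hx)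
  have hyE := (hp.cov y).2 (Or.inr hy)
  have hxy : x ≠ y := by rintro rfl; exact hp.disj x hx hy
  by_cases h : ∀ e ∈ Es, G.Inc e v → e = x ∨ e = y
  · exact Or.inl ⟨x, y, a, b, ⟨hxE, hyE, hxy, ja, jb, (hp.ne hxE ja).symm, (hp.ne hyE jb).symm, h⟩,
      hx, hy⟩
  · push Not at h
    obtain ⟨z, hz, iz, hzx, hzy⟩ := h
    obtain ⟨c, jc⟩ := iz.exists_joins
    refine Or.inr ⟨x, y, z, a, b, c, hxE, hyE, hz, hxy, hzx.symm, hzy.symm, ja, jb, jc,
      (hp.ne hxE ja).symm, (hp.ne hyE jb).symm, (hp.ne hz jc).symm, fun e he ie => ?_⟩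
    by_contra hn
    push Not at hn
    have h1 : {e, x, y, z} ⊆ Es.filter fun e => G.Inc e v := by
      intro g hg
      simp only [mem_insert, mem_singleton, mem_filter] at hg ⊢
      grind
    have h2 := card_le_card h1
    rw [card_insert_of_notMem (by simp only [mem_insert, mem_singleton]; grind),
      card_insert_of_notMem (by simp only [mem_insert, mem_singleton]; grind),
      card_pair hzy.symm] at h2
    unfold deg at hd
    omega

theorem St.exists_low_root (hp : G.St X Es p) (hr : r ∈ X) (hX : 2 ≤ X.card) :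
    ∃ v ∈ X, v ≠ r ∧ G.deg Es v < 4 := by
  obtain ⟨v, h1, h2, h3⟩ := hp.exists_low (W := {r}) (by simpa using hr) (mem_singleton_self r)
    (by rintro rfl; simp at hX) (by simp)
  exact ⟨v, h1, by simpa using h2, h3⟩

theorem Node2.sp (h : G.Sp X (Es \ Φ) r) :
    G.Sp (X.erase v) (((Es.erase x).erase y) \ Φ) r := by
  intro Y hY hr h2
  refine le_trans (Nat.add_le_add_right (card_le_card (ind_mono ?_ Subset.rfl)) _)
    (h Y (hY.trans (erase_subset _ _)) hr h2)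
  exact sdiff_subset_sdiff ((erase_subset _ _).trans (erase_subset _ _)) Subset.rfl

theorem flipProp (n : ℕ) : FlipProp V E n := by
  induction n with
  | zero =>
    intro G X Es Φ r p hn hr
    have := card_pos.2 ⟨r, hr⟩
    omega
  | succ n ih =>
    intro G X Es Φ r p hn hr hs ⟨g0, hg0, hg0'⟩ hp
    have hX : 2 ≤ X.card := by
      have := hp.card
      have := card_pos.2 ⟨g0, hg0⟩
      omega
    obtain ⟨v, hv, hvr, hd⟩ := hp.exists_low_root hr hX
    have hn' : (X.erase v).card ≤ n := by rw [card_erase_of_mem hv]; omega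
    have hr' : r ∈ X.erase v := mem_erase.2 ⟨hvr.symm, hr⟩
    rcases hp.node hv hr hvr.symm hd with ⟨x, y, a, b, N, hx, hy⟩ | ⟨x, y, z, a, b, c, N⟩
    · obtain ⟨S, T⟩ := p
      have h1 := N.down hp hx hy
      have h2 := N.vmove hp.within hvr h1
      rw [insert_erase hx, insert_erase hy] at h2
      have hyS := fun h => hp.disj y h hy
      have hxy := N.xy
      simp only at hx hy hyS
      by_cases hxΦ : x ∈ Φ
      · exact ⟨_, h2.reach, x, hxΦ, by simp [hx, hxy]⟩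
      by_cases hyΦ : y ∈ Φ
      · exact ⟨_, h2.reach, y, hyΦ, by simp only [mem_insert]; grind⟩
      have mx := N.jx.mem hp.within N.hx
      obtain ⟨q, hq, g, hg, hf⟩ := ih G _ _ Φ r _ hn' hr' (Node2.sp hs)
        ⟨g0, by simp only [mem_erase]; grind, hg0'⟩ h1
      have h3 := N.lift hp.within hvr (hs.ne (mem_sdiff.2 ⟨N.hx, hxΦ⟩) (mem_sdiff.2 ⟨N.hy, hyΦ⟩)
        N.xy N.jx N.jy mx.1 mx.2 N.av hvr) hq
      simp only [insert_erase hx, insert_erase hy] at h3
      refine ⟨_, h3, g, hg, ?_⟩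
      simp only [mem_insert, mem_erase] at hf ⊢
      grind
    · obtain ⟨q, hq, h | h⟩ := N.step ih hn hvr hr hs hp
      · exact ⟨q, hq, h⟩
      obtain ⟨x, y, z, a, b, c, N, ht, hx, hy, hs', hside⟩ := h
      obtain ⟨q', h1, h2⟩ := N.down (hq.st hp) ht
      obtain ⟨q'', h3, g, hg, hf⟩ := ih _ _ _ Φ r _ hn' hr' hs'
        ⟨g0, by simp only [mem_erase]; grind, hg0'⟩ h1
      have h4 := N.lift hp.within hvr hside h3
      rw [h2] at h4
      by_cases h5 : g ∈ p.1 ↔ g ∈ q.1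
      · refine ⟨_, hq.trans h4, g, hg, ?_⟩
        have k1 : g ≠ x := by rintro rfl; exact hx hg
        have k2 : g ≠ y := by rintro rfl; exact hy hg
        rw [h5, ← h2, mem_up k1 k2, mem_up k1 k2]
        exact hf
      · exact ⟨q, hq, g, hg, h5⟩

end Gr

end Pool.Agent.P.MP_3f5ce9_co
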