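import Pool.Agent.P.MP_3f5ce9_co.Mat

/-!
White's unique exchange property UE(2) for graphic and cographic matroids.
-/

namespace Pool.Agent.P.MP_3f5ce9_co.GraphicCographic

/-- `M` is the cycle matroid of a multigraph (loops and parallel edges allowed) whose edge `e`
has the ends `s e` and `t e`: a set `I` of edges is independent iff it contains no cycle, that is,
iff no edge `e` of `I` has its two ends joined by a path using the other edges of `I`. -/
def IsGraphic {n : ℕ} (M : Matroid (Fin n)) : Prop :=
  ∃ (V : Type) (s t : Fin n → V), ∀ I : Finset (Fin n),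
    (M.Indep (↑I : Set (Fin n)) ↔
      ∀ e ∈ I, ¬ Relation.EqvGen (fun a b : V => ∃ g ∈ I.erase e, s g = a ∧ t g = b) (s e) (t e))

open Pool.Agent.P.MP_3f5ce9_co in
theorem result :
    ∀ (n : ℕ) (M : Matroid (Fin n)), M.E = Set.univ →
      (IsGraphic M ∨ IsGraphic M.dual) →
      ∀ (m : ℕ), 2 ≤ m →
      ∀ (S T : Fin m → Finset (Fin n)),
        (∀ i, M.IsBase (↑(S i) : Set (Fin n))) →
        (∀ i, M.IsBase (↑(T i) : Set (Fin n))) →
        (∀ e : Fin n, (Finset.univ.filter (fun i => e ∈ S i)).card
                        = (Finset.univ.filter (fun i => e ∈ T i)).card) →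
        Relation.ReflTransGen
          (fun P Q : Fin m → Finset (Fin n) =>
            (∃ σ : Equiv.Perm (Fin m), Q = fun k => P (σ k)) ∨
            (∃ i j : Fin m, i < j ∧ ∃ x y : Fin n, x ∈ P i ∧ y ∈ P j ∧
              (∀ z ∈ P j,
                ((M.IsBase (↑(insert z ((P i).erase x)) : Set (Fin n)) ∧
                  M.IsBase (↑(insert x ((P j).erase z)) : Set (Fin n))) ↔ z = y)) ∧
              Q = Function.update (Function.update P i (insert y ((P i).erase x))) j
                    (insert x ((P j).erase y))))
          S T := by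
  intro n M hE hG m hm S T hS hT hc
  have : Nontrivial (Fin m) := Fin.nontrivial_iff_two_le.2 hm
  have key : Relation.ReflTransGen (UAny fun F : Finset (Fin n) => M.IsBase F) S T := by
    rcases hG with ⟨V, s, t, h⟩ | ⟨V, s, t, h⟩
    · exact graphic_reach ⟨s, t⟩ (fun F => by
        rw [h F]; simp only [Gr.Acyc, Gr.conn_iff_eqvGen]) hS hT hc
    · exact cographic_reach ⟨s, t⟩ hE (fun F => by
        rw [h F]; simp only [Gr.Acyc, Gr.conn_iff_eqvGen]) hS hT hc
  exact rt_lift id key fun a b h => h.ordered

end Pool.Agent.P.MP_3f5ce9_co.GraphicCographic
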