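import Pool.Agent.P.MP_3f5ce9_co.Basic

/-!
Pairs of disjoint spanning trees and leaf moves.
-/

open Finset

set_option linter.unusedSectionVars false

namespace Pool.Agent.P.MP_3f5ce9_co

namespace Gr

variable {V E : Type*} [DecidableEq V] [DecidableEq E]
variable {G : Gr V E} {X : Finset V} {F S T Es : Finset E} {u w v a b c r : V} {e f x y z : E}

instance (G : Gr V E) (e : E) (w : V) : Decidable (G.Inc e w) := by unfold Inc; infer_instance

theorem Tr.of_spans {F' : Finset E} (h : G.Tr X F) (hW : G.Within F' X) (hc : F'.card = F.card)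
    (hs : ∀ e ∈ F, G.Conn F' (G.s e) (G.t e)) : G.Tr X F' :=
  ⟨hW, fun u hu w hw => (h.conn u hu w hw).of_spans hs, by rw [hc]; exact h.card⟩

/-- exchanging `f` for `e` -/
theorem Tr.exchange (h : G.Tr X F) (hf : f ∈ F) (he : e ∉ F) (hs : G.s e ∈ X) (ht : G.t e ∈ X)
    (hc : G.Conn (insert e (F.erase f)) (G.s f) (G.t f)) : G.Tr X (insert e (F.erase f)) := by
  refine h.of_spans ?_ ?_ ?_
  · intro g hg
    rcases mem_insert.1 hg with rfl | hg
    · exact ⟨hs, ht⟩
    · exact h.within g (mem_of_mem_erase hg)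
  · rw [card_insert_of_notMem (fun h => he (mem_of_mem_erase h)), card_erase_of_mem hf]
    have := card_pos.2 ⟨f, hf⟩
    omega
  · intro g hg
    by_cases hgf : g = f
    · rw [hgf]; exact hc
    · exact Conn.edge (mem_insert_of_mem (mem_erase.2 ⟨hgf, hg⟩)) (G.joins_st g)

/-- re-attaching a leaf -/
theorem Tr.leaf_replace (h : G.Tr X F) (he : e ∈ F) (hi : G.Inc e w)
    (hl : ∀ g ∈ F, G.Inc g w → g = e) (hf : f ∉ F) (hj : G.Joins f w a) (ha : a ∈ X)
    (haw : a ≠ w) : G.Tr X (insert f (F.erase e)) := by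
  have hw : w ∈ X := hi.mem h.within he
  obtain ⟨q, hq⟩ := hi.exists_joins
  have hqw : q ≠ w := (h.acyc.ne he hq).symm
  have hqX := (hq.mem h.within he).2
  have hst : G.s f ∈ X ∧ G.t f ∈ X := by
    rcases hj with ⟨h1, h2⟩ | ⟨h1, h2⟩ <;> simp [h1, h2, hw, ha]
  refine h.exchange he hf hst.1 hst.2 (hq.conn ?_)
  refine (Conn.edge (mem_insert_self _ _) hj).trans ?_
  exact (Conn.erase_leaf hi hl haw hqw (h.conn a ha q hqX)).mono (subset_insert _ _)

theorem Tr.leaf_add (h : G.Tr (X.erase v) F) (hv : v ∈ X) (hj : G.Joins x v a)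
    (ha : a ∈ X.erase v) : G.Tr X (insert x F) := by
  have hx : x ∉ F := fun hx => by
    have := (hj.mem h.within hx).1
    simp at this
  have ha' := mem_of_mem_erase ha
  have key : ∀ u ∈ X, G.Conn (insert x F) a u := by
    intro u hu
    by_cases huv : u = v
    · rw [huv]; exact Conn.edge (mem_insert_self _ _) hj.symm
    · exact (h.conn a ha u (mem_erase.2 ⟨huv, hu⟩)).mono (subset_insert _ _)
  refine ⟨?_, fun u hu w hw => (key u hu).symm.trans (key w hw), ?_⟩
  · intro g hg
    rcases mem_insert.1 hg with rfl | hg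
    · rcases hj with ⟨h1, h2⟩ | ⟨h1, h2⟩ <;> simp [h1, h2, hv, ha']
    · exact ⟨mem_of_mem_erase (h.within g hg).1, mem_of_mem_erase (h.within g hg).2⟩
  · have := h.card
    rw [card_erase_of_mem hv] at this
    have := card_pos.2 ⟨v, hv⟩
    rw [card_insert_of_notMem hx]
    omega

theorem Tr.leaf_del (h : G.Tr X F) (hx : x ∈ F) (hi : G.Inc x v)
    (hl : ∀ g ∈ F, G.Inc g v → g = x) : G.Tr (X.erase v) (F.erase x) := by
  have hv : v ∈ X := hi.mem h.within hx
  refine ⟨?_, ?_, ?_⟩
  · intro g hg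
    have h1 := h.within g (mem_of_mem_erase hg)
    have h2 : ¬ G.Inc g v := fun h => (mem_erase.1 hg).1 (hl g (mem_of_mem_erase hg) h)
    unfold Inc at h2
    simp only [mem_erase]
    tauto
  · intro u hu w hw
    exact Conn.erase_leaf hi hl (mem_erase.1 hu).1 (mem_erase.1 hw).1
      (h.conn u (mem_of_mem_erase hu) w (mem_of_mem_erase hw))
  · have := h.card
    have := card_pos.2 ⟨x, hx⟩
    rw [card_erase_of_mem hx, card_erase_of_mem hv]
    omega

theorem Tr.congr {G' : Gr V E} (h : G.Tr X F) (hG : ∀ e ∈ F, G'.s e = G.s e ∧ G'.t e = G.t e) :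
    G'.Tr X F := by
  refine ⟨fun e he => ?_, fun u hu w hw => conn_congr hG (h.conn u hu w hw), h.card⟩
  rw [(hG e he).1, (hG e he).2]
  exact h.within e he

theorem Tr.exists_inc (h : G.Tr X F) (hv : v ∈ X) (hu : u ∈ X) (huv : u ≠ v) :
    ∃ e ∈ F, G.Inc e v := by
  by_contra hn
  push Not at hn
  exact huv ((h.conn v hv u hu).eq_of_isolated hn)

/-- the first edge of the path from `w` to `q` -/
theorem exists_first (h : G.Conn F w u) (huw : u ≠ w) :
    ∃ f ∈ F, ∃ p, G.Joins f w p ∧ G.Conn (F.filter fun g => ¬ G.Inc g w) p u := by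
  by_contra hn
  push Not at hn
  set F0 := F.filter fun g => ¬ G.Inc g w
  have hw : ¬ G.Conn F0 w u := fun hc => huw (hc.eq_of_isolated fun e he => (mem_filter.1 he).2)
  have := h {p | G.Conn F0 u p} (by
    intro g hg
    by_cases hi : G.Inc g w
    · obtain ⟨p, hp⟩ := hi.exists_joins
      have h1 : ¬ G.Conn F0 u p := fun hc => hn g hg p hp hc.symm
      have h2 : ¬ G.Conn F0 u w := fun hc => hw hc.symm
      rcases hp with ⟨h3, h4⟩ | ⟨h3, h4⟩ <;> simp [h3, h4, h1, h2]
    · exact G.closed_comp F0 u g (mem_filter.2 ⟨hg, hi⟩))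
  exact hw (Conn.symm (this.2 (Conn.refl _ _ _)))

/-- a pair of disjoint spanning trees covering `Es` -/
structure St (G : Gr V E) (X : Finset V) (Es : Finset E) (p : Finset E × Finset E) : Prop where
  fst : G.Tr X p.1
  snd : G.Tr X p.2
  disj : ∀ e, e ∈ p.1 → e ∈ p.2 → False
  cov : ∀ e, e ∈ Es ↔ e ∈ p.1 ∨ e ∈ p.2

variable {p q : Finset E × Finset E}

theorem St.swap (h : G.St X Es p) : G.St X Es p.swap :=
  ⟨h.snd, h.fst, fun e h1 h2 => h.disj e h2 h1, fun e => (h.cov e).trans or_comm⟩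

theorem St.within (h : G.St X Es p) : G.Within Es X := by
  intro e he
  rcases (h.cov e).1 he with h1 | h1
  · exact h.fst.within e h1
  · exact h.snd.within e h1

theorem St.ne (h : G.St X Es p) (he : e ∈ Es) (hj : G.Joins e u w) : u ≠ w := by
  rcases (h.cov e).1 he with h1 | h1
  · exact h.fst.acyc.ne h1 hj
  · exact h.snd.acyc.ne h1 hj

theorem St.card (h : G.St X Es p) : Es.card + 2 = 2 * X.card := by
  have h1 : Es = p.1 ∪ p.2 := by ext e; rw [mem_union]; exact h.cov e
  have h2 : Disjoint p.1 p.2 := disjoint_left.2 fun e h1 h2 => h.disj e h1 h2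
  rw [h1, card_union_of_disjoint h2]
  have := h.fst.card
  have := h.snd.card
  omega

theorem St.card_ind (h : G.St X Es p) (Y : Finset V) :
    (G.ind Es Y).card = (G.ind p.1 Y).card + (G.ind p.2 Y).card := by
  rw [← card_union_of_disjoint]
  · congr 1
    ext e
    simp only [mem_union, mem_ind, h.cov e]
    tauto
  · exact disjoint_left.2 fun e h1 h2 => h.disj e (mem_ind.1 h1).1 (mem_ind.1 h2).1

theorem St.sparse (h : G.St X Es p) {Y : Finset V} (hY : Y.Nonempty) :
    (G.ind Es Y).card + 2 ≤ 2 * Y.card := by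
  have := h.card_ind Y
  have := h.fst.acyc.card_ind hY
  have := h.snd.acyc.card_ind hY
  omega

/-- `w` is a leaf of the first tree, attached by `e`, and `e` is exchanged with `f` -/
def LM (G : Gr V E) (w : V) (p q : Finset E × Finset E) : Prop :=
  ∃ e ∈ p.1, ∃ f ∈ p.2, G.Inc e w ∧ G.Inc f w ∧ (∀ g ∈ p.1, G.Inc g w → g = e) ∧
    q.1 = insert f (p.1.erase e) ∧ q.2 = insert e (p.2.erase f)

def Step (G : Gr V E) (X : Finset V) (Es : Finset E) (r : V) (p q : Finset E × Finset E) : Prop :=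
  G.St X Es p ∧ G.St X Es q ∧ ∃ w, w ≠ r ∧ (G.LM w p q ∨ G.LM w p.swap q.swap)

def Reach (G : Gr V E) (X : Finset V) (Es : Finset E) (r : V) :
    Finset E × Finset E → Finset E × Finset E → Prop :=
  Relation.ReflTransGen (G.Step X Es r)

theorem LM.symm (h : G.LM w p q) (hd : ∀ e, e ∈ p.1 → e ∈ p.2 → False) : G.LM w q p := by
  obtain ⟨e, he, f, hf, ie, jf, hl, h1, h2⟩ := h
  refine ⟨f, by simp [h1], e, by simp [h2], jf, ie, ?_, ?_, ?_⟩
  · intro g hg hi
    rw [h1] at hg
    rcases mem_insert.1 hg with rfl | hg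
    · rfl
    · exact absurd (hl g (mem_of_mem_erase hg) hi) (mem_erase.1 hg).1
  · rw [h1]
    ext g
    have := hd f
    simp only [mem_insert, mem_erase]
    grind
  · rw [h2]
    ext g
    have := hd e
    simp only [mem_insert, mem_erase]
    grind

theorem Step.symm (h : G.Step X Es r p q) : G.Step X Es r q p := by
  obtain ⟨hp, hq, w, hw, h | h⟩ := h
  · exact ⟨hq, hp, w, hw, Or.inl (h.symm hp.disj)⟩
  · exact ⟨hq, hp, w, hw, Or.inr (h.symm hp.swap.disj)⟩

theorem Step.swap (h : G.Step X Es r p q) : G.Step X Es r p.swap q.swap := by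
  obtain ⟨hp, hq, w, hw, h⟩ := h
  exact ⟨hp.swap, hq.swap, w, hw, h.symm⟩

theorem Step.reach (h : G.Step X Es r p q) : G.Reach X Es r p q := Relation.ReflTransGen.single h

theorem Reach.refl (p : Finset E × Finset E) : G.Reach X Es r p p := Relation.ReflTransGen.refl

theorem Reach.trans {p' : Finset E × Finset E} (h : G.Reach X Es r p q)
    (h' : G.Reach X Es r q p') : G.Reach X Es r p p' := Relation.ReflTransGen.trans h h'

theorem Reach.symm (h : G.Reach X Es r p q) : G.Reach X Es r q p := by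
  induction h with
  | refl => exact Reach.refl _
  | tail _ h ih => exact h.symm.reach.trans ih

theorem Reach.swap (h : G.Reach X Es r p q) : G.Reach X Es r p.swap q.swap := by
  induction h with
  | refl => exact Reach.refl _
  | tail _ h ih => exact ih.trans h.swap.reach

theorem Reach.st (h : G.Reach X Es r p q) (hp : G.St X Es p) : G.St X Es q := by
  induction h with
  | refl => exact hp
  | tail _ h _ => exact h.2.1

theorem step_of_st {S' T' : Finset E} (hp : G.St X Es (S, T)) (hq : G.St X Es (S', T'))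
    (hw : w ≠ r) (he : e ∈ S) (hf : f ∈ T) (ie : G.Inc e w) (jf : G.Inc f w)
    (hl : ∀ g ∈ S, G.Inc g w → g = e) (h1 : S' = insert f (S.erase e))
    (h2 : T' = insert e (T.erase f)) : G.Step X Es r (S, T) (S', T') :=
  ⟨hp, hq, w, hw, Or.inl ⟨e, he, f, hf, ie, jf, hl, h1, h2⟩⟩

theorem step_mk {S' T' : Finset E} (hp : G.St X Es (S, T))
    (hw : w ≠ r) (he : e ∈ S) (hf : f ∈ T) (ie : G.Inc e w) (jf : G.Joins f w a)
    (hl : ∀ g ∈ S, G.Inc g w → g = e) (h1 : S' = insert f (S.erase e))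
    (h2 : T' = insert e (T.erase f)) (hc : G.Conn T' w a) : G.Step X Es r (S, T) (S', T') := by
  refine step_of_st hp ?_ hw he hf ie jf.inc hl h1 h2
  have hfS : f ∉ S := fun h => hp.disj f h hf
  have heT : e ∉ T := fun h => hp.disj e he h
  subst h1 h2
  refine ⟨hp.fst.leaf_replace he ie hl hfS jf (jf.mem hp.snd.within hf).2
    (hp.snd.acyc.ne hf jf).symm, hp.snd.exchange hf heT (hp.fst.within e he).1
    (hp.fst.within e he).2 (jf.conn hc), ?_, ?_⟩
  · intro g
    have := hp.disj g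
    simp only [mem_insert, mem_erase] at this ⊢
    grind
  · intro g
    have := hp.cov g
    simp only [mem_insert, mem_erase] at this ⊢
    grind

/-- a leaf can always move -/
theorem exists_step (hp : G.St X Es (S, T)) (hw : w ≠ r) (he : e ∈ S) (ie : G.Inc e w)
    (hl : ∀ g ∈ S, G.Inc g w → g = e) :
    ∃ f ∈ T, G.Inc f w ∧ G.Step X Es r (S, T) (insert f (S.erase e), insert e (T.erase f)) := by
  obtain ⟨q, hq⟩ := ie.exists_joins
  have hm := hq.mem hp.fst.within he
  obtain ⟨f, hf, a, ha, hc⟩ := exists_first (hp.snd.conn w hm.1 q hm.2)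
    (hp.fst.acyc.ne he hq).symm
  refine ⟨f, hf, ha.inc, step_mk hp hw he hf ie ha hl rfl rfl ?_⟩
  refine (Conn.edge (mem_insert_self _ _) hq).trans (hc.symm.mono ?_)
  intro g hg
  refine mem_insert_of_mem (mem_erase.2 ⟨?_, (mem_filter.1 hg).1⟩)
  rintro rfl
  exact (mem_filter.1 hg).2 ha.inc

/-- if the colour of an edge changes along a path then it changes at some step -/
theorem Reach.exists_flip (h : G.Reach X Es r p q) (hg : ¬ (e ∈ p.1 ↔ e ∈ q.1)) :
    ∃ p' q', G.Reach X Es r p p' ∧ G.Step X Es r p' q' ∧ ¬ (e ∈ p'.1 ↔ e ∈ q'.1) := by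
  induction h with
  | refl => simp at hg
  | @tail p' q' h1 h2 ih =>
    by_cases h3 : e ∈ p.1 ↔ e ∈ p'.1
    · exact ⟨p', q', h1, h2, by tauto⟩
    · exact ih h3

/-- a step changes the colour of two edges only -/
theorem Step.exists_two (h : G.Step X Es r p q) :
    ∃ e f, ∀ g, g ≠ e → g ≠ f → (g ∈ p.1 ↔ g ∈ q.1) := by
  obtain ⟨-, -, w, -, h | h⟩ := h
  · obtain ⟨e, -, f, -, -, -, -, h1, -⟩ := h
    refine ⟨e, f, fun g h2 h3 => ?_⟩
    simp [h1, h2, h3]
  · obtain ⟨e, -, f, -, -, -, -, -, h1⟩ := h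
    refine ⟨e, f, fun g h2 h3 => ?_⟩
    simp only [Prod.snd_swap] at h1
    simp [h1, h2, h3]

end Gr

end Pool.Agent.P.MP_3f5ce9_co
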