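import Pool.Agent.P.MP_3f5ce9_co.Unique
import Pool.Agent.P.MP_3f5ce9_co.Cuts

/-!
Partitions of a multigraph into several spanning trees are connected by re-splitting two trees.
-/

open Finset

set_option linter.unusedSectionVars false

namespace Pool.Agent.P.MP_3f5ce9_co

namespace Gr

variable {V E ι : Type*} [DecidableEq V] [DecidableEq E] [DecidableEq ι]
variable {G : Gr V E} {X : Finset V} {F A B Es Z : Finset E} {u w v : V}
  {e f g : E} {I : Finset ι} {P Q : ι → Finset E} {i j l : ι}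

theorem Conn.of_spans' {G' : Gr V E} (h : G'.Conn A u w)
    (hF : ∀ e ∈ A, G.Conn B (G'.s e) (G'.t e)) : G.Conn B u w :=
  fun X hX => h X fun e he => hF e he X hX

theorem Conn.sdiff (hB : G.Acyc B) (A : Finset E) (hA : ∀ a ∈ A, a ∈ B ∧ G.Conn (B.erase a) u w)
    (h : G.Conn B u w) : G.Conn (B \ A) u w := by
  induction A using Finset.induction_on with
  | empty => simpa using h
  | insert a A ha ih =>
    have h1 := ih fun b hb => hA b (mem_insert_of_mem hb)
    obtain ⟨h2, h4⟩ := hA a (mem_insert_self _ _)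
    have h3 := hB a h2
    have h5 : (B \ A).erase a = B \ insert a A := by
      ext g; simp only [mem_erase, mem_sdiff, mem_insert]; tauto
    have h6 : G.Closed ((B \ A).erase a) {z | G.Conn (B.erase a) u z} := by
      intro g hg
      refine G.closed_comp (B.erase a) u g ?_
      simp only [mem_erase, mem_sdiff] at hg ⊢
      tauto
    rw [← h5]
    by_cases h7 : G.Conn (B.erase a) u (G.t a)
    · exact Conn.erase_of_side (G.joins_st a).symm h6
        (fun h8 => h3 (Conn.trans (Conn.symm h8) h7)) (Conn.refl _ _ _) h4 h1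
    · exact Conn.erase_of_side (G.joins_st a) h6 h7 (Conn.refl _ _ _) h4 h1

theorem sym_exch (hA : G.Tr X A) (hB : G.Tr X B) (hd : ∀ e, e ∈ A → e ∈ B → False) (hg : g ∈ A) :
    ∃ h ∈ B, G.Tr X (insert h (A.erase g)) ∧ G.Tr X (insert g (B.erase h)) ∧
      ¬ G.Conn (A.erase g) (G.s h) (G.t h) := by
  classical
  have hm := hA.within g hg
  have hn := hA.acyc g hg
  obtain ⟨h, hh, hc, hb⟩ : ∃ h ∈ B,
      ¬ (G.Conn (A.erase g) (G.s g) (G.s h) ↔ G.Conn (A.erase g) (G.s g) (G.t h)) ∧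
      ¬ G.Conn (B.erase h) (G.s g) (G.t g) := by
    by_contra hc
    push Not at hc
    have h1 := Conn.sdiff hB.acyc (B.filter fun h =>
      ¬ (G.Conn (A.erase g) (G.s g) (G.s h) ↔ G.Conn (A.erase g) (G.s g) (G.t h)))
      (fun a ha => ⟨(mem_filter.1 ha).1, hc a (mem_filter.1 ha).1 (by
        have := (mem_filter.1 ha).2
        tauto)⟩) (hB.conn _ hm.1 _ hm.2)
    have h2 := h1 {z | G.Conn (A.erase g) (G.s g) z} (by
      intro k hk
      simp only [mem_sdiff, mem_filter, Set.mem_ofPred_eq] at hk ⊢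
      by_contra h3
      exact hk.2 ⟨hk.1, h3⟩)
    exact hn (h2.1 (Conn.refl _ _ _))
  have hm' := hB.within h hh
  refine ⟨h, hh, hA.exchange hg (fun h1 => hd h h1 hh) hm'.1 hm'.2 ?_,
    hB.exchange hh (hd g hg) hm.1 hm.2 ?_, fun h1 => hc ⟨fun h2 => h2.trans h1,
      fun h2 => h2.trans h1.symm⟩⟩
  · have e1 := Conn.erase_or (G.joins_st g) (hA.conn _ hm.1 _ hm'.1)
    have e2 := Conn.erase_or (G.joins_st g) (hA.conn _ hm.1 _ hm'.2)
    have e3 : G.Conn (insert h (A.erase g)) (G.s h) (G.t h) :=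
      Conn.edge (mem_insert_self _ _) (G.joins_st h)
    have s := subset_insert h (A.erase g)
    by_cases h1 : G.Conn (A.erase g) (G.s g) (G.s h)
    · exact (h1.mono s).trans (e3.trans ((e2.resolve_left (by tauto)).mono s).symm)
    · have h2 : G.Conn (A.erase g) (G.s g) (G.t h) := by
        by_contra h2
        exact hc ⟨fun h => absurd h h1, fun h => absurd h h2⟩
      exact (h2.mono s).trans (e3.symm.trans ((e1.resolve_left h1).mono s).symm)
  · have e1 := Conn.erase_or (G.joins_st h) (hB.conn _ hm'.1 _ hm.1)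
    have e2 := Conn.erase_or (G.joins_st h) (hB.conn _ hm'.1 _ hm.2)
    have e3 : G.Conn (insert g (B.erase h)) (G.s g) (G.t g) :=
      Conn.edge (mem_insert_self _ _) (G.joins_st g)
    have s := subset_insert g (B.erase h)
    rcases e1 with e1 | e1 <;> rcases e2 with e2 | e2
    · exact absurd (e1.symm.trans e2) hb
    · exact (e1.mono s).trans (e3.trans (e2.mono s).symm)
    · exact (e2.mono s).trans (e3.symm.trans (e1.mono s).symm)
    · exact absurd (e1.symm.trans e2) hb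

/-- a partition of `Es` into spanning trees indexed by `I` -/
structure MSt (G : Gr V E) (X : Finset V) (Es : Finset E) (I : Finset ι) (P : ι → Finset E) :
    Prop where
  tr : ∀ i ∈ I, G.Tr X (P i)
  disj : ∀ i ∈ I, ∀ j ∈ I, ∀ e, e ∈ P i → e ∈ P j → i = j
  cov : ∀ e, e ∈ Es ↔ ∃ i ∈ I, e ∈ P i

/-- two partitions differing in at most two trees -/
def RS (G : Gr V E) (X : Finset V) (Es : Finset E) (I : Finset ι) (P Q : ι → Finset E) : Prop :=
  G.MSt X Es I P ∧ G.MSt X Es I Q ∧ ∃ i ∈ I, ∃ j ∈ I, ∀ l, l ≠ i → l ≠ j → P l = Q l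

def MReach (G : Gr V E) (X : Finset V) (Es : Finset E) (I : Finset ι) :
    (ι → Finset E) → (ι → Finset E) → Prop := Relation.ReflTransGen (G.RS X Es I)

theorem MReach.symm (h : G.MReach X Es I P Q) : G.MReach X Es I Q P := by
  induction h with
  | refl => exact Relation.ReflTransGen.refl
  | tail _ h ih =>
    obtain ⟨h1, h2, i, hi, j, hj, h3⟩ := h
    exact Relation.ReflTransGen.head ⟨h2, h1, i, hi, j, hj, fun l a b => (h3 l a b).symm⟩ ih

theorem MReach.out (h : G.MReach X Es I P Q) (hl : l ∉ I) : P l = Q l := by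
  induction h with
  | refl => rfl
  | tail _ h ih =>
    obtain ⟨-, -, i, hi, j, hj, h3⟩ := h
    exact ih.trans (h3 l (by rintro rfl; exact hl hi) (by rintro rfl; exact hl hj))

theorem MSt.card_filter (h : G.MSt X Es I P) (φ : E → Prop) [DecidablePred φ] :
    (Es.filter φ).card = ∑ i ∈ I, ((P i).filter φ).card := by
  rw [← card_biUnion]
  · congr 1
    ext e
    simp only [mem_filter, mem_biUnion, h.cov e]
    grind
  · intro i hi j hj hij
    exact disjoint_left.2 fun e h1 h2 =>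
      hij (h.disj i hi j hj e (mem_filter.1 h1).1 (mem_filter.1 h2).1)

theorem MSt.card (h : G.MSt X Es I P) : Es.card + I.card = I.card * X.card := by
  have h1 := h.card_filter fun _ => True
  simp only [filter_true] at h1
  rw [h1, card_eq_sum_ones I, ← sum_add_distrib, sum_mul]
  refine sum_congr rfl fun i hi => ?_
  rw [(h.tr i hi).card, one_mul]

theorem MSt.deg (h : G.MSt X Es I P) (v : V) : G.deg Es v = ∑ i ∈ I, G.deg (P i) v :=
  h.card_filter _

theorem MSt.within (h : G.MSt X Es I P) : G.Within Es X := by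
  intro e he
  obtain ⟨i, hi, h1⟩ := (h.cov e).1 he
  exact (h.tr i hi).within e h1

theorem MSt.ne (h : G.MSt X Es I P) (he : e ∈ Es) (hj : G.Joins e u w) : u ≠ w := by
  obtain ⟨i, hi, h1⟩ := (h.cov e).1 he
  exact (h.tr i hi).acyc.ne h1 hj

theorem MSt.exch (h : G.MSt X Es I P) (hi : i ∈ I) (hj : j ∈ I) (hij : i ≠ j) (he : e ∈ P i)
    (hf : f ∈ P j) (h1 : G.Tr X (insert f ((P i).erase e)))
    (h2 : G.Tr X (insert e ((P j).erase f))) :
    ∃ Q, G.RS X Es I P Q ∧ Q i = insert f ((P i).erase e) ∧ Q j = insert e ((P j).erase f) ∧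
      ∀ l, l ≠ i → l ≠ j → Q l = P l := by
  let Q : ι → Finset E := fun l =>
    if l = i then insert f ((P i).erase e) else if l = j then insert e ((P j).erase f) else P l
  have q1 : Q i = insert f ((P i).erase e) := by simp [Q]
  have q2 : Q j = insert e ((P j).erase f) := by simp [Q, hij.symm]
  have q3 : ∀ l, l ≠ i → l ≠ j → Q l = P l := fun l a b => by simp [Q, a, b]
  refine ⟨Q, ⟨h, ⟨fun l hl => ?_, fun l hl l' hl' g => ?_, fun g => ?_⟩, i, hi, j, hj,
    fun l a b => (q3 l a b).symm⟩, q1, q2, q3⟩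
  · by_cases a : l = i
    · rw [a, q1]; exact h1
    by_cases b : l = j
    · rw [b, q2]; exact h2
    · rw [q3 l a b]; exact h.tr l hl
  · have d1 := h.disj l hl l' hl' g
    have d2 := h.disj i hi l hl
    have d3 := h.disj i hi l' hl'
    have d4 := h.disj j hj l hl
    have d5 := h.disj j hj l' hl'
    have d6 := h.disj i hi j hj
    simp only [Q]
    split_ifs <;> grind
  · rw [h.cov g]
    constructor
    · rintro ⟨l, hl, hg⟩
      by_cases a : g = e
      · exact ⟨j, hj, by simp [q2, a]⟩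
      by_cases b : g = f
      · exact ⟨i, hi, by simp [q1, b]⟩
      refine ⟨l, hl, ?_⟩
      simp only [Q]
      split_ifs <;> grind
    · rintro ⟨l, hl, hg⟩
      simp only [Q] at hg
      split_ifs at hg <;> grind

def MainProp (V E ι : Type*) [DecidableEq V] [DecidableEq E] [DecidableEq ι] (N : ℕ) : Prop :=
  ∀ (G : Gr V E) (X : Finset V) (Es : Finset E) (I : Finset ι) (P Q : ι → Finset E),
    X.card + I.card ≤ N → G.MSt X Es I P → G.MSt X Es I Q → (∀ l, l ∉ I → P l = Q l) →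
    G.MReach X Es I P Q

theorem MSt.erase (h : G.MSt X Es I P) (hl : l ∈ I) : G.MSt X (Es \ P l) (I.erase l) P := by
  refine ⟨fun i hi => h.tr i (mem_of_mem_erase hi),
    fun i hi j hj => h.disj i (mem_of_mem_erase hi) j (mem_of_mem_erase hj), fun e => ?_⟩
  have := h.disj l hl
  simp only [mem_sdiff, mem_erase, h.cov e]
  grind

theorem MSt.of_erase (h : G.MSt X (Es \ P l) (I.erase l) P) (hl : l ∈ I) (ht : G.Tr X (P l))
    (hs : P l ⊆ Es) : G.MSt X Es I P := by
  refine ⟨fun i hi => ?_, fun i hi j hj e h1 h2 => ?_, fun e => ?_⟩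
  · by_cases a : i = l
    · rwa [a]
    · exact h.tr i (mem_erase.2 ⟨a, hi⟩)
  · have k : ∀ i ∈ I, i ≠ l → e ∈ P i → e ∉ P l := fun i hi a h1 =>
      (mem_sdiff.1 ((h.cov e).2 ⟨i, mem_erase.2 ⟨a, hi⟩, h1⟩)).2
    by_cases a : i = l <;> by_cases b : j = l
    · rw [a, b]
    · exact absurd (a ▸ h1) (k j hj b h2)
    · exact absurd (b ▸ h2) (k i hi a h1)
    · exact h.disj i (mem_erase.2 ⟨a, hi⟩) j (mem_erase.2 ⟨b, hj⟩) e h1 h2
  · have := h.cov e
    have := @hs e
    simp only [mem_sdiff, mem_erase] at *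
    grind

theorem share {N : ℕ} (ih : MainProp V E ι N) (hN : X.card + I.card ≤ N + 1)
    (hP : G.MSt X Es I P) (hQ : G.MSt X Es I Q) (ho : ∀ l, l ∉ I → P l = Q l) (hl : l ∈ I)
    (hPQ : P l = Q l) : G.MReach X Es I P Q := by
  have h1 := hQ.erase hl
  rw [← hPQ] at h1
  have h2 := ih G X _ _ P Q (by rw [card_erase_of_mem hl]; have := card_pos.2 ⟨l, hl⟩; omega)
    (hP.erase hl) h1 (fun i hi => by
      by_cases a : i = l
      · rwa [a]
      · exact ho i fun h => hi (mem_erase.2 ⟨a, h⟩))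
  have hs : P l ⊆ Es := fun e he => (hP.cov e).2 ⟨l, hl, he⟩
  clear h1 hQ ho hPQ
  induction h2 with
  | refl => exact Relation.ReflTransGen.refl
  | @tail R R' h3 h4 ih =>
    have e1 : P l = R l := MReach.out h3 (by simp)
    have e2 : P l = R' l := MReach.out (h3.tail h4) (by simp)
    obtain ⟨h5, h6, i, hi, j, hj, h7⟩ := h4
    exact ih.tail ⟨MSt.of_erase (e1 ▸ h5) hl (e1 ▸ hP.tr l hl) (e1 ▸ hs),
      MSt.of_erase (e2 ▸ h6) hl (e2 ▸ hP.tr l hl) (e2 ▸ hs), i, mem_of_mem_erase hi, j,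
      mem_of_mem_erase hj, h7⟩

theorem Tr.deg_pos (h : G.Tr X F) (hv : v ∈ X) (hu : u ∈ X) (huv : u ≠ v) : 1 ≤ G.deg F v := by
  obtain ⟨e, he, hi⟩ := h.exists_inc hv hu huv
  exact card_pos.2 ⟨e, mem_filter.2 ⟨he, hi⟩⟩

theorem MSt.exists_leaf (h : G.MSt X Es I P) (hv : v ∈ X) (hu : u ∈ X) (huv : u ≠ v)
    (hd : G.deg Es v < 2 * I.card) :
    ∃ l ∈ I, ∃ e ∈ P l, G.Inc e v ∧ ∀ g ∈ P l, G.Inc g v → g = e := by
  obtain ⟨l, hl, h1⟩ : ∃ l ∈ I, G.deg (P l) v ≤ 1 := by
    by_contra hn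
    push Not at hn
    have := card_nsmul_le_sum I (fun i => G.deg (P i) v) 2 hn
    rw [← h.deg, smul_eq_mul] at this
    omega
  obtain ⟨e, he, hi⟩ := (h.tr l hl).exists_inc hv hu huv
  exact ⟨l, hl, e, he, hi, fun g hg ig =>
    card_le_one.1 h1 g (mem_filter.2 ⟨hg, ig⟩) e (mem_filter.2 ⟨he, hi⟩)⟩

theorem sum_lt_of_two {a b : ι → ℕ} (hi : i ∈ I) (h1 : a i < b i) (h2 : ∀ l ∈ I, a l ≤ b l) :
    ∑ l ∈ I, a l < ∑ l ∈ I, b l := sum_lt_sum h2 ⟨i, hi, h1⟩

theorem balance (hv : v ∈ X) (hu : u ∈ X) (huv : u ≠ v) (hd : G.deg Es v < 2 * I.card) (n : ℕ) :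
    ∀ P, G.MSt X Es I P → ∑ i ∈ I, (G.deg (P i) v - 2) = n →
      ∃ Q, G.MReach X Es I P Q ∧ G.MSt X Es I Q ∧ ∀ i ∈ I, G.deg (Q i) v ≤ 2 := by
  induction n using Nat.strong_induction_on with
  | _ n ih =>
  intro P hP hn
  by_cases h : ∀ i ∈ I, G.deg (P i) v ≤ 2
  · exact ⟨P, Relation.ReflTransGen.refl, hP, h⟩
  push Not at h
  obtain ⟨i, hi, h3⟩ := h
  obtain ⟨j, hj, e, he, ie, hl⟩ := hP.exists_leaf hv hu huv hd
  have hj1 : (P j).filter (fun g => G.Inc g v) = {e} := by
    ext g; simp only [mem_filter, mem_singleton]; grind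
  have hij : i ≠ j := by
    rintro rfl
    unfold deg at h3
    rw [hj1] at h3
    simp at h3
  obtain ⟨q, hq⟩ := ie.exists_joins
  have hm := hq.mem (hP.tr j hj).within he
  obtain ⟨f, hf, a, ha, hc⟩ := exists_first ((hP.tr i hi).conn v hv q hm.2)
    ((hP.tr j hj).acyc.ne he hq).symm
  obtain ⟨g, hg, hgf⟩ : ∃ g ∈ (P i).filter (fun g => G.Inc g v), g ≠ f :=
    exists_mem_ne (by unfold deg at h3; omega) f
  obtain ⟨hg, ig⟩ := mem_filter.1 hg
  have hc' : G.Conn ((P i).erase g) v q := by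
    refine (Conn.edge (mem_erase.2 ⟨hgf.symm, hf⟩) ha).trans (hc.mono fun k hk => ?_)
    refine mem_erase.2 ⟨?_, (mem_filter.1 hk).1⟩
    rintro rfl
    exact (mem_filter.1 hk).2 ig
  obtain ⟨h, hh, t1, t2, t3⟩ := sym_exch (hP.tr i hi) (hP.tr j hj)
    (fun k h1 h2 => hij (hP.disj i hi j hj k h1 h2)) hg
  have hhv : ¬ G.Inc h v := fun h1 => t3 (by rw [hl h hh h1]; exact hq.conn hc')
  obtain ⟨Q, r1, q1, q2, q3⟩ := hP.exch hi hj hij hg hh t1 t2
  have d1 : G.deg (Q i) v + 1 = G.deg (P i) v := by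
    unfold deg
    rw [← card_erase_add_one (mem_filter.2 ⟨hg, ig⟩), q1]
    congr 2
    ext k; simp only [mem_filter, mem_insert, mem_erase]; grind
  have d2 : G.deg (Q j) v ≤ 2 := by
    unfold deg
    refine le_trans (card_le_card (t := {e, g}) fun k hk => ?_) card_le_two
    rw [q2] at hk
    simp only [mem_filter, mem_insert, mem_erase, mem_singleton] at hk ⊢
    grind
  obtain ⟨R, r2, r3⟩ := ih _ (by
    rw [← hn]
    refine sum_lt_of_two (a := fun l => G.deg (Q l) v - 2) hi (by omega) fun l _ => ?_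
    by_cases a : l = i
    · rw [a]; omega
    by_cases b : l = j
    · rw [b]; omega
    · rw [q3 l a b]) Q r1.2.1 rfl
  exact ⟨R, Relation.ReflTransGen.head r1 r2, r3⟩

theorem local_reach {N : ℕ} (ih : MainProp V E ι N) (hN : X.card + I.card ≤ N + 1) (hv : v ∈ X)
    (hu : u ∈ X) (huv : u ≠ v) (hd : G.deg Es v < 2 * I.card) (hQ : G.MSt X Es I Q) (n : ℕ) :
    ∀ P, G.MSt X Es I P → (∀ l, l ∉ I → P l = Q l) →
      (∀ i ∈ I, ∀ e, ¬ G.Inc e v → (e ∈ P i ↔ e ∈ Q i)) → ∑ i ∈ I, (P i \ Q i).card = n →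
      G.MReach X Es I P Q := by
  induction n using Nat.strong_induction_on with
  | _ n ihn =>
  intro P hP ho hloc hn
  obtain ⟨l, hl, e, he, ie, hleaf⟩ := hP.exists_leaf hv hu huv hd
  by_cases heQ : e ∈ Q l
  · refine share ih hN hP hQ ho hl (eq_of_subset_of_card_le (fun g hg => ?_) ?_)
    · by_cases ig : G.Inc g v
      · rwa [hleaf g hg ig]
      · exact (hloc l hl g ig).1 hg
    · have := (hP.tr l hl).card
      have := (hQ.tr l hl).card
      omega
  obtain ⟨i, hi, heQi⟩ := (hQ.cov e).1 ((hP.cov e).2 ⟨l, hl, he⟩)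
  have hli : l ≠ i := by rintro rfl; exact heQ heQi
  obtain ⟨q, hq⟩ := ie.exists_joins
  have hm := hq.mem (hP.tr l hl).within he
  obtain ⟨f, hf, a, ha, hc⟩ := exists_first ((hP.tr i hi).conn v hv q hm.2)
    ((hP.tr l hl).acyc.ne he hq).symm
  have hfl : f ∉ P l := fun h => hli (hP.disj l hl i hi f h hf)
  have hei : e ∉ P i := fun h => hli (hP.disj l hl i hi e he h)
  have hef : e ≠ f := by rintro rfl; exact hei hf
  have t1 := (hP.tr l hl).leaf_replace he ie hleaf hfl ha (ha.mem (hP.tr i hi).within hf).2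
    ((hP.tr i hi).acyc.ne hf ha).symm
  have t2 : G.Tr X (insert e ((P i).erase f)) := by
    refine (hP.tr i hi).exchange hf hei ((hP.tr l hl).within e he).1 ((hP.tr l hl).within e he).2
      (ha.conn ((Conn.edge (mem_insert_self _ _) hq).trans (hc.symm.mono fun k hk => ?_)))
    refine mem_insert_of_mem (mem_erase.2 ⟨?_, (mem_filter.1 hk).1⟩)
    rintro rfl
    exact (mem_filter.1 hk).2 ha.inc
  have hfQ : f ∉ Q i := by
    intro h
    refine (hQ.tr i hi).acyc.not_conn h ha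
      ((Conn.edge (mem_erase.2 ⟨hef, heQi⟩) hq).trans (hc.symm.mono fun k hk => ?_))
    obtain ⟨k1, k2⟩ := mem_filter.1 hk
    refine mem_erase.2 ⟨?_, (hloc i hi k k2).1 k1⟩
    rintro rfl
    exact k2 ha.inc
  obtain ⟨R, r1, q1, q2, q3⟩ := hP.exch hl hi hli he hf t1 t2
  refine Relation.ReflTransGen.head r1 (ihn _ ?_ R r1.2.1 (fun k hk => ?_) (fun k hk g ig => ?_) rfl)
  · rw [← hn]
    refine sum_lt_of_two (a := fun k => (R k \ Q k).card) hi ?_ fun k _ => ?_
    · refine card_lt_card ⟨fun g hg => ?_, fun h => ?_⟩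
      · rw [q2] at hg
        simp only [mem_sdiff, mem_insert, mem_erase] at hg ⊢
        grind
      · have := h (mem_sdiff.2 ⟨hf, hfQ⟩)
        rw [q2] at this
        simp only [mem_sdiff, mem_insert, mem_erase] at this
        grind
    by_cases a : k = l
    · rw [a, q1]
      have h1 : insert f ((P l).erase e) \ Q l ⊆ insert f ((P l \ Q l).erase e) := by
        intro g hg
        simp only [mem_sdiff, mem_insert, mem_erase] at hg ⊢
        grind
      have h2 := (card_le_card h1).trans (card_insert_le _ _)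
      rw [card_erase_add_one (mem_sdiff.2 ⟨he, heQ⟩)] at h2
      exact h2
    by_cases b : k = i
    · rw [b, q2]
      refine card_le_card fun g hg => ?_
      simp only [mem_sdiff, mem_insert, mem_erase] at hg ⊢
      grind
    · rw [q3 k a b]
  · rw [q3 k (by rintro rfl; exact hk hl) (by rintro rfl; exact hk hi), ho k hk]
  · rw [← hloc k hk g ig]
    have h1 : g ≠ e := by rintro rfl; exact ig ie
    have h2 : g ≠ f := by rintro rfl; exact ig ha.inc
    by_cases a : k = l
    · rw [a, q1]; simp [h1, h2]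
    by_cases b : k = i
    · rw [b, q2]; simp [h1, h2]
    · rw [q3 k a b]

end Gr

end Pool.Agent.P.MP_3f5ce9_co
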