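import Pool.Agent.P.MP_3f5ce9_co.Seq

/-!
Complements, reorderings, and the passage from cycle matroids to spanning trees.
-/

open Finset

set_option linter.unusedSectionVars false

namespace Pool.Agent.P.MP_3f5ce9_co

variable {V E ι : Type*} [DecidableEq E] [DecidableEq ι]

theorem UAny.all {B : Finset E → Prop} {P Q : ι → Finset E} (h : UAny B P Q) (hP : ∀ l, B (P l))
    (l : ι) : B (Q l) := by
  obtain ⟨i, j, hij, x, y, -, hy, hu, rfl⟩ := h
  have := (hu y hy).2 rfl
  by_cases b : l = j
  · simpa [b] using this.2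
  by_cases a : l = i
  · simpa [a, hij] using this.1
  · simpa [a, b] using hP l

theorem UAny.compl [Fintype E] {B B' : Finset E → Prop} (hB : ∀ F, B' F ↔ B Fᶜ)
    (hc : ∀ F F', B F → B F' → F.card = F'.card) {P Q : ι → Finset E} (h : UAny B P Q)
    (hP : ∀ l, B (P l)) :
    Relation.ReflTransGen (UAny B') (fun l => (P l)ᶜ) (fun l => (Q l)ᶜ) := by
  obtain ⟨i, j, hij, x, y, hx, hy, hu, rfl⟩ := h
  by_cases hxj : x ∈ P j
  · have : x = y := (hu x hxj).1 ⟨by rw [insert_erase hx]; exact hP i,
      by rw [insert_erase hxj]; exact hP j⟩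
    subst this
    rw [insert_erase hx, insert_erase hxj, Function.update_eq_self, Function.update_eq_self]
  have h1 := (hu y hy).2 rfl
  have hxy : y ≠ x := by rintro rfl; exact hxj hy
  have hyi : y ∉ P i := by
    intro hyi
    have := hc _ _ h1.1 (hP i)
    rw [insert_eq_of_mem (mem_erase.2 ⟨hxy, hyi⟩), card_erase_of_mem hx] at this
    have := card_pos.2 ⟨x, hx⟩
    omega
  refine Relation.ReflTransGen.single ⟨j, i, hij.symm, x, y, mem_compl.2 hxj, mem_compl.2 hyi,
    fun z hz => ?_, ?_⟩
  · have hz' := mem_compl.1 hz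
    have hzx : z ≠ x := by rintro rfl; exact hz' hx
    have e1 : (insert z ((P j)ᶜ.erase x))ᶜ = insert x ((P j).erase z) := by
      ext a
      simp only [mem_compl, mem_insert, mem_erase]
      grind
    have e2 : (insert x ((P i)ᶜ.erase z))ᶜ = insert z ((P i).erase x) := by
      ext a
      simp only [mem_compl, mem_insert, mem_erase]
      grind
    simp only [hB, e1, e2]
    by_cases hzj : z ∈ P j
    · rw [and_comm]; exact hu z hzj
    · refine iff_of_false (fun h => ?_) (by rintro rfl; exact hzj hy)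
      have := hc _ _ h.1 (hP j)
      rw [erase_eq_of_notMem hzj, card_insert_of_notMem hxj] at this
      omega
  · funext l
    by_cases b : l = j
    · subst b
      ext a
      simp only [Function.update_self, Function.update_of_ne hij.symm, mem_compl, mem_insert,
        mem_erase]
      grind
    by_cases a : l = i
    · subst a
      ext a
      simp only [Function.update_self, Function.update_of_ne hij, mem_compl, mem_insert,
        mem_erase]
      grind
    · simp [a, b]

theorem reach_compl [Fintype E] {B B' : Finset E → Prop} (hB : ∀ F, B' F ↔ B Fᶜ)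
    (hc : ∀ F F', B F → B F' → F.card = F'.card) {P Q : ι → Finset E}
    (h : Relation.ReflTransGen (UAny B) P Q) (hP : ∀ l, B (P l)) :
    Relation.ReflTransGen (UAny B') (fun l => (P l)ᶜ) (fun l => (Q l)ᶜ) ∧ ∀ l, B (Q l) := by
  induction h with
  | refl => exact ⟨Relation.ReflTransGen.refl, hP⟩
  | tail _ h ih => exact ⟨ih.1.trans (h.compl hB hc ih.2), h.all ih.2⟩

theorem UAny.ordered [LinearOrder ι] {B : Finset E → Prop} {P Q : ι → Finset E} (h : UAny B P Q) :
    Relation.ReflTransGen (fun P Q : ι → Finset E => (∃ σ : Equiv.Perm ι, Q = fun k => P (σ k)) ∨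
      ∃ i j : ι, i < j ∧ UAt B i j P Q) P Q := by
  obtain ⟨i, j, hij, h⟩ := h
  rcases lt_or_gt_of_ne hij with hlt | hlt
  · exact Relation.ReflTransGen.single (Or.inr ⟨i, j, hlt, h⟩)
  obtain ⟨x, y, hx, hy, hu, rfl⟩ := h
  refine Relation.ReflTransGen.head (Or.inl ⟨Equiv.swap i j, rfl⟩) (Relation.ReflTransGen.head
    (Or.inr ⟨j, i, hlt, x, y, by simpa using hx, by simpa using hy, by simpa using hu, rfl⟩)
    (Relation.ReflTransGen.single (Or.inl ⟨Equiv.swap i j, ?_⟩)))
  funext l
  by_cases b : l = j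
  · simp [b]
  by_cases a : l = i
  · simp [a, hij, hij.symm]
  · simp [a, b, Equiv.swap_apply_of_ne_of_ne]

namespace Gr

theorem conn_iff_eqvGen (G : Gr V E) (F : Finset E) (u w : V) :
    G.Conn F u w ↔ Relation.EqvGen (fun a b => ∃ g ∈ F, G.s g = a ∧ G.t g = b) u w := by
  constructor
  · intro h
    refine (h {z | Relation.EqvGen (fun a b => ∃ g ∈ F, G.s g = a ∧ G.t g = b) u z} ?_).1
      (Relation.EqvGen.refl u)
    intro e he
    have : Relation.EqvGen (fun a b => ∃ g ∈ F, G.s g = a ∧ G.t g = b) (G.s e) (G.t e) :=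
      Relation.EqvGen.rel _ _ ⟨e, he, rfl, rfl⟩
    exact ⟨fun h => h.trans _ _ _ this, fun h => h.trans _ _ _ (this.symm _ _)⟩
  · intro h
    induction h with
    | rel a b h => obtain ⟨g, hg, h⟩ := h; exact Conn.edge hg (Or.inl h)
    | refl a => exact Conn.refl _ _ _
    | symm a b _ ih => exact ih.symm
    | trans a b c _ _ ih1 ih2 => exact ih1.trans ih2

theorem exists_connected [Fintype E] (G : Gr V E) :
    ∃ (G' : Gr (Option V) E) (X : Finset (Option V)), X.Nonempty ∧ G'.Within univ X ∧
      (∀ u ∈ X, ∀ w ∈ X, G'.Conn univ u w) ∧ ∀ F, G'.Acyc F ↔ G.Acyc F := by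
  classical
  let σ : Setoid V := ⟨G.Conn univ, ⟨Conn.refl _ _, Conn.symm, Conn.trans⟩⟩
  let r : V → V := fun v => (Quotient.mk σ v).out
  have r1 : ∀ v, G.Conn univ (r v) v := fun v => Quotient.mk_out (s := σ) v
  have r2 : ∀ u w, G.Conn univ u w → r u = r w := fun u w h =>
    congrArg Quotient.out (Quotient.sound (s := σ) h)
  let φ : V → Option V := fun v => if v = r v then none else some v
  let G' : Gr (Option V) E := ⟨fun e => φ (G.s e), fun e => φ (G.t e)⟩
  have m : ∀ F u w, G.Conn F u w → G'.Conn F (φ u) (φ w) := fun F u w h Y hY => h (φ ⁻¹' Y) hY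
  have k : ∀ v, G'.Conn univ none (φ v) := fun v => by
    have := m _ _ _ (r1 v)
    rwa [show φ (r v) = none from if_pos (r2 _ _ (r1 v)).symm] at this
  refine ⟨G', insert none (univ.image G'.s ∪ univ.image G'.t), ⟨none, by simp⟩,
    fun e _ => by simp, ?_, fun F => ⟨fun h e he hc => h e he (m _ _ _ hc), fun h e he hc => ?_⟩⟩
  · have : ∀ u ∈ insert none (univ.image G'.s ∪ univ.image G'.t), G'.Conn univ none u := by
      intro u hu
      simp only [mem_insert, mem_union, mem_image, mem_univ, true_and] at hu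
      rcases hu with rfl | ⟨e, rfl⟩ | ⟨e, rfl⟩
      · exact Conn.refl _ _ _
      · exact k _
      · exact k _
    exact fun u hu w hw => (this u hu).symm.trans (this w hw)
  · refine h e he fun Y hY => ?_
    let ψ : Option V → V := fun z => z.elim (r (G.s e)) fun a =>
      if G.Conn univ (G.s e) a then a else r (G.s e)
    have p1 : ∀ a, G.Conn univ (G.s e) a → ψ (φ a) = a := fun a ha => by
      simp only [φ]
      split_ifs with h1
      · exact (r2 _ _ ha).trans h1.symm
      · simp [ψ, ha]
    have p2 : ∀ a, ¬ G.Conn univ (G.s e) a → ψ (φ a) = r (G.s e) := fun a ha => by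
      simp only [φ]
      split_ifs with h1
      · rfl
      · simp [ψ, ha]
    have := hc (ψ ⁻¹' Y) fun g hg => by
      have c := G.closed_comp univ (G.s e) g (mem_univ g)
      simp only [Set.mem_ofPred_eq] at c
      show ψ (φ (G.s g)) ∈ Y ↔ ψ (φ (G.t g)) ∈ Y
      by_cases h1 : G.Conn univ (G.s e) (G.s g)
      · rw [p1 _ h1, p1 _ (c.1 h1)]
        exact hY g hg
      · rw [p2 _ h1, p2 _ fun h2 => h1 (c.2 h2)]
    change ψ (φ (G.s e)) ∈ Y ↔ ψ (φ (G.t e)) ∈ Y at this
    rwa [p1 _ (Conn.refl _ _ _), p1 _ (Conn.edge (mem_univ e) (G.joins_st e))] at this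

theorem isBase_iff_tr [Fintype E] [DecidableEq V] {G : Gr V E} {X : Finset V} (hX : X.Nonempty)
    (hW : G.Within univ X) (hc : ∀ u ∈ X, ∀ w ∈ X, G.Conn univ u w) {M : Matroid E}
    (hM : ∀ F : Finset E, M.Indep F ↔ G.Acyc F) (F : Finset E) : M.IsBase F ↔ G.Tr X F := by
  constructor
  · intro h
    obtain ⟨T, h1, -, h2⟩ := exists_tr _ hX ((hM F).1 h.indep) univ rfl (subset_univ _) hW hc
    have := h.eq_of_subset_indep ((hM T).2 h2.acyc) (coe_subset.2 h1)
    rwa [coe_injective this]
  · intro h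
    refine ((hM F).2 h.acyc).isBase_of_maximal fun J hJ hFJ => ?_
    lift J to Finset E using Set.toFinite J
    have h1 := card_le_of_acyc _ G J X rfl (hW.mono (subset_univ _)) hX ((hM J).1 hJ)
    have h2 := h.card
    rw [eq_of_subset_of_card_le (coe_subset.1 hFJ) (by omega)]

end Gr

theorem graphic_reach [Fintype E] [Fintype ι] [Nontrivial ι] (G : Gr V E) {M : Matroid E}
    (hM : ∀ F : Finset E, M.Indep F ↔ G.Acyc F) {S T : ι → Finset E} (hS : ∀ i, M.IsBase (S i))
    (hT : ∀ i, M.IsBase (T i))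
    (hc : ∀ e, (univ.filter fun i => e ∈ S i).card = (univ.filter fun i => e ∈ T i).card) :
    Relation.ReflTransGen (UAny fun F : Finset E => M.IsBase F) S T := by
  classical
  obtain ⟨G', X, h1, h2, h3, h4⟩ := G.exists_connected
  have h5 := Gr.isBase_iff_tr h1 h2 h3 fun F => (hM F).trans (h4 F).symm
  rw [funext fun F => propext (h5 F)]
  exact Gr.uany_tr (fun i => (h5 _).1 (hS i)) (fun i => (h5 _).1 (hT i)) hc

theorem cographic_reach [Fintype E] [Fintype ι] [Nontrivial ι] (G : Gr V E) {M : Matroid E}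
    (hE : M.E = Set.univ) (hM : ∀ F : Finset E, M✶.Indep F ↔ G.Acyc F) {S T : ι → Finset E}
    (hS : ∀ i, M.IsBase (S i)) (hT : ∀ i, M.IsBase (T i))
    (hc : ∀ e, (univ.filter fun i => e ∈ S i).card = (univ.filter fun i => e ∈ T i).card) :
    Relation.ReflTransGen (UAny fun F : Finset E => M.IsBase F) S T := by
  have h1 : ∀ F : Finset E, M.IsBase F ↔ M✶.IsBase (Fᶜ : Finset E) := fun F => by
    rw [Matroid.dual_isBase_iff', hE]
    simp [← Set.compl_eq_univ_diff]
  have h2 := graphic_reach G hM (S := fun i => (S i)ᶜ) (T := fun i => (T i)ᶜ)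
    (fun i => (h1 _).1 (hS i)) (fun i => (h1 _).1 (hT i)) fun e => by
      have a := card_filter_add_card_filter_not (s := (univ : Finset ι)) fun i => e ∈ S i
      have b := card_filter_add_card_filter_not (s := (univ : Finset ι)) fun i => e ∈ T i
      have := hc e
      simp only [mem_compl]
      omega
  have h3 := (reach_compl (B' := fun F : Finset E => M.IsBase F) h1 (fun F F' a b => by
    simpa using a.ncard_eq_ncard_of_isBase b) h2 fun i => (h1 _).1 (hS i)).1
  simpa using h3

end Pool.Agent.P.MP_3f5ce9_co
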