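import Pool.Agent.P.MP_3f5ce9_co.Leaf

/-!
Vertices of degree two and three: splitting off, and lifting of leaf moves.
-/

open Finset

set_option linter.unusedSectionVars false

namespace Pool.Agent.P.MP_3f5ce9_co

namespace Gr

variable {V E : Type*} [DecidableEq V] [DecidableEq E]
variable {G : Gr V E} {X : Finset V} {F S T Es : Finset E} {u w v a b c r : V} {e f x y z : E}
variable {p q : Finset E × Finset E}

/-- `v` has exactly the two edges `x`, `y` -/
structure Node2 (G : Gr V E) (Es : Finset E) (v : V) (x y : E) (a b : V) : Prop where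
  hx : x ∈ Es
  hy : y ∈ Es
  xy : x ≠ y
  jx : G.Joins x v a
  jy : G.Joins y v b
  av : a ≠ v
  bv : b ≠ v
  all : ∀ e ∈ Es, G.Inc e v → e = x ∨ e = y

theorem Node2.symm (N : G.Node2 Es v x y a b) : G.Node2 Es v y x b a :=
  ⟨N.hy, N.hx, N.xy.symm, N.jy, N.jx, N.bv, N.av, fun e he hi => (N.all e he hi).symm⟩

theorem Node2.up (N : G.Node2 Es v x y a b) (hW : G.Within Es X)
    (h : G.St (X.erase v) ((Es.erase x).erase y) (S, T)) :
    G.St X Es (insert x S, insert y T) := by
  have h1 := N.jx.mem hW N.hx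
  have h2 := N.jy.mem hW N.hy
  refine ⟨h.fst.leaf_add h1.1 N.jx (mem_erase.2 ⟨N.av, h1.2⟩),
    h.snd.leaf_add h1.1 N.jy (mem_erase.2 ⟨N.bv, h2.2⟩), fun g => ?_, fun g => ?_⟩
  all_goals
    have := h.disj g
    have := h.cov g
    have := h.cov x
    have := h.cov y
    have := N.xy
    have := N.hx
    have := N.hy
    simp only [mem_insert, mem_erase] at *
    grind

theorem Node2.down (N : G.Node2 Es v x y a b) (h : G.St X Es (S, T)) (hx : x ∈ S) (hy : y ∈ T) :
    G.St (X.erase v) ((Es.erase x).erase y) (S.erase x, T.erase y) := by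
  refine ⟨h.fst.leaf_del hx N.jx.inc fun g hg hi => ?_,
    h.snd.leaf_del hy N.jy.inc fun g hg hi => ?_, fun g => ?_, fun g => ?_⟩
  · have := N.all g ((h.cov g).2 (Or.inl hg)) hi
    have := h.disj y
    grind
  · have := N.all g ((h.cov g).2 (Or.inr hg)) hi
    have := h.disj x
    grind
  · have := h.disj g
    simp only [mem_erase] at *
    grind
  · have := h.disj g
    have := h.cov g
    simp only [mem_erase] at *
    grind

theorem Node2.cases (N : G.Node2 Es v x y a b) (h : G.St X Es (S, T)) :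
    (x ∈ S ∧ y ∈ T) ∨ (y ∈ S ∧ x ∈ T) := by
  have h1 := N.jx.mem h.within N.hx
  obtain ⟨e, he, ie⟩ := h.fst.exists_inc h1.1 h1.2 N.av
  obtain ⟨f, hf, jf⟩ := h.snd.exists_inc h1.1 h1.2 N.av
  have := N.all e ((h.cov e).2 (Or.inl he)) ie
  have := N.all f ((h.cov f).2 (Or.inr hf)) jf
  have := h.disj e
  simp only at *
  grind

theorem Node2.vmove (N : G.Node2 Es v x y a b) (hW : G.Within Es X) (hv : v ≠ r)
    (h : G.St (X.erase v) ((Es.erase x).erase y) (S, T)) :
    G.Step X Es r (insert x S, insert y T) (insert y S, insert x T) := by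
  have h' := h
  rw [erase_right_comm] at h'
  have hx := h.cov x
  have hy := h.cov y
  refine step_of_st (N.up hW h) (N.symm.up hW h') hv (mem_insert_self _ _) (mem_insert_self _ _)
    N.jx.inc N.jy.inc (fun g hg hi => ?_) ?_ ?_
  · have := N.all g (((N.up hW h).cov g).2 (Or.inl hg)) hi
    have := N.xy
    simp only [mem_insert, mem_erase] at *
    grind
  · rw [erase_insert]
    simp only [mem_erase] at *
    grind
  · rw [erase_insert]
    simp only [mem_erase] at *
    grind

theorem Node2.lift_aux (N : G.Node2 Es v x y a b) (hW : G.Within Es X) {S' T' : Finset E}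
    (h : G.St (X.erase v) ((Es.erase x).erase y) (S, T))
    (h' : G.St (X.erase v) ((Es.erase x).erase y) (S', T')) (hw : w ≠ r) (hwa : w ≠ a)
    (hm : G.LM w (S, T) (S', T')) :
    G.Step X Es r (insert x S, insert y T) (insert x S', insert y T') := by
  obtain ⟨e, he, f, hf, ie, jf, hl, h1, h2⟩ := hm
  have hwv : w ≠ v := (mem_erase.1 (ie.mem h.fst.within he)).1
  have hx := h.cov x
  have hy := h.cov y
  simp only at *
  refine step_of_st (N.up hW h) (N.up hW h') hw (mem_insert_of_mem he) (mem_insert_of_mem hf)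
    ie jf (fun g hg hi => ?_) ?_ ?_
  · rcases mem_insert.1 hg with rfl | hg
    · have := N.jx.inc_iff.1 hi
      grind
    · exact hl g hg hi
  · rw [h1]; ext g
    simp only [mem_insert, mem_erase] at *
    grind
  · rw [h2]; ext g
    simp only [mem_insert, mem_erase] at *
    grind

theorem Node2.lift_aux' (N : G.Node2 Es v x y a b) (hW : G.Within Es X) (hv : v ≠ r)
    (hab : a ≠ r → a ≠ b) {S' T' : Finset E}
    (h : G.St (X.erase v) ((Es.erase x).erase y) (S, T))
    (h' : G.St (X.erase v) ((Es.erase x).erase y) (S', T')) (hw : w ≠ r)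
    (hm : G.LM w (S, T) (S', T')) :
    G.Reach X Es r (insert x S, insert y T) (insert x S', insert y T') := by
  by_cases hwa : w = a
  · have h1 := h
    have h2 := h'
    rw [erase_right_comm] at h1 h2
    have := N.symm.lift_aux hW h1 h2 hw (by grind) hm
    exact (N.vmove hW hv h).reach.trans (this.reach.trans (N.vmove hW hv h').symm.reach)
  · exact (N.lift_aux hW h h' hw hwa hm).reach

theorem Node2.lift (N : G.Node2 Es v x y a b) (hW : G.Within Es X) (hv : v ≠ r)
    (hab : a ≠ r → a ≠ b)
    (h : G.Reach (X.erase v) ((Es.erase x).erase y) r p q) :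
    G.Reach X Es r (insert x p.1, insert y p.2) (insert x q.1, insert y q.2) := by
  induction h with
  | refl => exact Reach.refl _
  | @tail p' q' _ h ih =>
    refine ih.trans ?_
    obtain ⟨h1, h2, w, hw, hm | hm⟩ := h
    · exact N.lift_aux' hW hv hab h1 h2 hw hm
    · have h3 := h1.swap
      have h4 := h2.swap
      rw [erase_right_comm] at h3 h4
      exact (N.symm.lift_aux' hW hv (by grind) h3 h4 hw hm).swap

/-- `v` has exactly the three edges `x`, `y`, `z` -/
structure Node (G : Gr V E) (Es : Finset E) (v : V) (x y z : E) (a b c : V) : Prop where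
  hx : x ∈ Es
  hy : y ∈ Es
  hz : z ∈ Es
  xy : x ≠ y
  xz : x ≠ z
  yz : y ≠ z
  jx : G.Joins x v a
  jy : G.Joins y v b
  jz : G.Joins z v c
  av : a ≠ v
  bv : b ≠ v
  cv : c ≠ v
  all : ∀ e ∈ Es, G.Inc e v → e = x ∨ e = y ∨ e = z

theorem Node.s12 (N : G.Node Es v x y z a b c) : G.Node Es v y x z b a c :=
  ⟨N.hy, N.hx, N.hz, N.xy.symm, N.yz, N.xz, N.jy, N.jx, N.jz, N.bv, N.av, N.cv,
    fun e he hi => by have := N.all e he hi; tauto⟩

theorem Node.s23 (N : G.Node Es v x y z a b c) : G.Node Es v x z y a c b :=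
  ⟨N.hx, N.hz, N.hy, N.xz, N.xy, N.yz.symm, N.jx, N.jz, N.jy, N.av, N.cv, N.bv,
    fun e he hi => by have := N.all e he hi; tauto⟩

/-- `x` is the edge whose colour differs from the colour of the other two -/
def Ty (x y z : E) (p : Finset E × Finset E) : Prop :=
  (x ∈ p.1 ∧ y ∈ p.2 ∧ z ∈ p.2) ∨ (x ∈ p.2 ∧ y ∈ p.1 ∧ z ∈ p.1)

theorem Ty.s23 (h : Ty x y z p) : Ty x z y p := by unfold Ty at *; tauto

theorem Ty.swap (h : Ty x y z p) : Ty x y z p.swap := by
  unfold Ty at *; simp only [Prod.fst_swap, Prod.snd_swap]; tauto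

theorem Node.cases (N : G.Node Es v x y z a b c) (h : G.St X Es p) :
    Ty x y z p ∨ Ty y x z p ∨ Ty z x y p := by
  have h1 := N.jx.mem h.within N.hx
  obtain ⟨e, he, ie⟩ := h.fst.exists_inc h1.1 h1.2 N.av
  obtain ⟨f, hf, jf⟩ := h.snd.exists_inc h1.1 h1.2 N.av
  have := N.all e ((h.cov e).2 (Or.inl he)) ie
  have := N.all f ((h.cov f).2 (Or.inr hf)) jf
  have := h.disj e
  have := h.disj f
  have := (h.cov x).1 N.hx
  have := (h.cov y).1 N.hy
  have := (h.cov z).1 N.hz
  unfold Ty
  grind

theorem Node.ends (N : G.Node Es v x y z a b c) (he : e ∈ Es) (h1 : e ≠ x) (h2 : e ≠ y)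
    (h3 : e ≠ z) : (G.map (ctr v b)).s e = G.s e ∧ (G.map (ctr v b)).t e = G.t e := by
  have : ¬ G.Inc e v := fun hi => by have := N.all e he hi; tauto
  unfold Inc at this
  push Not at this
  simp [ctr_of_ne this.1, ctr_of_ne this.2]

theorem Node.inc_iff (N : G.Node Es v x y z a b c) (he : e ∈ Es) (h1 : e ≠ x) (h2 : e ≠ y)
    (h3 : e ≠ z) : (G.map (ctr v b)).Inc e w ↔ G.Inc e w := by
  have := N.ends he h1 h2 h3
  unfold Inc
  rw [this.1, this.2]

theorem Node.jz' (N : G.Node Es v x y z a b c) : (G.map (ctr v b)).Joins z b c := by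
  have := N.jz.map (ctr v b)
  rwa [ctr_self, ctr_of_ne N.cv] at this

theorem Tr.uncontract (h : (G.map (ctr v b)).Tr (X.erase v) F) (hW : G.Within F X) (hv : v ∈ X)
    (hb : b ∈ X) (hbv : b ≠ v) (hj : G.Joins y v b) (hy : y ∉ F) : G.Tr X (insert y F) := by
  refine ⟨?_, fun u hu w hw => ?_, ?_⟩
  · intro g hg
    rcases mem_insert.1 hg with rfl | hg
    · rcases hj with ⟨h1, h2⟩ | ⟨h1, h2⟩ <;> simp [h1, h2, hv, hb]
    · exact hW g hg
  · exact Conn.unmap hW hu hw (fun p _ q _ hpq => ctr_conn (mem_insert_self _ _) hj hpq)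
      (subset_insert _ _) (h.conn _ (ctr_mem hb hbv hu) _ (ctr_mem hb hbv hw))
  · have := h.card
    rw [card_erase_of_mem hv] at this
    have := card_pos.2 ⟨v, hv⟩
    rw [card_insert_of_notMem hy]
    omega

theorem Tr.contract (h : G.Tr X F) (hy : y ∈ F) (hj : G.Joins y v b) :
    (G.map (ctr v b)).Tr (X.erase v) (F.erase y) := by
  have hm := hj.mem h.within hy
  have hbv : b ≠ v := (h.acyc.ne hy hj).symm
  refine ⟨(h.within.mono (erase_subset _ _)).ctr hm.2 hbv, fun u hu w hw => ?_, ?_⟩
  · have h1 := (h.conn u (mem_of_mem_erase hu) w (mem_of_mem_erase hw)).map (ctr v b)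
    rw [ctr_of_ne (mem_erase.1 hu).1, ctr_of_ne (mem_erase.1 hw).1] at h1
    refine h1.of_spans fun e he => ?_
    by_cases hey : e = y
    · subst hey
      have := hj.map (ctr v b)
      rw [ctr_self, ctr_of_ne hbv] at this
      exact this.conn (Conn.refl _ _ _)
    · exact Conn.edge (mem_erase.2 ⟨hey, he⟩) (joins_st _ e)
  · have := h.card
    have := card_pos.2 ⟨y, hy⟩
    rw [card_erase_of_mem hy, card_erase_of_mem hm.1]
    omega

theorem Node.up1 (N : G.Node Es v x y z a b c) (hW : G.Within Es X)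
    (h : (G.map (ctr v b)).St (X.erase v) ((Es.erase x).erase y) (S, T)) (hz : z ∈ T) :
    G.St X Es (insert x S, insert y T) := by
  have h1 := N.jx.mem hW N.hx
  have h2 := N.jy.mem hW N.hy
  have hS : ∀ g ∈ S, g ∈ Es ∧ g ≠ x ∧ g ≠ y ∧ g ≠ z := by
    intro g hg
    have := (h.cov g).2 (Or.inl hg)
    have := h.disj g hg
    simp only [mem_erase] at *
    grind
  have hT : ∀ g ∈ T, g ∈ Es ∧ g ≠ x ∧ g ≠ y := by
    intro g hg
    have := (h.cov g).2 (Or.inr hg)
    simp only [mem_erase] at *
    grind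
  have h3 : G.Tr (X.erase v) S := h.fst.congr fun g hg => by
    obtain ⟨k1, k2, k3, k4⟩ := hS g hg
    have := N.ends k1 k2 k3 k4
    exact ⟨this.1.symm, this.2.symm⟩
  refine ⟨h3.leaf_add h1.1 N.jx (mem_erase.2 ⟨N.av, h1.2⟩),
    h.snd.uncontract (hW.mono fun g hg => (hT g hg).1) h1.1 h2.2 N.bv N.jy
      (fun hy => (hT y hy).2.2 rfl), fun g => ?_, fun g => ?_⟩
  all_goals
    have := h.disj g
    have := h.cov g
    have := h.cov x
    have := h.cov y
    have := N.xy
    have := N.hx
    have := N.hy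
    simp only [mem_insert, mem_erase] at *
    grind

theorem Node.down1 (N : G.Node Es v x y z a b c) (h : G.St X Es (S, T)) (hx : x ∈ S) (hy : y ∈ T)
    (hz : z ∈ T) :
    (G.map (ctr v b)).St (X.erase v) ((Es.erase x).erase y) (S.erase x, T.erase y) := by
  have hl : ∀ g ∈ S, G.Inc g v → g = x := by
    intro g hg hi
    have := N.all g ((h.cov g).2 (Or.inl hg)) hi
    have := h.disj g
    grind
  refine ⟨(h.fst.leaf_del hx N.jx.inc hl).congr fun g hg => ?_, h.snd.contract hy N.jy,
    fun g => ?_, fun g => ?_⟩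
  · have := h.disj g
    have := h.cov g
    simp only [mem_erase] at *
    apply N.ends <;> grind
  · have := h.disj g
    simp only [mem_erase] at *
    grind
  · have := h.disj g
    have := h.cov g
    simp only [mem_erase] at *
    grind

/-- lifting a state of the split graph -/
def up (x y z : E) (p : Finset E × Finset E) : Finset E × Finset E :=
  if z ∈ p.2 then (insert x p.1, insert y p.2) else (insert y p.1, insert x p.2)

theorem up_of_snd (h : z ∈ T) : up x y z (S, T) = (insert x S, insert y T) := by simp [up, h]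

theorem up_of_not (h : z ∉ T) : up x y z (S, T) = (insert y S, insert x T) := by simp [up, h]

theorem mem_up (h1 : e ≠ x) (h2 : e ≠ y) : e ∈ (up x y z p).1 ↔ e ∈ p.1 := by
  unfold up; split_ifs <;> simp [h1, h2]

theorem Node.z_mem (N : G.Node Es v x y z a b c) : z ∈ (Es.erase x).erase y :=
  mem_erase.2 ⟨N.yz.symm, mem_erase.2 ⟨N.xz.symm, N.hz⟩⟩

theorem Node.up_swap (N : G.Node Es v x y z a b c) {G' : Gr V E} {X' : Finset V}
    (h : G'.St X' ((Es.erase x).erase y) p) : up x y z p.swap = (up x y z p).swap := by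
  have h1 := (h.cov z).1 N.z_mem
  have h2 := h.disj z
  unfold up
  by_cases hz : z ∈ p.2
  · have : z ∉ p.1 := by tauto
    simp [hz, this]
  · have : z ∈ p.1 := by tauto
    simp [hz, this]

theorem Node.up_st (N : G.Node Es v x y z a b c) (hW : G.Within Es X)
    (h : (G.map (ctr v b)).St (X.erase v) ((Es.erase x).erase y) p) :
    G.St X Es (up x y z p) ∧ Ty x y z (up x y z p) := by
  obtain ⟨S, T⟩ := p
  by_cases hz : z ∈ T
  · rw [up_of_snd hz]
    exact ⟨N.up1 hW h hz, Or.inl ⟨by simp, by simp, by simp [hz]⟩⟩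
  · rw [up_of_not hz]
    have hzS : z ∈ S := by have := (h.cov z).1 N.z_mem; tauto
    exact ⟨(N.up1 hW h.swap hzS).swap, Or.inr ⟨by simp, by simp, by simp [hzS]⟩⟩

theorem Node.down (N : G.Node Es v x y z a b c) (h : G.St X Es p) (ht : Ty x y z p) :
    ∃ p', (G.map (ctr v b)).St (X.erase v) ((Es.erase x).erase y) p' ∧ up x y z p' = p := by
  obtain ⟨S, T⟩ := p
  rcases ht with ⟨h1, h2, h3⟩ | ⟨h1, h2, h3⟩
  · refine ⟨_, N.down1 h h1 h2 h3, ?_⟩
    rw [up_of_snd (mem_erase.2 ⟨N.yz.symm, h3⟩), insert_erase h1, insert_erase h2]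
  · refine ⟨_, (N.down1 h.swap h1 h2 h3).swap, ?_⟩
    simp only [Prod.swap_prod_mk] at *
    rw [up_of_not (fun h4 => h.disj z h3 (mem_of_mem_erase h4)), insert_erase h1, insert_erase h2]

theorem Node.vstep (N : G.Node Es v x y z a b c) (hv : v ≠ r) (h : G.St X Es (S, T)) (hx : x ∈ S)
    (hy : y ∈ T) (hz : z ∈ T) (hc : G.Conn ((T.erase y).erase z) a b) :
    G.Step X Es r (S, T) (insert y (S.erase x), insert x (T.erase y)) := by
  refine step_mk h hv hx hy N.jx.inc N.jy (fun g hg hi => ?_) rfl rfl ?_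
  · have := N.all g ((h.cov g).2 (Or.inl hg)) hi
    have := h.disj g
    grind
  · exact (Conn.edge (mem_insert_self _ _) N.jx).trans
      (hc.mono ((erase_subset _ _).trans (subset_insert _ _)))

theorem Node.side (N : G.Node Es v x y z a b c) (h : G.Tr X T) (hTE : T ⊆ Es) (hx : x ∉ T)
    (hv : v ∈ X) (hu : u ∈ X) (huv : u ≠ v) :
    G.Conn ((T.erase y).erase z) u b ∨ G.Conn ((T.erase y).erase z) u c := by
  obtain ⟨f, hf, p, hp, hc⟩ := exists_first (h.conn v hv u hu) huv
  have h1 : (T.filter fun g => ¬ G.Inc g v) ⊆ (T.erase y).erase z := by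
    intro g hg
    have h2 := mem_filter.1 hg
    refine mem_erase.2 ⟨?_, mem_erase.2 ⟨?_, h2.1⟩⟩
    · rintro rfl; exact h2.2 N.jz.inc
    · rintro rfl; exact h2.2 N.jy.inc
  have h3 := (hc.mono h1).symm
  rcases N.all f (hTE hf) hp.inc with rfl | rfl | rfl
  · exact absurd hf hx
  · have := N.jy.inc_iff.1 hp.inc'
    have := h.acyc.ne hf hp
    left; grind
  · have := N.jz.inc_iff.1 hp.inc'
    have := h.acyc.ne hf hp
    right; grind

/-- the move at `v` -/
theorem Node.vmove (N : G.Node Es v x y z a b c) (hv : v ≠ r) (h : G.St X Es (S, T)) (hx : x ∈ S)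
    (hy : y ∈ T) (hz : z ∈ T) :
    G.Step X Es r (S, T) (insert y (S.erase x), insert x (T.erase y)) ∨
      G.Step X Es r (S, T) (insert z (S.erase x), insert x (T.erase z)) := by
  have hm := N.jx.mem h.within N.hx
  rcases N.side h.snd (fun g hg => (h.cov g).2 (Or.inr hg)) (h.disj x hx) hm.1 hm.2 N.av with
    h1 | h1
  · exact Or.inl (N.vstep hv h hx hy hz h1)
  · rw [erase_right_comm] at h1
    exact Or.inr (N.s23.vstep hv h hx hz hy h1)

theorem Node.amove (N : G.Node Es v x y z a b c) (hv : v ≠ r) (ha : a ≠ r) (hab : a ≠ b)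
    (hac : a ≠ c) (h : G.St X Es (S, T)) (hx : x ∈ S) (hy : y ∈ T) (hz : z ∈ T) (he : e ∈ S)
    (hex : e ≠ x) (hf : f ∈ T) (ie : G.Inc e a) (jf : G.Inc f a)
    (hl : ∀ g ∈ S, G.Inc g a → g = e ∨ g = x)
    (h' : G.St X Es (insert f (S.erase e), insert e (T.erase f)))
    (hc : G.Conn ((T.erase y).erase z) a b) :
    G.Reach X Es r (S, T) (insert f (S.erase e), insert e (T.erase f)) := by
  have hxy := N.xy
  have hxz := N.xz
  have hyz := N.yz
  have hav := N.av
  have dx := h.disj x
  have dy := h.disj y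
  have dz := h.disj z
  have de := h.disj e
  have df := h.disj f
  simp only at dx dy dz de df
  have hya : ¬ G.Inc y a := by rw [N.jy.inc_iff]; grind
  have hza : ¬ G.Inc z a := by rw [N.jz.inc_iff]; grind
  have hfy : f ≠ y := by rintro rfl; exact hya jf
  have hfz : f ≠ z := by rintro rfl; exact hza jf
  have hvS : ∀ g ∈ S, G.Inc g v → g = x := fun g hg hi => by
    have := N.all g ((h.cov g).2 (Or.inl hg)) hi
    grind
  have hvT : ∀ g ∈ T, G.Inc g v → g = y ∨ g = z := fun g hg hi => by
    have := N.all g ((h.cov g).2 (Or.inr hg)) hi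
    grind
  have hmx := N.jx.mem h.within N.hx
  have hmy := N.jy.mem h.within N.hy
  have hmz := N.jz.mem h.within N.hz
  have s1 := N.vstep hv h hx hy hz hc
  refine s1.reach.trans ?_
  have hx' : x ∈ insert f (S.erase e) := by simp only [mem_insert, mem_erase]; grind
  have hy' : y ∈ insert e (T.erase f) := by simp only [mem_insert, mem_erase]; grind
  have hz' : z ∈ insert e (T.erase f) := by simp only [mem_insert, mem_erase]; grind
  by_cases hb' : G.Conn (((insert e (T.erase f)).erase y).erase z) a b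
  · have s3 := N.vstep hv h' hx' hy' hz' hb'
    refine Reach.trans (Step.reach ?_) s3.symm.reach
    refine step_of_st (e := e) (f := f) s1.2.1 s3.2.1 ha ?_ ?_ ie jf (fun g hg hi => ?_) ?_ ?_
    · simp only [mem_insert, mem_erase]; grind
    · simp only [mem_insert, mem_erase]; grind
    · have := hl g
      simp only [mem_insert, mem_erase] at hg
      grind
    · ext g; simp only [mem_insert, mem_erase]; grind
    · ext g; simp only [mem_insert, mem_erase]; grind
  have hc' : G.Conn (((insert e (T.erase f)).erase y).erase z) a c :=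
    (N.side h'.snd (fun g hg => (h'.cov g).2 (Or.inr hg)) (h'.disj x hx') hmx.1 hmx.2
      N.av).resolve_left hb'
  obtain ⟨q, hq⟩ := ie.exists_joins
  obtain ⟨p', hp'⟩ := jf.exists_joins
  have hpb : G.Conn (((T.erase y).erase z).erase f) p' b := by
    refine (Conn.erase_or hp' hc).resolve_left fun h1 => hb' (h1.mono fun g hg => ?_)
    simp only [mem_insert, mem_erase] at hg ⊢
    grind
  have hqc : G.Conn (((T.erase y).erase z).erase f) q c := by
    rcases Conn.erase_or hq hc' with h1 | h1
    · exfalso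
      refine h.snd.acyc.not_conn hy N.jy ?_
      have h2 : G.Conn (T.erase y) v c := Conn.edge (mem_erase.2 ⟨hyz.symm, hz⟩) N.jz
      refine h2.trans ((h1.symm.mono fun g hg => ?_).trans (hc.mono (erase_subset _ _)))
      simp only [mem_insert, mem_erase] at hg ⊢
      grind
    · refine h1.mono fun g hg => ?_
      simp only [mem_insert, mem_erase] at hg ⊢
      grind
  have hcb : G.Conn ((S.erase x).erase e) c b := by
    refine Conn.erase_leaf ie (fun g hg hi => ?_) hac.symm hab.symm
      (Conn.erase_leaf N.jx.inc hvS N.cv N.bv (h.fst.conn c hmz.2 b hmy.2))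
    have := hl g (mem_of_mem_erase hg) hi
    have := (mem_erase.1 hg).1
    tauto
  have s2 : G.Step X Es r (insert y (S.erase x), insert x (T.erase y))
      (insert y (S.erase e), insert e (T.erase y)) := by
    refine step_mk (e := e) (f := x) s1.2.1 ha ?_ (mem_insert_self _ _) ie N.jx.symm
      (fun g hg hi => ?_) ?_ ?_ ?_
    · simp only [mem_insert, mem_erase]; grind
    · have := hl g
      simp only [mem_insert, mem_erase] at hg
      grind
    · ext g; simp only [mem_insert, mem_erase]; grind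
    · ext g; simp only [mem_insert, mem_erase]; grind
    · refine (Conn.edge (mem_insert_self _ _) hq).trans ((hqc.mono fun g hg => ?_).trans
        (Conn.edge ?_ N.jz.symm))
      · simp only [mem_insert, mem_erase] at hg ⊢; grind
      · simp only [mem_insert, mem_erase]; grind
  have s3 : G.Step X Es r (insert e (T.erase y), insert y (S.erase e))
      (insert e (T.erase z), insert z (S.erase e)) := by
    refine step_mk (e := z) (f := y) s2.2.1.swap hv ?_ (mem_insert_self _ _) N.jz.inc N.jy
      (fun g hg hi => ?_) ?_ ?_ ?_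
    · simp only [mem_insert, mem_erase]; grind
    · have := hvS g
      have := hvT g
      simp only [mem_insert, mem_erase] at hg
      grind
    · ext g; simp only [mem_insert, mem_erase]; grind
    · ext g; simp only [mem_insert, mem_erase]; grind
    · refine (Conn.edge (mem_insert_self _ _) N.jz).trans (hcb.mono fun g hg => ?_)
      simp only [mem_insert, mem_erase] at hg ⊢; grind
  have s4 : G.Step X Es r (insert z (S.erase e), insert e (T.erase z))
      (insert f (insert z ((S.erase e).erase x)), insert x (insert e ((T.erase z).erase f))) := by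
    refine step_mk (e := x) (f := f) s3.2.1.swap ha ?_ ?_ N.jx.inc' hp'
      (fun g hg hi => ?_) ?_ ?_ ?_
    · simp only [mem_insert, mem_erase]; grind
    · simp only [mem_insert, mem_erase]; grind
    · have := hl g
      simp only [mem_insert, mem_erase] at hg
      grind
    · ext g; simp only [mem_insert, mem_erase]; grind
    · ext g; simp only [mem_insert, mem_erase]; grind
    · refine (Conn.edge (mem_insert_self _ _) N.jx.symm).trans ((Conn.edge ?_ N.jy).trans
        (hpb.symm.mono fun g hg => ?_))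
      · simp only [mem_insert, mem_erase]; grind
      · simp only [mem_insert, mem_erase] at hg ⊢; grind
  have s5 : G.Step X Es r
      (insert f (insert z ((S.erase e).erase x)), insert x (insert e ((T.erase z).erase f)))
      (insert f (S.erase e), insert e (T.erase f)) := by
    refine step_of_st (e := z) (f := x) s4.2.1 h' hv ?_ (mem_insert_self _ _) N.jz.inc N.jx.inc
      (fun g hg hi => ?_) ?_ ?_
    · simp only [mem_insert, mem_erase]; grind
    · have := hvS g
      have := hvT g
      simp only [mem_insert, mem_erase] at hg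
      grind
    · ext g; simp only [mem_insert, mem_erase]; grind
    · ext g; simp only [mem_insert, mem_erase]; grind
  exact s2.reach.trans (s3.swap.reach.trans (s4.reach.trans s5.reach))

/-- lifting a move of the new edge -/
theorem Node.zmove (N : G.Node Es v x y z a b c) (hv : v ≠ r) (hb : b ≠ r) (hab : a ≠ b)
    (h : G.St X Es (S, T)) (hx : x ∈ T) (hy : y ∈ S) (hz : z ∈ S) (hf : f ∈ T) (hfx : f ≠ x)
    (jf : G.Inc f b) (hl : ∀ g ∈ S, G.Inc g b → g = y) {S' T' : Finset E}
    (h' : G.St X Es (S', T')) (h1 : ∀ g, g ∈ S' ↔ g = x ∨ g = f ∨ (g ∈ S ∧ g ≠ y ∧ g ≠ z)) :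
    G.Reach X Es r (S, T) (S', T') := by
  have hxy := N.xy
  have hxz := N.xz
  have hyz := N.yz
  have dx := h.disj x
  have dy := h.disj y
  have dz := h.disj z
  have df := h.disj f
  simp only at dx dy dz df
  have hmx := N.jx.mem h.within N.hx
  have hmz := N.jz.mem h.within N.hz
  have hbc : c ≠ b := by
    rintro rfl
    exact hyz (hl z hz N.jz.inc').symm
  have hc : G.Conn ((S.erase z).erase y) a c := by
    rcases N.side h.fst (fun g hg => (h.cov g).2 (Or.inl hg)) (fun h2 => dx h2 hx) hmx.1 hmx.2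
      N.av with h2 | h2
    · exfalso
      refine hab (h2.symm.eq_of_isolated fun g hg hi => ?_)
      simp only [mem_erase] at hg
      exact hg.2.1 (hl g hg.2.2 hi)
    · rwa [erase_right_comm]
  have s1 := N.s23.vstep hv h.swap hx hz hy hc
  refine s1.swap.reach.trans (Step.reach ?_)
  have hxb : ¬ G.Inc x b := by
    rw [N.jx.inc_iff]
    have := N.bv
    grind
  refine step_of_st (e := y) (f := f) s1.2.1.swap h' hb ?_ ?_ N.jy.inc' jf (fun g hg hi => ?_) ?_ ?_
  · simp only [mem_insert, mem_erase]; grind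
  · simp only [mem_insert, mem_erase]; grind
  · have := hl g
    simp only [mem_insert, mem_erase] at hg
    grind
  · ext g; rw [h1]; simp only [mem_insert, mem_erase]; grind
  · ext g
    have := h1 g
    have := h'.cov g
    have := h'.disj g
    have := h.cov g
    have := h.disj g
    simp only [mem_insert, mem_erase] at *
    grind

theorem Node.lift_z (N : G.Node Es v x y z a b c) (hW : G.Within Es X) (hv : v ≠ r)
    (hside : a ≠ r → a ≠ b ∧ a ≠ c)
    (h : (G.map (ctr v b)).St (X.erase v) ((Es.erase x).erase y) (S, T))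
    (h' : (G.map (ctr v b)).St (X.erase v) ((Es.erase x).erase y)
      (insert f (S.erase z), insert z (T.erase f))) (hw : w ≠ r) (hz : z ∈ S) (hf : f ∈ T)
    (iz : (G.map (ctr v b)).Inc z w) (jf : (G.map (ctr v b)).Inc f w)
    (hl : ∀ g ∈ S, (G.map (ctr v b)).Inc g w → g = z) :
    G.Reach X Es r (up x y z (S, T)) (up x y z (insert f (S.erase z), insert z (T.erase f))) := by
  have hzT : z ∉ T := h.disj z hz
  have k := (N.up_st hW h).1
  have k' := (N.up_st hW h').1
  rw [up_of_not hzT] at k ⊢
  rw [up_of_snd (mem_insert_self _ _)] at k' ⊢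
  have hE : ∀ g, g ∈ S ∨ g ∈ T → g ∈ Es ∧ g ≠ x ∧ g ≠ y := by
    intro g hg
    have := (h.cov g).2 hg
    simp only [mem_erase] at this
    tauto
  have hfz : f ≠ z := by rintro rfl; exact hzT hf
  have hf' := hE f (Or.inr hf)
  have jf' : G.Inc f w := (N.inc_iff hf'.1 hf'.2.1 hf'.2.2 hfz).1 jf
  have hbc : b ≠ c := h.fst.acyc.ne hz N.jz'
  have hl' : ∀ g ∈ S, G.Inc g w → g = z := by
    intro g hg hi
    by_contra hgz
    have := hE g (Or.inl hg)
    exact hgz (hl g hg ((N.inc_iff this.1 this.2.1 this.2.2 hgz).2 hi))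
  have hxy := N.xy
  have hyz := N.yz
  have hyS : y ∉ S := fun h => (hE y (Or.inl h)).2.2 rfl
  rcases N.jz'.inc_iff.1 iz with rfl | rfl
  · refine N.zmove hv hw (by grind) k (mem_insert_self _ _) (mem_insert_self _ _)
      (mem_insert_of_mem hz) (mem_insert_of_mem hf) hf'.2.1 jf' (fun g hg hi => ?_) k' fun g => ?_
    · rcases mem_insert.1 hg with rfl | hg
      · rfl
      · have h1 := hl' g hg hi
        subst h1
        have := N.jz.inc_iff.1 hi
        have := N.bv
        grind
    · simp only [mem_insert, mem_erase]; grind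
  · refine N.s23.zmove hv hw (by grind) k (mem_insert_self _ _) (mem_insert_of_mem hz)
      (mem_insert_self _ _) (mem_insert_of_mem hf) hf'.2.1 jf' (fun g hg hi => ?_) k' fun g => ?_
    · rcases mem_insert.1 hg with rfl | hg
      · have := N.jy.inc_iff.1 hi
        have := N.cv
        grind
      · exact hl' g hg hi
    · simp only [mem_insert, mem_erase]; grind

theorem Node.lift_lm (N : G.Node Es v x y z a b c) (hW : G.Within Es X) (hv : v ≠ r)
    (hside : a ≠ r → a ≠ b ∧ a ≠ c)
    (h : (G.map (ctr v b)).St (X.erase v) ((Es.erase x).erase y) p)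
    (h' : (G.map (ctr v b)).St (X.erase v) ((Es.erase x).erase y) q) (hw : w ≠ r)
    (hm : (G.map (ctr v b)).LM w p q) : G.Reach X Es r (up x y z p) (up x y z q) := by
  have hm' := hm.symm h.disj
  obtain ⟨S, T⟩ := p
  obtain ⟨S', T'⟩ := q
  obtain ⟨e, he, f, hf, ie, jf, hl, h1, h2⟩ := hm
  simp only at he hf hl h1 h2
  by_cases hez : e = z
  · subst hez h1 h2
    exact N.lift_z hW hv hside h h' hw he hf ie jf hl
  by_cases hfz : f = z
  · obtain ⟨e', he', f', hf', ie', jf', hl', h3, h4⟩ := hm'
    simp only at he' hf' hl' h3 h4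
    have h5 : f = e' := hl' f (by simp [h1]) jf
    rw [hfz] at h5
    subst h5 h3 h4
    exact (N.lift_z hW hv hside h' h hw he' hf' ie' jf' hl').symm
  have hE : ∀ g, g ∈ S ∨ g ∈ T → g ∈ Es ∧ g ≠ x ∧ g ≠ y := by
    intro g hg
    have := (h.cov g).2 hg
    simp only [mem_erase] at this
    tauto
  have he' := hE e (Or.inl he)
  have hf' := hE f (Or.inr hf)
  have ie' : G.Inc e w := (N.inc_iff he'.1 he'.2.1 he'.2.2 hez).1 ie
  have jf' : G.Inc f w := (N.inc_iff hf'.1 hf'.2.1 hf'.2.2 hfz).1 jf
  have hwv : w ≠ v := (mem_erase.1 (ie.mem h.fst.within he)).1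
  have hl' : ∀ g ∈ S, g ≠ z → G.Inc g w → g = e := by
    intro g hg hgz hi
    have := hE g (Or.inl hg)
    exact hl g hg ((N.inc_iff this.1 this.2.1 this.2.2 hgz).2 hi)
  have k := (N.up_st hW h).1
  have k' := (N.up_st hW h').1
  have hxS : x ∉ S := fun h => (hE x (Or.inl h)).2.1 rfl
  have hyS : y ∉ S := fun h => (hE y (Or.inl h)).2.2 rfl
  have hxT : x ∉ T := fun h => (hE x (Or.inr h)).2.1 rfl
  have hyT : y ∉ T := fun h => (hE y (Or.inr h)).2.2 rfl
  by_cases hz : z ∈ T
  · have hz' : z ∈ T' := by rw [h2]; simp only [mem_insert, mem_erase]; grind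
    have hzS : z ∉ S := fun h3 => h.disj z h3 hz
    rw [up_of_snd hz] at k ⊢
    rw [up_of_snd hz'] at k' ⊢
    have e1 : insert x S' = insert f ((insert x S).erase e) := by
      rw [h1]; ext g; simp only [mem_insert, mem_erase]; grind
    have e2 : insert y T' = insert e ((insert y T).erase f) := by
      rw [h2]; ext g; simp only [mem_insert, mem_erase]; grind
    by_cases hwa : w = a
    · subst hwa
      rw [e1, e2] at k' ⊢
      have hl2 : ∀ g ∈ insert x S, G.Inc g w → g = e ∨ g = x := by
        intro g hg hi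
        have := hl' g
        simp only [mem_insert] at hg
        grind
      have hm := N.jx.mem hW N.hx
      rcases N.side k.snd (fun g hg => (k.cov g).2 (Or.inr hg))
        (k.disj x (mem_insert_self _ _)) hm.1 hm.2 N.av with h3 | h3
      · exact N.amove hv hw (hside hw).1 (hside hw).2 k (mem_insert_self _ _)
          (mem_insert_self _ _) (mem_insert_of_mem hz) (mem_insert_of_mem he) he'.2.1
          (mem_insert_of_mem hf) ie' jf' hl2 k' h3
      · rw [erase_right_comm] at h3
        exact N.s23.amove hv hw (hside hw).2 (hside hw).1 k (mem_insert_self _ _)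
          (mem_insert_of_mem hz) (mem_insert_self _ _) (mem_insert_of_mem he) he'.2.1
          (mem_insert_of_mem hf) ie' jf' hl2 k' h3
    · refine (step_of_st k k' hw (mem_insert_of_mem he) (mem_insert_of_mem hf) ie' jf'
        (fun g hg hi => ?_) e1 e2).reach
      rcases mem_insert.1 hg with rfl | hg
      · have := N.jx.inc_iff.1 hi
        grind
      · exact hl' g hg (by rintro rfl; exact hzS hg) hi
  · have hz' : z ∉ T' := by rw [h2]; simp only [mem_insert, mem_erase]; grind
    have hzS : z ∈ S := by have := (h.cov z).1 N.z_mem; tauto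
    have hzw : ¬ (G.map (ctr v b)).Inc z w := fun hi => hez (hl z hzS hi).symm
    rw [N.jz'.inc_iff] at hzw
    rw [up_of_not hz] at k ⊢
    rw [up_of_not hz'] at k' ⊢
    refine (step_of_st k k' hw (mem_insert_of_mem he) (mem_insert_of_mem hf) ie' jf'
        (fun g hg hi => ?_) ?_ ?_).reach
    · rcases mem_insert.1 hg with rfl | hg
      · have := N.jy.inc_iff.1 hi
        grind
      · refine hl' g hg ?_ hi
        rintro rfl
        have := N.jz.inc_iff.1 hi
        grind
    · rw [h1]; ext g; simp only [mem_insert, mem_erase]; grind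
    · rw [h2]; ext g; simp only [mem_insert, mem_erase]; grind

theorem Node.lift_step (N : G.Node Es v x y z a b c) (hW : G.Within Es X) (hv : v ≠ r)
    (hside : a ≠ r → a ≠ b ∧ a ≠ c)
    (h : (G.map (ctr v b)).Step (X.erase v) ((Es.erase x).erase y) r p q) :
    G.Reach X Es r (up x y z p) (up x y z q) := by
  obtain ⟨h1, h2, w, hw, hm | hm⟩ := h
  · exact N.lift_lm hW hv hside h1 h2 hw hm
  · have := (N.lift_lm hW hv hside h1.swap h2.swap hw hm).swap
    rwa [N.up_swap h1, N.up_swap h2, Prod.swap_swap, Prod.swap_swap] at this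

theorem Node.lift (N : G.Node Es v x y z a b c) (hW : G.Within Es X) (hv : v ≠ r)
    (hside : a ≠ r → a ≠ b ∧ a ≠ c)
    (h : (G.map (ctr v b)).Reach (X.erase v) ((Es.erase x).erase y) r p q) :
    G.Reach X Es r (up x y z p) (up x y z q) := by
  induction h with
  | refl => exact Reach.refl _
  | tail _ h ih => exact ih.trans (N.lift_step hW hv hside h)

end Gr

end Pool.Agent.P.MP_3f5ce9_co
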