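import Pool.Agent.P.MP_3f5ce9_co.Flip

/-!
Leaf moves avoiding a root connect all pairs of disjoint spanning trees of a rooted sparse graph.
-/

open Finset

set_option linter.unusedSectionVars false

namespace Pool.Agent.P.MP_3f5ce9_co

namespace Gr

variable {V E : Type*} [DecidableEq V] [DecidableEq E]
variable {G : Gr V E} {X Y Z W : Finset V} {F S T Es U Φ : Finset E} {u w v a b c r : V}
  {e f x y z : E} {p q : Finset E × Finset E}

theorem Node.good {X : Finset V} (N : G.Node Es v x y z a b c) (hv : v ≠ r) (hr : r ∈ X)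
    (hs : G.Sp X Es r) (hp : G.St X Es p) :
    ∃ q, G.Reach X Es r p q ∧ ∃ x y z a b c, G.Node Es v x y z a b c ∧ Ty x y z q ∧
      (G.map (ctr v b)).Sp (X.erase v) ((Es.erase x).erase y) r ∧ (a ≠ r → a ≠ b ∧ a ≠ c) := by
  obtain ⟨q, hq, h | h⟩ := N.step (Φ := ∅) (flipProp X.card) (Nat.le_succ _) hv hr
    (by simpa using hs) hp
  · simp at h
  · obtain ⟨x, y, z, a, b, c, N, ht, -, -, h1, h2⟩ := h
    exact ⟨q, hq, x, y, z, a, b, c, N, ht, by simpa using h1, h2⟩

theorem Sp.erase (h : G.Sp X Es r) : G.Sp (X.erase v) ((Es.erase x).erase y) r := by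
  have := Node2.sp (Φ := ∅) (v := v) (x := x) (y := y) (by simpa using h)
  simpa using this

/-- some state has a given vertex as a leaf, attached by a given edge to the root -/
theorem exists_leaf (n : ℕ) : ∀ (G : Gr V E) (X : Finset V) (Es : Finset E) (r w : V) (e : E)
    (p : Finset E × Finset E), X.card ≤ n → e ∈ Es → G.Joins e w r → G.Sp X Es r → G.St X Es p →
    ∃ q, G.St X Es q ∧ e ∈ q.1 ∧ ∀ g ∈ q.1, G.Inc g w → g = e := by
  induction n with
  | zero =>
    intro G X Es r w e p hn he hj _ hp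
    have := card_pos.2 ⟨r, (hj.mem hp.within he).2⟩
    omega
  | succ n ih =>
    intro G X Es r w e p hn he hj hs hp
    have hm := hj.mem hp.within he
    have hwr : w ≠ r := hp.ne he hj
    by_cases hd : G.deg Es w ≤ 2
    · have key : ∀ p : Finset E × Finset E, G.St X Es p → e ∈ p.1 →
          ∀ g ∈ p.1, G.Inc g w → g = e := by
        intro p hp h1 g hg hi
        by_contra hge
        obtain ⟨f, hf, jf⟩ := hp.snd.exists_inc hm.1 hm.2 hwr.symm
        have h2 : {g, e, f} ⊆ Es.filter fun e => G.Inc e w := by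
          intro k hk
          have := hp.cov k
          have := hj.inc
          simp only [mem_insert, mem_singleton, mem_filter] at hk ⊢
          grind
        have h3 := card_le_card h2
        have := hp.disj f
        rw [card_insert_of_notMem (by simp only [mem_insert, mem_singleton]; grind),
          card_pair (by grind)] at h3
        unfold deg at hd
        omega
      rcases (hp.cov e).1 he with h | h
      · exact ⟨p, hp, h, key p hp h⟩
      · exact ⟨p.swap, hp.swap, h, key _ hp.swap h⟩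
    have hdr : 2 ≤ G.deg Es r := by
      obtain ⟨f, hf, jf⟩ := hp.fst.exists_inc hm.2 hm.1 hwr
      obtain ⟨g, hg, jg⟩ := hp.snd.exists_inc hm.2 hm.1 hwr
      have := hp.disj f
      rw [← card_pair (a := f) (b := g) (by grind)]
      refine card_le_card fun k hk => ?_
      have := hp.cov k
      simp only [mem_insert, mem_singleton, mem_filter] at hk ⊢
      grind
    obtain ⟨v, hv, hvR, hdv⟩ : ∃ v ∈ X, v ∉ ({w, r} : Finset V) ∧ G.deg Es v < 4 := by
      refine exists_low_deg (by intro g hg; simp only [mem_insert, mem_singleton] at hg; grind) ?_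
      have h1 := G.sum_deg_le Es {w, r}
      rw [sum_pair hwr] at h1
      rw [card_pair hwr]
      have := hp.card
      omega
    simp only [mem_insert, mem_singleton, not_or] at hvR
    have hn' : (X.erase v).card ≤ n := by rw [card_erase_of_mem hv]; omega
    have hev : ¬ G.Inc e v := by rw [hj.inc_iff]; tauto
    rcases hp.node hv hm.2 (Ne.symm hvR.2) hdv with ⟨x, y, a, b, N, hx, hy⟩ | ⟨x, y, z, a, b, c, N⟩
    · obtain ⟨S, T⟩ := p
      have hex : e ≠ x := by rintro rfl; exact hev N.jx.inc
      have hey : e ≠ y := by rintro rfl; exact hev N.jy.inc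
      obtain ⟨⟨S', T'⟩, h1, h2, h3⟩ := ih G _ _ r w e _ hn'
        (mem_erase.2 ⟨hey, mem_erase.2 ⟨hex, he⟩⟩) hj hs.erase (N.down hp hx hy)
      have mx := N.jx.mem hp.within N.hx
      have hab := hs.ne N.hx N.hy N.xy N.jx N.jy mx.1 mx.2 N.av hvR.2
      by_cases hwa : w = a
      · rw [erase_right_comm] at h1
        refine ⟨_, N.symm.up hp.within h1, mem_insert_of_mem h2, fun g hg hi => ?_⟩
        rcases mem_insert.1 hg with rfl | hg
        · have := N.jy.inc_iff.1 hi
          grind
        · exact h3 g hg hi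
      · refine ⟨_, N.up hp.within h1, mem_insert_of_mem h2, fun g hg hi => ?_⟩
        rcases mem_insert.1 hg with rfl | hg
        · have := N.jx.inc_iff.1 hi
          grind
        · exact h3 g hg hi
    · obtain ⟨q, hq, x, y, z, a, b, c, N, ht, hs', hside⟩ := N.good hvR.2 hm.2 hs hp
      have hex : e ≠ x := by rintro rfl; exact hev N.jx.inc
      have hey : e ≠ y := by rintro rfl; exact hev N.jy.inc
      have hez : e ≠ z := by rintro rfl; exact hev N.jz.inc
      obtain ⟨q', k1, -⟩ := N.down (hq.st hp) ht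
      have hj' : (G.map (ctr v b)).Joins e w r := by
        have := hj.map (ctr v b)
        rwa [ctr_of_ne (Ne.symm hvR.1), ctr_of_ne (Ne.symm hvR.2)] at this
      obtain ⟨⟨S', T'⟩, h1, h2, h3⟩ := ih _ _ _ r w e _ hn'
        (mem_erase.2 ⟨hey, mem_erase.2 ⟨hex, he⟩⟩) hj' hs' k1
      have k := (N.up_st hp.within h1).1
      have hE : ∀ g ∈ S', g ∈ Es ∧ g ≠ x ∧ g ≠ y := by
        intro g hg
        have := (h1.cov g).2 (Or.inl hg)
        simp only [mem_erase] at this
        tauto
      have hl' : ∀ g ∈ S', g ≠ z → G.Inc g w → g = e := by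
        intro g hg hgz hi
        have := hE g hg
        exact h3 g hg ((N.inc_iff this.1 this.2.1 this.2.2 hgz).2 hi)
      have i1 := N.jx.inc_iff (z := w)
      have i2 := N.jy.inc_iff (z := w)
      have i3 := N.jz.inc_iff (z := w)
      have i4 := N.jz'.inc_iff (z := w)
      simp only at h2 h3
      by_cases hz : z ∈ T'
      · have hzS : z ∉ S' := fun h => h1.disj z h hz
        rw [up_of_snd hz] at k
        by_cases hwa : w = a
        · rcases N.vmove hvR.2 k (mem_insert_self _ _) (mem_insert_self _ _)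
            (mem_insert_of_mem hz) with h4 | h4
          all_goals
            refine ⟨_, h4.2.1, by simp only [mem_insert, mem_erase]; grind, fun g hg hi => ?_⟩
            have := hl' g
            simp only [mem_insert, mem_erase] at hg
            grind
        · refine ⟨_, k, mem_insert_of_mem h2, fun g hg hi => ?_⟩
          have := hl' g
          simp only [mem_insert] at hg
          grind
      · rw [up_of_not hz] at k
        have hzS : z ∈ S' := by have := (h1.cov z).1 N.z_mem; tauto
        refine ⟨_, k, mem_insert_of_mem h2, fun g hg hi => ?_⟩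
        have := hl' g
        have := h3 z hzS
        simp only [mem_insert] at hg
        grind

/-- the map contracting `W` to `r` -/
def cw (W : Finset V) (r : V) : V → V := fun u => if u ∈ W then r else u

theorem cw_of_mem (h : u ∈ W) : cw W r u = r := by simp [cw, h]

theorem cw_of_not (h : u ∉ W) : cw W r u = u := by simp [cw, h]

theorem cw_mem (hu : u ∈ X) : cw W r u ∈ insert r (X \ W) := by
  unfold cw; split_ifs with h
  · exact mem_insert_self _ _
  · exact mem_insert_of_mem (mem_sdiff.2 ⟨hu, h⟩)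

theorem cw_fix (hr : r ∈ W) (hu : u ∈ insert r (X \ W)) : cw W r u = u := by
  rcases mem_insert.1 hu with rfl | hu
  · exact cw_of_mem hr
  · exact cw_of_not (mem_sdiff.1 hu).2

theorem card_cw (hW : W ⊆ X) (hr : r ∈ W) : (insert r (X \ W)).card + W.card = X.card + 1 := by
  rw [card_insert_of_notMem (by simp [hr])]
  have := card_sdiff_add_card_eq_card hW
  omega

theorem Tr.cw_down (h : G.Tr X F) (hW : W ⊆ X) (hr : r ∈ W)
    (hc : (G.ind F W).card + 1 = W.card) :
    (G.map (cw W r)).Tr (insert r (X \ W)) (F \ G.ind F W) := by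
  refine ⟨fun e he => ?_, fun u hu w hw => ?_, ?_⟩
  · have := h.within e (mem_sdiff.1 he).1
    exact ⟨cw_mem this.1, cw_mem this.2⟩
  · have hX : insert r (X \ W) ⊆ X := insert_subset (hW hr) sdiff_subset
    have h1 := (h.conn u (hX hu) w (hX hw)).map (cw W r)
    rw [cw_fix hr hu, cw_fix hr hw] at h1
    refine h1.of_spans fun e he => ?_
    by_cases hi : e ∈ G.ind F W
    · rw [mem_ind] at hi
      simp only [map_s, map_t, cw_of_mem hi.2.1, cw_of_mem hi.2.2]
      exact Conn.refl _ _ _
    · exact Conn.edge (mem_sdiff.2 ⟨he, hi⟩) (joins_st _ e)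
  · have := card_cw hW hr
    have := card_sdiff_add_card_eq_card (G.ind_subset F W)
    have := h.card
    omega

theorem Tr.cw_up {A B : Finset E} (hA : G.Tr W A)
    (hB : (G.map (cw W r)).Tr (insert r (X \ W)) B) (hBX : G.Within B X) (hW : W ⊆ X)
    (hr : r ∈ W) : G.Tr X (A ∪ B) := by
  have hd : Disjoint A B := by
    rw [disjoint_left]
    intro e h1 h2
    have := hA.within e h1
    refine hB.acyc.ne h2 (joins_st _ e) ?_
    simp only [map_s, map_t, cw_of_mem this.1, cw_of_mem this.2]
  refine ⟨fun e he => ?_, fun u hu w hw => ?_, ?_⟩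
  · rcases mem_union.1 he with he | he
    · exact ⟨hW (hA.within e he).1, hW (hA.within e he).2⟩
    · exact hBX e he
  · refine Conn.unmap hBX hu hw (fun p _ q _ hpq => ?_) subset_union_right
      (hB.conn _ (cw_mem hu) _ (cw_mem hw))
    unfold cw at hpq
    split_ifs at hpq with h1 h2 h2
    · exact (hA.conn p h1 q h2).mono subset_union_left
    · exact absurd (hpq ▸ hr) h2
    · exact absurd (hpq ▸ hr) h1
    · rw [hpq]; exact Conn.refl _ _ _
  · rw [card_union_of_disjoint hd]
    have := card_cw hW hr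
    have := hA.card
    have := hB.card
    omega

theorem Tr.restrict (h : G.Tr X F) (hW : W.Nonempty) (hc : W.card ≤ (G.ind F W).card + 1) :
    G.Tr W (G.ind F W) :=
  (h.acyc.mono (G.ind_subset F W)).tr (G.within_ind F W) hc hW

theorem St.tight (hp : G.St X Es p) (hW : W.Nonempty)
    (ht : 2 * W.card ≤ (G.ind Es W).card + 2) :
    (G.ind p.1 W).card + 1 = W.card ∧ (G.ind p.2 W).card + 1 = W.card := by
  have := hp.card_ind W
  have := hp.fst.acyc.card_ind hW
  have := hp.snd.acyc.card_ind hW
  omega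

theorem St.inner (hp : G.St X Es p) (hW : W.Nonempty)
    (ht : 2 * W.card ≤ (G.ind Es W).card + 2) :
    G.St W (G.ind Es W) (G.ind p.1 W, G.ind p.2 W) := by
  have := hp.tight hW ht
  refine ⟨hp.fst.restrict hW this.1.ge, hp.snd.restrict hW this.2.ge, fun e h1 h2 => ?_,
    fun e => ?_⟩
  · exact hp.disj e (mem_ind.1 h1).1 (mem_ind.1 h2).1
  · simp only [mem_ind, hp.cov e]
    tauto

theorem St.outer (hp : G.St X Es p) (hW : W ⊆ X) (hr : r ∈ W)
    (ht : 2 * W.card ≤ (G.ind Es W).card + 2) :
    (G.map (cw W r)).St (insert r (X \ W)) (Es \ G.ind Es W)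
      (p.1 \ G.ind p.1 W, p.2 \ G.ind p.2 W) := by
  have := hp.tight ⟨r, hr⟩ ht
  refine ⟨hp.fst.cw_down hW hr this.1, hp.snd.cw_down hW hr this.2, fun e h1 h2 => ?_,
    fun e => ?_⟩
  · exact hp.disj e (mem_sdiff.1 h1).1 (mem_sdiff.1 h2).1
  · simp only [mem_sdiff, mem_ind, hp.cov e]
    tauto

theorem St.combine {α β : Finset E × Finset E} (hE : G.Within Es X) (hW : W ⊆ X) (hr : r ∈ W)
    (hα : G.St W (G.ind Es W) α)
    (hβ : (G.map (cw W r)).St (insert r (X \ W)) (Es \ G.ind Es W) β) :
    G.St X Es (α.1 ∪ β.1, α.2 ∪ β.2) := by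
  refine ⟨hα.fst.cw_up hβ.fst (hE.mono fun e he => ?_) hW hr,
    hα.snd.cw_up hβ.snd (hE.mono fun e he => ?_) hW hr, fun e => ?_, fun e => ?_⟩
  · exact (mem_sdiff.1 ((hβ.cov e).2 (Or.inl he))).1
  · exact (mem_sdiff.1 ((hβ.cov e).2 (Or.inr he))).1
  all_goals
    have := hα.cov e
    have := hβ.cov e
    have := hα.disj e
    have := hβ.disj e
    have := G.ind_subset Es W (x := e)
    simp only [mem_union, mem_sdiff] at *
    grind

theorem sp_cw (hp : G.St X Es p) (hs : G.Sp X Es r) (hW : W ⊆ X) (hr : r ∈ W)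
    (ht : 2 * W.card ≤ (G.ind Es W).card + 2) (hv : v ∈ X) (hvW : v ∉ W)
    (hmax : ∀ Y ⊆ X, r ∈ Y → Y ≠ X → 2 * Y.card ≤ (G.ind Es Y).card + 2 → Y.card ≤ W.card) :
    (G.map (cw W r)).Sp (insert r (X \ W)) (Es \ G.ind Es W) v := by
  intro Y hY hvY h2
  have hX : insert r (X \ W) ⊆ X := insert_subset (hW hr) sdiff_subset
  by_cases hrY : r ∈ Y
  · have h1 : (Y ∪ W).card + 1 = Y.card + W.card := by
      rw [← card_union_add_card_inter]
      congr 1
      symm
      rw [card_eq_one]
      refine ⟨r, ?_⟩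
      ext g
      have := @hY g
      simp only [mem_inter, mem_singleton, mem_insert, mem_sdiff] at *
      grind
    have h3 := hmax (Y ∪ W) (union_subset (hY.trans hX) hW) (mem_union_left _ hrY)
      (by rintro h; rw [← h] at hv; simp [hvY, hvW] at hv)
    have h4 : (G.map (cw W r)).ind (Es \ G.ind Es W) Y ∪ G.ind Es W ⊆ G.ind Es (Y ∪ W) := by
      intro g hg
      simp only [mem_union, mem_ind, mem_sdiff, map_s, map_t, cw] at hg ⊢
      grind
    have h5 := card_le_card h4
    rw [card_union_of_disjoint (disjoint_left.2 fun g h1 h2 =>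
      (mem_sdiff.1 (mem_ind.1 h1).1).2 h2)] at h5
    have h6 := hp.sparse (Y := Y ∪ W) ⟨r, mem_union_left _ hrY⟩
    omega
  · refine le_trans (Nat.add_le_add_right (card_le_card fun g hg => ?_) _)
      (hs Y (hY.trans hX) hrY h2)
    simp only [mem_ind, mem_sdiff, map_s, map_t, cw] at hg ⊢
    grind

theorem Node.link (N : G.Node Es v x y z a b c) (hp : G.St X Es p) (hs : G.Sp X Es r)
    (hW : W ⊆ X) (hr : r ∈ W) (ht : 2 * W.card ≤ (G.ind Es W).card + 2) (hvW : v ∉ W)
    (hmax : ∀ Y ⊆ X, r ∈ Y → Y ≠ X → 2 * Y.card ≤ (G.ind Es Y).card + 2 → Y.card ≤ W.card) :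
    ∃ α β, G.Step X Es r α β ∧ Ty x y z α ∧ Ty z x y β := by
  have hE := hp.within
  have mx := N.jx.mem hE N.hx
  have my := N.jy.mem hE N.hy
  have mz := N.jz.mem hE N.hz
  have hvr : v ≠ r := by rintro rfl; exact hvW hr
  have two : ∀ {x y z a b c}, G.Node Es v x y z a b c → cw W r a ≠ cw W r b := by
    intro x y z a b c N hab
    have mx := N.jx.mem hE N.hx
    by_cases h1 : a ∈ W ∧ b ∈ W
    · by_cases h2 : c ∈ W
      · have h3 := N.card_insert N.hx N.hy N.hz hvW h1.1 h1.2 h2
        have h4 := hp.sparse (Y := insert v W) ⟨v, mem_insert_self _ _⟩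
        rw [card_insert_of_notMem hvW] at h4
        omega
      · have h3 := hmax (insert v W) (insert_subset mx.1 hW) (mem_insert_of_mem hr) (by
          intro h
          have h8 := (N.jz.mem hE N.hz).2
          rw [← h, mem_insert] at h8
          exact h8.elim N.cv h2)
        have h4 : insert x (insert y (G.ind Es W)) ⊆ G.ind Es (insert v W) := by
          intro g hg
          simp only [mem_insert] at hg
          rcases hg with rfl | rfl | hg
          · rw [N.jx.mem_ind]; simp [N.hx, h1.1]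
          · rw [N.jy.mem_ind]; simp [N.hy, h1.2]
          · exact ind_mono Subset.rfl (subset_insert _ _) hg
        have h5 := card_le_card h4
        have h6 : x ∉ G.ind Es W := by rw [N.jx.mem_ind]; tauto
        have h7 : y ∉ G.ind Es W := by rw [N.jy.mem_ind]; tauto
        have := N.xy
        rw [card_insert_of_notMem (by simp only [mem_insert]; tauto),
          card_insert_of_notMem h7] at h5
        rw [card_insert_of_notMem hvW] at h3
        omega
    · have := hs.ne N.hx N.hy N.xy N.jx N.jy mx.1 mx.2 N.av hvr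
      unfold cw at hab
      grind
  have hy' : y ∈ Es \ G.ind Es W := mem_sdiff.2 ⟨N.hy, by rw [N.jy.mem_ind]; tauto⟩
  have hj' : (G.map (cw W r)).Joins y (cw W r b) v := by
    have := N.jy.symm.map (cw W r)
    rwa [cw_of_not hvW] at this
  obtain ⟨q, hq, hq1, hq2⟩ := exists_leaf _ _ _ _ v _ y _ le_rfl hy' hj'
    (sp_cw hp hs hW hr ht mx.1 hvW hmax) (hp.outer hW hr ht)
  have hα := St.combine hE hW hr (hp.inner ⟨r, hr⟩ ht) hq
  set α := ((G.ind p.1 W, G.ind p.2 W).1 ∪ q.1, (G.ind p.1 W, G.ind p.2 W).2 ∪ q.2) with hαd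
  have hyα : y ∈ α.1 := mem_union_right _ hq1
  have hcl : ∀ g ∈ α.1, g ≠ y → (cw W r (G.s g) = cw W r b ↔ cw W r (G.t g) = cw W r b) := by
    intro g hg hgy
    rcases mem_union.1 hg with hg | hg
    · rw [mem_ind] at hg
      rw [cw_of_mem hg.2.1, cw_of_mem hg.2.2]
    · have := hq2 g hg
      simp only [Inc, map_s, map_t] at this
      tauto
  have hab : cw W r a ≠ cw W r b := two N
  have hcb : cw W r c ≠ cw W r b := two N.s12.s23.s12
  have hvb : cw W r v ≠ cw W r b := by
    have := hq.ne hy' hj'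
    rw [cw_of_not hvW]
    exact this.symm
  have dy := hα.disj y hyα
  have cut : ∀ β : Finset E × Finset E, G.St X Es β → y ∉ β.1 →
      (∀ g ∈ β.1, g ∈ α.1 ∨ g = x ∨ g = z) → False := by
    intro β hβ h1 h2
    have := hβ.fst.conn b my.2 v mx.1 {u | cw W r u = cw W r b} (by
      intro g hg
      simp only [Set.mem_ofPred_eq]
      rcases h2 g hg with h3 | rfl | rfl
      · exact hcl g h3 (by rintro rfl; exact h1 hg)
      · rcases N.jx with ⟨h3, h4⟩ | ⟨h3, h4⟩ <;> simp [h3, h4, hab, hvb]
      · rcases N.jz with ⟨h3, h4⟩ | ⟨h3, h4⟩ <;> simp [h3, h4, hcb, hvb])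
    simp [hvb] at this
  rcases N.cases hα with h | h | h
  · rcases N.vmove' hvr hα h with ⟨β, h1, h2, h3⟩ | ⟨β, h1, h2, -⟩
    · exfalso
      have fl := Ty.flip hα h1.2.1 h h2 (h3 z N.xz.symm N.yz.symm)
      refine cut β h1.2.1 (by tauto) fun g hg => ?_
      have := h3 g
      have : g ≠ y := by rintro rfl; tauto
      tauto
    · exact ⟨α, β, h1, h, h2⟩
  · exfalso
    have h1 : x ∈ α.2 ∧ z ∈ α.2 := by unfold Ty at h; tauto
    have := hα.fst.conn v mx.1 a mx.2 {u | u = v ∨ cw W r u = cw W r b} (by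
      intro g hg
      simp only [Set.mem_ofPred_eq]
      by_cases hgy : g = y
      · subst hgy
        rcases N.jy with ⟨h3, h4⟩ | ⟨h3, h4⟩ <;> simp [h3, h4]
      · have h2 := hcl g hg hgy
        have h3 := N.all g ((hα.cov g).2 (Or.inl hg))
        have h4 := hα.disj g hg
        unfold Inc at h3
        grind)
    have := N.av
    simp_all
  · rcases N.s23.s12.vmove' hvr hα h with ⟨β, h1, h2, -⟩ | ⟨β, h1, h2, h3⟩
    · exact ⟨β, α, h1.symm, h2.s23, h⟩
    · exfalso
      have fl := Ty.flip hα h1.2.1 h.s23 h2 (h3 x N.xz N.xy)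
      refine cut β h1.2.1 (by tauto) fun g hg => ?_
      have := h3 g
      have : g ≠ y := by rintro rfl; tauto
      tauto

theorem reach_all (n : ℕ) : ∀ (G : Gr V E) (X : Finset V) (Es : Finset E) (r : V)
    (p q : Finset E × Finset E), X.card ≤ n → r ∈ X → G.Sp X Es r → G.St X Es p → G.St X Es q →
    G.Reach X Es r p q := by
  classical
  induction n with
  | zero =>
    intro G X Es r p q hn hr
    have := card_pos.2 ⟨r, hr⟩
    omega
  | succ n ih =>
    intro G X Es r p q hn hr hs hp hq
    by_cases hX : X.card ≤ 1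
    · have h1 := hp.fst.card
      have h2 := hp.snd.card
      have h3 := hq.fst.card
      have h4 := hq.snd.card
      have : p = q := Prod.ext
        ((card_eq_zero.1 (by omega)).trans (card_eq_zero.1 (by omega)).symm)
        ((card_eq_zero.1 (by omega)).trans (card_eq_zero.1 (by omega)).symm)
      rw [this]
      exact Reach.refl _
    obtain ⟨W, hW, hmax⟩ := exists_max_image (X.powerset.filter fun Y => r ∈ Y ∧ Y ≠ X ∧
      2 * Y.card ≤ (G.ind Es Y).card + 2) card ⟨{r}, by
        simp only [mem_filter, mem_powerset, singleton_subset_iff, mem_singleton, card_singleton]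
        refine ⟨hr, trivial, ?_, by omega⟩
        rintro rfl
        simp at hX⟩
    simp only [mem_filter, mem_powerset] at hW hmax
    obtain ⟨hW, hrW, hWX, ht⟩ := hW
    obtain ⟨v, hv, hvW, hd⟩ := hp.exists_low hW hrW hWX ht
    have hvr : v ≠ r := by rintro rfl; exact hvW hrW
    have hn' : (X.erase v).card ≤ n := by rw [card_erase_of_mem hv]; omega
    have hr' : r ∈ X.erase v := mem_erase.2 ⟨hvr.symm, hr⟩
    have hE := hp.within
    rcases hp.node hv hr hvr.symm hd with ⟨x, y, a, b, N, hx, hy⟩ | ⟨x, y, z, a, b, c, N⟩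
    · obtain ⟨S, T⟩ := p
      have mx := N.jx.mem hE N.hx
      have hab := hs.ne N.hx N.hy N.xy N.jx N.jy mx.1 mx.2 N.av hvr
      have key : ∀ S' T', G.St X Es (S', T') → x ∈ S' → y ∈ T' → G.Reach X Es r (S, T) (S', T') := by
        intro S' T' h' hx' hy'
        have := N.lift hE hvr hab (ih G _ _ r _ _ hn' hr' hs.erase (N.down hp hx hy)
          (N.down h' hx' hy'))
        simpa only [insert_erase hx, insert_erase hy, insert_erase hx', insert_erase hy']
          using this
      obtain ⟨S', T'⟩ := q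
      rcases N.cases hq with ⟨h1, h2⟩ | ⟨h1, h2⟩
      · exact key _ _ hq h1 h2
      · have h3 := N.symm.vmove hE hvr (N.symm.down hq h1 h2)
        rw [insert_erase h1, insert_erase h2] at h3
        exact (key _ _ h3.2.1 (mem_insert_self _ _) (mem_insert_self _ _)).trans h3.symm.reach
    · obtain ⟨p1, hp1, x1, y1, z1, a1, b1, c1, N1, t1, s1, d1⟩ := N.good hvr hr hs hp
      obtain ⟨q1, hq1, x2, y2, z2, a2, b2, c2, N2, t2, s2, d2⟩ := N.good hvr hr hs hq
      have all : ∀ {x y z a b c}, G.Node Es v x y z a b c →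
          (G.map (ctr v b)).Sp (X.erase v) ((Es.erase x).erase y) r → (a ≠ r → a ≠ b ∧ a ≠ c) →
          ∀ α β, G.St X Es α → G.St X Es β → Ty x y z α → Ty x y z β → G.Reach X Es r α β := by
        intro x y z a b c N hs' hside α β hα hβ tα tβ
        obtain ⟨α', h1, rfl⟩ := N.down hα tα
        obtain ⟨β', h2, rfl⟩ := N.down hβ tβ
        exact N.lift hE hvr hside (ih _ _ _ r _ _ hn' hr' hs' h1 h2)
      have A1 := all N1 s1 d1
      have A2 := all N2 s2 d2
      refine hp1.trans (Reach.trans ?_ hq1.symm)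
      have e1 := N1.all x2 N2.hx N2.jx.inc
      have e2 := N1.all y2 N2.hy N2.jy.inc
      have e3 := N1.all z2 N2.hz N2.jz.inc
      have n1 := N2.xy
      have n2 := N2.xz
      have n3 := N2.yz
      have hmax' : ∀ Y ⊆ X, r ∈ Y → Y ≠ X → 2 * Y.card ≤ (G.ind Es Y).card + 2 →
          Y.card ≤ W.card := fun Y h1 h2 h3 h4 => hmax Y ⟨h1, h2, h3, h4⟩
      rcases e1 with rfl | rfl | rfl
      · refine A1 _ _ (hp1.st hp) (hq1.st hq) t1 ?_
        unfold Ty at *
        grind
      · obtain ⟨α, β, h1, h2, h3⟩ := N1.s23.link hp hs hW hrW ht hvW hmax'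
        refine (A1 _ _ (hp1.st hp) h1.1 t1 h2.s23).trans
          (h1.reach.trans (A2 _ _ h1.2.1 (hq1.st hq) ?_ t2))
        unfold Ty at *
        grind
      · obtain ⟨α, β, h1, h2, h3⟩ := N1.link hp hs hW hrW ht hvW hmax'
        refine (A1 _ _ (hp1.st hp) h1.1 t1 h2).trans
          (h1.reach.trans (A2 _ _ h1.2.1 (hq1.st hq) ?_ t2))
        unfold Ty at *
        grind

end Gr

end Pool.Agent.P.MP_3f5ce9_co
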