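import Pool.Agent.P.MP_3f5ce9_co.Split

/-!
Sequences of spanning trees with repeated edges, complements, and reorderings.
-/

open Finset

set_option linter.unusedSectionVars false

namespace Pool.Agent.P.MP_3f5ce9_co

variable {V E ι : Type*} [DecidableEq V] [DecidableEq E] [DecidableEq ι]

/-- a unique exchange from position `i` to position `j` -/
def UAt (B : Finset E → Prop) (i j : ι) (P Q : ι → Finset E) : Prop :=
  ∃ x y : E, x ∈ P i ∧ y ∈ P j ∧
    (∀ z ∈ P j, (B (insert z ((P i).erase x)) ∧ B (insert x ((P j).erase z))) ↔ z = y) ∧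
    Q = Function.update (Function.update P i (insert y ((P i).erase x))) j
      (insert x ((P j).erase y))

/-- a unique exchange between two different positions -/
def UAny (B : Finset E → Prop) (P Q : ι → Finset E) : Prop := ∃ i j : ι, i ≠ j ∧ UAt B i j P Q

theorem rt_lift {α β : Type*} {r : α → α → Prop} {p : β → β → Prop} (f : α → β) {a b : α}
    (hab : Relation.ReflTransGen r a b)
    (h : ∀ a b, r a b → Relation.ReflTransGen p (f a) (f b)) :
    Relation.ReflTransGen p (f a) (f b) := by
  induction hab with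
  | refl => exact Relation.ReflTransGen.refl
  | tail _ h1 ih => exact ih.trans (h _ _ h1)

namespace Gr

/-- every edge is repeated -/
def dup (G : Gr V E) (ι : Type*) : Gr V (E × ι) := ⟨fun p => G.s p.1, fun p => G.t p.1⟩

variable {G : Gr V E} {X : Finset V} {F : Finset (E × ι)} {u w : V}

theorem dup_conn : (G.dup ι).Conn F u w ↔ G.Conn (F.image Prod.fst) u w := by
  have : ∀ Y, (G.dup ι).Closed F Y ↔ G.Closed (F.image Prod.fst) Y := fun Y => by
    simp only [Closed, forall_mem_image, dup]
  simp only [Conn, this]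

theorem dup_within : (G.dup ι).Within F X ↔ G.Within (F.image Prod.fst) X := by
  simp only [Within, forall_mem_image, dup]

theorem Tr.undup (h : (G.dup ι).Tr X F) : G.Tr X (F.image Prod.fst) := by
  have h1 : ∀ u ∈ X, ∀ w ∈ X, G.Conn (F.image Prod.fst) u w :=
    fun u hu w hw => dup_conn.1 (h.conn u hu w hw)
  have h2 := card_le_of_conn _ G _ X rfl (dup_within.1 h.within) h1
  have h3 := card_image_le (s := F) (f := Prod.fst)
  have h4 := h.card
  exact ⟨dup_within.1 h.within, h1, by omega⟩

theorem Tr.dup (h : G.Tr X (F.image Prod.fst)) (hc : F.card + 1 = X.card) : (G.dup ι).Tr X F :=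
  ⟨dup_within.2 h.within, fun u hu w hw => dup_conn.2 (h.conn u hu w hw), hc⟩

theorem Tr.injOn (h : (G.dup ι).Tr X F) : Set.InjOn Prod.fst (F : Set (E × ι)) := by
  rw [← card_image_iff]
  have := h.card
  have := h.undup.card
  omega

theorem image_swap (h : Set.InjOn Prod.fst (F : Set (E × ι))) {e : E × ι} (he : e ∈ F)
    (f : E × ι) : (insert f (F.erase e)).image Prod.fst = insert f.1 ((F.image Prod.fst).erase e.1) := by
  rw [image_insert]
  congr 1
  ext a
  simp only [mem_image, mem_erase]
  constructor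
  · rintro ⟨b, ⟨h1, h2⟩, rfl⟩
    exact ⟨fun h3 => h1 (h h2 he h3), b, h2, rfl⟩
  · rintro ⟨h1, b, h2, rfl⟩
    exact ⟨b, ⟨fun h3 => h1 (by rw [h3]), h2⟩, rfl⟩

theorem UX.uat {Es : Finset (E × ι)} {p q : Finset (E × ι) × Finset (E × ι)}
    (hp : (G.dup ι).St X Es p) (hq : (G.dup ι).St X Es q) (h : (G.dup ι).UX X Es p q)
    {i j : ι} {P : ι → Finset E} (hi : P i = p.1.image Prod.fst) (hj : P j = p.2.image Prod.fst) :
    UAt (G.Tr X) i j P (Function.update (Function.update P i (q.1.image Prod.fst)) j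
      (q.2.image Prod.fst)) := by
  obtain ⟨e, he, f, hf, rfl, hu⟩ := h
  have i1 := hp.fst.injOn
  have i2 := hp.snd.injOn
  refine ⟨e.1, f.1, hi ▸ mem_image_of_mem _ he, hj ▸ mem_image_of_mem _ hf, fun z hz => ?_, ?_⟩
  · rw [hj] at hz
    obtain ⟨g, hg, rfl⟩ := mem_image.1 hz
    rw [hi, hj]
    constructor
    · rintro ⟨h1, h2⟩
      rw [← image_swap i1 he] at h1
      rw [← image_swap i2 hg] at h2
      have c1 := hp.fst.card
      have c2 := hp.snd.card
      have c3 := card_pos.2 ⟨e, he⟩
      have c4 := card_pos.2 ⟨g, hg⟩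
      have d := hp.disj
      rw [hu g hg ⟨h1.dup ?_, h2.dup ?_, fun a => ?_, fun a => ?_⟩]
      · rw [card_insert_of_notMem (fun h => d g (mem_of_mem_erase h) hg), card_erase_of_mem he]
        omega
      · rw [card_insert_of_notMem (fun h => d e he (mem_of_mem_erase h)), card_erase_of_mem hg]
        omega
      · simp only [mem_insert, mem_erase]
        grind
      · rw [hp.cov a]
        simp only [mem_insert, mem_erase]
        grind
    · intro h
      have h1 := hq.fst.undup
      have h2 := hq.snd.undup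
      simp only at h1 h2
      rw [image_swap i1 he] at h1
      rw [image_swap i2 hf] at h2
      rw [h]
      exact ⟨h1, h2⟩
  · simp only
    rw [image_swap i1 he, image_swap i2 hf, hi, hj]

theorem RS.uany [Nontrivial ι] {Es : Finset (E × ι)} {I : Finset ι} (hI : ∀ i, i ∈ I)
    {P Q : ι → Finset (E × ι)} (h : (G.dup ι).RS X Es I P Q) :
    Relation.ReflTransGen (UAny (G.Tr X)) (fun l => (P l).image Prod.fst)
      (fun l => (Q l).image Prod.fst) := by
  obtain ⟨hP, hQ, i, -, j0, -, h0⟩ := h
  obtain ⟨j, hij, h1⟩ : ∃ j, i ≠ j ∧ ∀ l, l ≠ i → l ≠ j → P l = Q l := by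
    by_cases h : i = j0
    · obtain ⟨j, hj⟩ := exists_ne i
      exact ⟨j, hj.symm, fun l a _ => h0 l a (h ▸ a)⟩
    · exact ⟨j0, h, h0⟩
  have s1 : (G.dup ι).St X (P i ∪ P j) (P i, P j) :=
    ⟨hP.tr i (hI i), hP.tr j (hI j), fun e a b => hij (hP.disj i (hI i) j (hI j) e a b),
      fun e => mem_union⟩
  have s2 : (G.dup ι).St X (P i ∪ P j) (Q i, Q j) := by
    refine ⟨hQ.tr i (hI i), hQ.tr j (hI j), fun e a b => hij (hQ.disj i (hI i) j (hI j) e a b),
      fun e => ?_⟩
    simp only [mem_union]
    constructor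
    · intro he
      obtain ⟨l, -, hl⟩ := (hQ.cov e).1 ((hP.cov e).2 (he.elim (fun a => ⟨i, hI i, a⟩)
        (fun a => ⟨j, hI j, a⟩)))
      by_cases a : l = i
      · exact Or.inl (a ▸ hl)
      by_cases b : l = j
      · exact Or.inr (b ▸ hl)
      rw [← h1 l a b] at hl
      exact (he.elim (fun c => a (hP.disj l (hI l) i (hI i) e hl c))
        (fun c => b (hP.disj l (hI l) j (hI j) e hl c))).elim
    · intro he
      obtain ⟨l, -, hl⟩ := (hP.cov e).1 ((hQ.cov e).2 (he.elim (fun a => ⟨i, hI i, a⟩)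
        (fun a => ⟨j, hI j, a⟩)))
      by_cases a : l = i
      · exact Or.inl (a ▸ hl)
      by_cases b : l = j
      · exact Or.inr (b ▸ hl)
      rw [h1 l a b] at hl
      exact (he.elim (fun c => a (hQ.disj l (hI l) i (hI i) e hl c))
        (fun c => b (hQ.disj l (hI l) j (hI j) e hl c))).elim
  let φ : Finset (E × ι) × Finset (E × ι) → ι → Finset E := fun p =>
    Function.update (Function.update (fun l => (P l).image Prod.fst) i (p.1.image Prod.fst)) j
      (p.2.image Prod.fst)
  have f1 : ∀ p, φ p i = p.1.image Prod.fst := fun p => by simp [φ, hij]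
  have f2 : ∀ p, φ p j = p.2.image Prod.fst := fun p => by simp [φ]
  have f3 : ∀ p l, l ≠ i → l ≠ j → φ p l = (P l).image Prod.fst := fun p l a b => by simp [φ, a, b]
  have := rt_lift (p := UAny (G.Tr X)) φ (ureach_all _ _ X _ _ _ le_rfl s1 s2) (fun p q h => by
    refine Relation.ReflTransGen.single ?_
    obtain ⟨hp, hq, h | h⟩ := h
    · refine ⟨i, j, hij, ?_⟩
      convert h.uat hp hq (f1 p) (f2 p) using 1
      funext l
      by_cases b : l = j
      · simp [b, f2]
      by_cases a : l = i
      · simp [a, hij, f1]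
      · simp [a, b, f3]
    · refine ⟨j, i, hij.symm, ?_⟩
      convert h.uat hp.swap hq.swap (f2 p) (f1 p) using 1
      funext l
      by_cases a : l = i
      · simp [a, f1]
      by_cases b : l = j
      · simp [b, hij.symm, f2]
      · simp [a, b, f3])
  convert this using 1
  · funext l
    by_cases b : l = j
    · rw [b, f2]
    by_cases a : l = i
    · rw [a, f1]
    · rw [f3 _ l a b]
  · funext l
    by_cases b : l = j
    · rw [b, f2]
    by_cases a : l = i
    · rw [a, f1]
    · rw [f3 _ l a b, h1 l a b]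

theorem exists_bij' {A R : Finset ι} (h : A.card = R.card) : ∃ β : ι → ι, Set.BijOn β A R := by
  rcases R.eq_empty_or_nonempty with rfl | ⟨s, hs⟩
  · rw [card_empty, card_eq_zero] at h
    subst h
    exact ⟨id, by simp⟩
  · obtain ⟨β, h1, -⟩ := exists_bij h hs s
    exact ⟨β, h1⟩

theorem mst_of_bij [Fintype ι] {S T : ι → Finset E} (hT : ∀ i, G.Tr X (T i)) {β : E → ι → ι}
    (hβ : ∀ e, Set.BijOn (β e) (univ.filter fun i => e ∈ T i) (univ.filter fun i => e ∈ S i)) :
    (G.dup ι).MSt X (univ.biUnion fun i => (S i).image fun e => (e, i)) univ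
      (fun i => (T i).image fun e => (e, β e i)) := by
  refine ⟨fun i _ => Tr.dup ?_ ?_, fun i _ j _ e h1 h2 => ?_, fun e => ?_⟩
  · rw [image_image]
    simpa [Function.comp_def] using hT i
  · rw [card_image_of_injective _ fun a b h => congrArg Prod.fst h]
    exact (hT i).card
  · obtain ⟨a, ha, rfl⟩ := mem_image.1 h1
    obtain ⟨b, hb, h⟩ := mem_image.1 h2
    obtain ⟨rfl, h⟩ := Prod.mk.inj h
    exact (hβ b).injOn (by simpa using ha) (by simpa using hb) h.symm
  · obtain ⟨a, k⟩ := e
    simp only [mem_biUnion, mem_univ, true_and, mem_image, Prod.mk.injEq]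
    constructor
    · rintro ⟨i, b, hb, rfl, rfl⟩
      obtain ⟨l, hl, h⟩ := (hβ b).surjOn (show i ∈ _ by simpa using hb)
      exact ⟨l, b, by simpa using hl, rfl, h⟩
    · rintro ⟨i, b, hb, rfl, rfl⟩
      exact ⟨_, b, by simpa using (hβ b).mapsTo (show i ∈ _ by simpa using hb), rfl, rfl⟩

theorem uany_tr [Fintype ι] [Nontrivial ι] {S T : ι → Finset E} (hS : ∀ i, G.Tr X (S i))
    (hT : ∀ i, G.Tr X (T i))
    (hc : ∀ e, (univ.filter fun i => e ∈ S i).card = (univ.filter fun i => e ∈ T i).card) :
    Relation.ReflTransGen (UAny (G.Tr X)) S T := by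
  choose β hβ using fun e => exists_bij' (hc e).symm
  have h1 := mst_of_bij (S := S) hS (β := fun _ i => i) fun e => Set.bijOn_id _
  have h2 := mst_of_bij hT hβ
  have h3 := mainProp _ _ _ _ _ _ _ le_rfl h1 h2 (by simp)
  have := rt_lift (p := UAny (G.Tr X))
    (fun (P : ι → Finset (E × ι)) l => (P l).image Prod.fst) h3 (fun p q h => h.uany mem_univ)
  simpa [image_image, Function.comp_def] using this

end Gr

end Pool.Agent.P.MP_3f5ce9_co
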