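import Pool.Agent.P.MP_3f5ce9_co.Many

/-!
Splitting off a matching at a vertex of low degree, and the main induction for several trees.
-/

open Finset

set_option linter.unusedSectionVars false

namespace Pool.Agent.P.MP_3f5ce9_co

namespace Gr

variable {V E ι : Type*} [DecidableEq V] [DecidableEq E] [DecidableEq ι]
variable {G : Gr V E} {X : Finset V} {F A B Es Z : Finset E} {u w v : V}
  {e f g : E} {I : Finset ι} {P Q D : ι → Finset E} {i j l : ι} {ρ : E → E}

/-- the other end of an edge at `v` -/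
def oth (G : Gr V E) (v : V) (e : E) : V := if G.s e = v then G.t e else G.s e

theorem Inc.joins_oth (h : G.Inc e v) : G.Joins e v (G.oth v e) := by
  unfold oth
  split_ifs with h1
  · exact Or.inl ⟨h1, rfl⟩
  · exact Or.inr ⟨rfl, h.resolve_left h1⟩

theorem Joins.eq_oth (h : G.Joins e v w) : w = G.oth v e := by
  unfold oth Joins at *
  grind

/-- the graph obtained by splitting off the pairs `z`, `ρ z` at `v` -/
def spl (G : Gr V E) (v : V) (Z : Finset E) (ρ : E → E) : Gr V E :=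
  ⟨fun e => if e ∈ Z then G.oth v (ρ e) else G.s e, fun e => if e ∈ Z then G.oth v e else G.t e⟩

theorem spl_of_not (h : e ∉ Z) : (G.spl v Z ρ).s e = G.s e ∧ (G.spl v Z ρ).t e = G.t e := by
  simp [spl, h]

theorem spl_of_mem (h : e ∈ Z) :
    (G.spl v Z ρ).s e = G.oth v (ρ e) ∧ (G.spl v Z ρ).t e = G.oth v e := by
  simp [spl, h]

/-- the edges not at `v` -/
def off (G : Gr V E) (v : V) (F : Finset E) : Finset E := F.filter fun e => ¬ G.Inc e v

theorem mem_off : e ∈ G.off v F ↔ e ∈ F ∧ ¬ G.Inc e v := mem_filter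

theorem card_off (G : Gr V E) (v : V) (F : Finset E) :
    G.deg F v + (G.off v F).card = F.card := card_filter_add_card_filter_not _

theorem Within.off (h : G.Within F X) : G.Within (G.off v F) (X.erase v) := by
  intro e he
  rw [mem_off] at he
  have := h e he.1
  unfold Inc at he
  simp only [mem_erase]
  tauto

theorem Tr.off_of_deg (h : G.Tr X A) (hd : G.deg A v = 1) : G.Tr (X.erase v) (G.off v A) := by
  obtain ⟨x, hx⟩ := card_eq_one.1 hd
  have h1 : ∀ g, g ∈ A ∧ G.Inc g v ↔ g = x := fun g => by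
    rw [← mem_singleton, ← hx, mem_filter]
  have h2 := (h1 x).2 rfl
  convert h.leaf_del h2.1 h2.2 fun g hg hi => (h1 g).1 ⟨hg, hi⟩ using 1
  ext g
  have := h1 g
  simp only [mem_off, mem_erase]
  tauto

theorem Tr.two_sides (h : G.Tr X A) (hd : G.deg A v = 2) (hv : v ∈ X) {p q : V}
    (hp : p ∈ X.erase v) (hq : q ∈ X.erase v) (hpq : ¬ G.Conn (G.off v A) p q)
    (hu : u ∈ X.erase v) : G.Conn (G.off v A) u p ∨ G.Conn (G.off v A) u q := by
  have key : ∀ u ∈ X.erase v, ∃ f ∈ A.filter fun g => G.Inc g v,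
      G.Conn (G.off v A) (G.oth v f) u := by
    intro u hu
    obtain ⟨f, hf, a, ha, hc⟩ := exists_first (h.conn v hv u (mem_of_mem_erase hu))
      (mem_erase.1 hu).1
    exact ⟨f, mem_filter.2 ⟨hf, ha.inc⟩, ha.eq_oth ▸ hc⟩
  obtain ⟨f1, h1, c1⟩ := key p hp
  obtain ⟨f2, h2, c2⟩ := key q hq
  obtain ⟨f3, h3, c3⟩ := key u hu
  have h12 : f1 ≠ f2 := by rintro rfl; exact hpq (c1.symm.trans c2)
  obtain ⟨x, y, -, hxy⟩ := card_eq_two.1 hd
  rw [hxy] at h1 h2 h3
  simp only [mem_insert, mem_singleton] at h1 h2 h3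
  have : f3 = f1 ∨ f3 = f2 := by grind
  rcases this with rfl | rfl
  · exact Or.inl (c3.symm.trans c1)
  · exact Or.inr (c3.symm.trans c2)

theorem MSt.oth_mem (h : G.MSt X Es I P) (he : e ∈ Es) (hi : G.Inc e v) :
    G.oth v e ∈ X.erase v :=
  mem_erase.2 ⟨(h.ne he hi.joins_oth).symm, (hi.joins_oth.mem h.within he).2⟩

theorem hall_of_bal (h : G.MSt X Es I P) (e0 : E) :
    ∃ f : ι → E → Bool, Hall (Es.filter fun e => G.Inc e v) (I.filter fun i => G.deg (P i) v = 2) f ∧
      ∀ i e e', f i e ≠ f i e' → ¬ G.Conn (G.off v (P i)) (G.oth v e) (G.oth v e') := by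
  classical
  have h1 : ∀ i, ∃ x y : E, G.deg (P i) v = 2 → x ≠ y ∧ (x ∈ P i ∧ G.Inc x v) ∧
      (y ∈ P i ∧ G.Inc y v) := by
    intro i
    by_cases hi : G.deg (P i) v = 2
    · obtain ⟨x, y, hxy, hP⟩ := card_eq_two.1 hi
      have hx : x ∈ (P i).filter (fun g => G.Inc g v) := by rw [hP]; simp
      have hy : y ∈ (P i).filter (fun g => G.Inc g v) := by rw [hP]; simp
      exact ⟨x, y, fun _ => ⟨hxy, mem_filter.1 hx, mem_filter.1 hy⟩⟩
    · exact ⟨e0, e0, fun h => absurd h hi⟩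
  choose x y m using h1
  refine ⟨fun i e => decide (G.Conn (G.off v (P i)) (G.oth v (x i)) (G.oth v e)),
    fun Q hQ => ?_, fun i e e' hne hc => hne ?_⟩
  · refine card_le_card_of_injOn (fun s => if s.2 then x s.1 else y s.1) ?_ ?_
    · rintro ⟨i, ε⟩ hs
      obtain ⟨hI, hi⟩ := mem_filter.1 (hQ _ hs)
      obtain ⟨hxy, ⟨m1, m2⟩, m3, m4⟩ := m i hi
      simp only [mem_coe, mem_nb, mem_filter]
      cases ε
      · refine ⟨⟨(h.cov _).2 ⟨i, hI, m3⟩, m4⟩, _, hs, ?_⟩
        simp only [Bool.false_eq_true, if_false, decide_eq_false_iff_not]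
        intro hc
        refine (h.tr i hI).acyc.not_conn m3 m4.joins_oth
          ((Conn.edge (mem_erase.2 ⟨hxy, m1⟩) m2.joins_oth).trans (hc.mono fun k hk => ?_))
        rw [mem_off] at hk
        refine mem_erase.2 ⟨?_, hk.1⟩
        rintro rfl
        exact hk.2 m4
      · refine ⟨⟨(h.cov _).2 ⟨i, hI, m1⟩, m2⟩, _, hs, ?_⟩
        simp only [if_true, decide_eq_true_eq]
        exact Conn.refl _ _ _
    · rintro ⟨i, ε⟩ hs ⟨j, ε'⟩ hs' heq
      obtain ⟨hI, hi⟩ := mem_filter.1 (hQ _ hs)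
      obtain ⟨hJ, hj⟩ := mem_filter.1 (hQ _ hs')
      obtain ⟨hxy, ⟨m1, -⟩, m3, -⟩ := m i hi
      obtain ⟨-, ⟨n1, -⟩, n3, -⟩ := m j hj
      have d := h.disj i hI j hJ
      have hij : i = j := by
        cases ε <;> cases ε' <;> simp only [Bool.false_eq_true, if_false, if_true] at heq
        · exact d _ m3 (heq ▸ n3)
        · exact d _ m3 (heq ▸ n1)
        · exact d _ m1 (heq ▸ n3)
        · exact d _ m1 (heq ▸ n1)
      subst hij
      cases ε <;> cases ε' <;> simp only [Bool.false_eq_true, if_false, if_true] at heq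
      · rfl
      · exact absurd heq.symm hxy
      · exact absurd heq hxy
      · rfl
  · rw [decide_eq_decide]
    exact ⟨fun h => h.trans hc, fun h => h.trans hc.symm⟩

theorem MSt.card_bal (h : G.MSt X Es I P) (hv : v ∈ X) (hu : u ∈ X) (huv : u ≠ v)
    (hb : ∀ i ∈ I, G.deg (P i) v ≤ 2) :
    G.deg Es v = I.card + (I.filter fun i => G.deg (P i) v = 2).card := by
  rw [MSt.deg h v, Finset.card_filter, card_eq_sum_ones I, ← sum_add_distrib]
  refine sum_congr rfl fun i hi => ?_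
  have := hb i hi
  have := (h.tr i hi).deg_pos hv hu huv
  split_ifs <;> omega

/-- `c` and `D` agree away from `v` -/
def Rel (G : Gr V E) (v : V) (I : Finset ι) (D c : ι → Finset E) : Prop :=
  (∀ i ∈ I, ∀ e, ¬ G.Inc e v → (e ∈ D i ↔ e ∈ c i)) ∧ ∀ l, l ∉ I → D l = c l

theorem proj (h : G.MSt X Es I P) (hv : v ∈ X) (hu : u ∈ X) (huv : u ≠ v)
    (hb : ∀ i ∈ I, G.deg (P i) v ≤ 2) (hZ : ∀ z ∈ Z, z ∈ Es ∧ G.Inc z v)
    (hρ : ∀ z ∈ Z, ρ z ∈ Es ∧ G.Inc (ρ z) v) {π : E → ι}
    (hπ : Set.BijOn π Z (I.filter fun i => G.deg (P i) v = 2))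
    (hs : ∀ z ∈ Z, ¬ G.Conn (G.off v (P (π z))) (G.oth v z) (G.oth v (ρ z))) :
    ∃ D, (G.spl v Z ρ).MSt (X.erase v) (G.off v Es ∪ Z) I D ∧ G.Rel v I D P := by
  have hoff : ∀ F, ∀ e ∈ G.off v F, e ∉ Z := fun F e he hz => (mem_off.1 he).2 (hZ e hz).2
  refine ⟨fun i => if i ∈ I then G.off v (P i) ∪ Z.filter (fun z => π z = i) else P i,
    ⟨fun i hi => ?_, fun i hi j hj e => ?_, fun e => ?_⟩, fun i hi e he => ?_, fun l hl => ?_⟩
  · simp only [if_pos hi]
    by_cases h2 : G.deg (P i) v = 2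
    · obtain ⟨z, hz, hzi⟩ := hπ.surjOn (mem_coe.2 (mem_filter.2 ⟨hi, h2⟩))
      have h3 : G.off v (P i) ∪ Z.filter (fun z => π z = i) = insert z (G.off v (P i)) := by
        ext g
        have := @hπ.2.1 g
        simp only [mem_union, mem_filter, mem_insert, mem_coe] at *
        grind
      rw [h3]
      have m1 := h.oth_mem (hZ z hz).1 (hZ z hz).2
      have m2 := h.oth_mem (hρ z hz).1 (hρ z hz).2
      have k := spl_of_mem (G := G) (v := v) (ρ := ρ) hz
      have key : ∀ w ∈ X.erase v, (G.spl v Z ρ).Conn (insert z (G.off v (P i))) w (G.oth v z) := by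
        intro w hw
        rcases (h.tr i hi).two_sides h2 hv m1 m2 (hzi ▸ hs z hz) hw with h4 | h4
        · exact (conn_congr (fun e he => spl_of_not (hoff _ e he)) h4).mono (subset_insert _ _)
        · exact ((conn_congr (fun e he => spl_of_not (hoff _ e he)) h4).mono
            (subset_insert _ _)).trans (Conn.edge (mem_insert_self _ _) (Or.inl k))
      refine ⟨fun g hg => ?_, fun u hu w hw => (key u hu).trans (key w hw).symm, ?_⟩
      · rcases mem_insert.1 hg with rfl | hg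
        · rw [k.1, k.2]; exact ⟨m2, m1⟩
        · rw [(spl_of_not (hoff _ g hg)).1, (spl_of_not (hoff _ g hg)).2]
          exact (h.tr i hi).within.off g hg
      · rw [card_insert_of_notMem (fun h => hoff _ z h hz), card_erase_of_mem hv]
        have := G.card_off v (P i)
        have := (h.tr i hi).card
        omega
    · have h3 : Z.filter (fun z => π z = i) = ∅ := by
        rw [filter_eq_empty_iff]
        intro z hz hzi
        have := hπ.mapsTo hz
        rw [hzi, mem_coe, mem_filter] at this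
        exact h2 this.2
      rw [h3, union_empty]
      have := hb i hi
      have := (h.tr i hi).deg_pos hv hu huv
      exact ((h.tr i hi).off_of_deg (by omega)).congr fun e he => spl_of_not (hoff _ e he)
  · have := h.disj i hi j hj e
    have := hZ e
    simp only [if_pos hi, if_pos hj, mem_union, mem_filter, mem_off]
    grind
  · simp only [mem_union, mem_off, h.cov e]
    constructor
    · rintro (⟨⟨i, hi, h1⟩, h2⟩ | h1)
      · exact ⟨i, hi, by simp [hi, mem_off, h1, h2]⟩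
      · have := (mem_filter.1 (mem_coe.1 (hπ.mapsTo h1))).1
        exact ⟨π e, this, by simp [this, h1]⟩
    · rintro ⟨i, hi, h1⟩
      simp only [if_pos hi, mem_union, mem_filter, mem_off] at h1
      grind
  · have := hZ e
    simp only [if_pos hi, mem_union, mem_filter, mem_off]
    tauto
  · simp only [if_neg hl]

theorem lift_class (hE : G.Within Es X) (hv : v ∈ X) (hZ : ∀ z ∈ Z, z ∈ Es ∧ G.Inc z v)
    (hρ : ∀ z ∈ Z, ρ z ∈ Es ∧ G.Inc (ρ z) v) (hA : (G.spl v Z ρ).Tr (X.erase v) A)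
    (hAE : A ⊆ G.off v Es ∪ Z) (hne : (A ∩ Z).Nonempty) :
    ∃ T, G.Tr X T ∧ A \ Z ⊆ T ∧ T ⊆ A ∪ (A ∩ Z).image ρ := by
  have h1 : G.Acyc (A \ Z) := by
    intro e he hc
    refine hA.acyc.mono sdiff_subset e he ?_
    rw [(spl_of_not (mem_sdiff.1 he).2).1, (spl_of_not (mem_sdiff.1 he).2).2]
    exact conn_congr (fun g hg => spl_of_not (mem_sdiff.1 (mem_of_mem_erase hg)).2) hc
  obtain ⟨z, hz⟩ := hne
  have hz' := mem_inter.1 hz
  have key : ∀ w ∈ X, G.Conn (A ∪ (A ∩ Z).image ρ) w v := by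
    intro w hw
    by_cases hwv : w = v
    · rw [hwv]; exact Conn.refl _ _ _
    have m : G.oth v z ∈ X.erase v := by
      have := (hA.within z hz'.1).2
      rwa [(spl_of_mem hz'.2).2] at this
    refine Conn.trans ((hA.conn w (mem_erase.2 ⟨hwv, hw⟩) _ m).of_spans' fun e he => ?_)
      (Conn.edge (mem_union_left _ hz'.1) (hZ z hz'.2).2.joins_oth.symm)
    by_cases heZ : e ∈ Z
    · rw [(spl_of_mem heZ).1, (spl_of_mem heZ).2]
      exact (Conn.edge (mem_union_right _ (mem_image_of_mem _ (mem_inter.2 ⟨he, heZ⟩)))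
        (hρ e heZ).2.joins_oth.symm).trans (Conn.edge (mem_union_left _ he) (hZ e heZ).2.joins_oth)
    · rw [(spl_of_not heZ).1, (spl_of_not heZ).2]
      exact Conn.edge (mem_union_left _ he) (G.joins_st e)
  obtain ⟨T, t1, t2, t3⟩ := exists_tr _ ⟨v, hv⟩ h1 (A ∪ (A ∩ Z).image ρ) rfl
    (sdiff_subset.trans subset_union_left) (hE.mono fun g hg => by
      rcases mem_union.1 hg with hg | hg
      · rcases mem_union.1 (hAE hg) with h2 | h2
        · exact (mem_off.1 h2).1
        · exact (hZ g h2).1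
      · obtain ⟨k, hk, rfl⟩ := mem_image.1 hg
        exact (hρ k (mem_inter.1 hk).2).1) (fun u hu w hw => (key u hu).trans (key w hw).symm)
  exact ⟨T, t3, t1, t2⟩

theorem exists_bij {A : Finset ι} {R : Finset E} (h : A.card = R.card) {s : E} (hs : s ∈ R)
    (a : ι) : ∃ β : ι → E, Set.BijOn β A R ∧ (a ∈ A → β a = s) := by
  let e := Finset.equivOfCardEq h
  let β : ι → E := fun i => if hi : i ∈ A then e ⟨i, hi⟩ else s
  have hβ : Set.BijOn β A R := by
    refine ⟨fun i hi => ?_, fun i hi j hj hij => ?_, fun y hy => ?_⟩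
    · simp only [β, dif_pos (mem_coe.1 hi)]; exact (e _).2
    · simp only [β, dif_pos (mem_coe.1 hi), dif_pos (mem_coe.1 hj)] at hij
      simpa using e.injective (Subtype.ext hij)
    · exact ⟨e.symm ⟨y, hy⟩, (e.symm _).2, by simp [β]⟩
  by_cases ha : a ∈ A
  · refine ⟨Equiv.swap (β a) s ∘ β, Set.BijOn.comp ?_ hβ, fun _ => by simp⟩
    exact Equiv.swap_bijOn_self (iff_of_true (hβ.mapsTo ha) hs)
  · exact ⟨β, hβ, fun h => absurd h ha⟩

theorem lift_all (hE : G.Within Es X) (hv : v ∈ X) (hcard : Es.card + I.card = I.card * X.card)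
    (hloop : ∀ e ∈ Es, G.Inc e v → G.oth v e ≠ v) (hZ : ∀ z ∈ Z, z ∈ Es ∧ G.Inc z v)
    (hρ : ∀ z ∈ Z, ρ z ∈ Es ∧ G.Inc (ρ z) v) (hρZ : ∀ z ∈ Z, ρ z ∉ Z) (hinj : Set.InjOn ρ Z)
    {s : E} (hs : s ∈ Es) (hsv : G.Inc s v) (hsZ : s ∉ Z) (hsρ : ∀ z ∈ Z, ρ z ≠ s) :
    ∃ Λ : Finset E → Finset E, ∀ D l, (G.spl v Z ρ).MSt (X.erase v) (G.off v Es ∪ Z) I D →
      l ∈ I → ∃ c, G.MSt X Es I c ∧ G.Rel v I D c ∧ c l = Λ (D l) := by
  have h1 : ∀ A : Finset E, ∃ T, (G.spl v Z ρ).Tr (X.erase v) A → A ⊆ G.off v Es ∪ Z →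
      (A ∩ Z).Nonempty → G.Tr X T ∧ A \ Z ⊆ T ∧ T ⊆ A ∪ (A ∩ Z).image ρ := by
    intro A
    by_cases h : (G.spl v Z ρ).Tr (X.erase v) A ∧ A ⊆ G.off v Es ∪ Z ∧ (A ∩ Z).Nonempty
    · obtain ⟨T, hT⟩ := lift_class hE hv hZ hρ h.1 h.2.1 h.2.2
      exact ⟨T, fun _ _ _ => hT⟩
    · exact ⟨∅, fun a b c => absurd ⟨a, b, c⟩ h⟩
  choose L hL using h1
  refine ⟨fun A => if (A ∩ Z).Nonempty then L A else insert s A, fun D l hD hl => ?_⟩
  have hDE : ∀ i ∈ I, D i ⊆ G.off v Es ∪ Z := fun i hi e he => (hD.cov e).2 ⟨i, hi, he⟩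
  have hL' := fun i hi => hL (D i) (hD.tr i hi) (hDE i hi)
  let C : ι → Finset E := fun i => if (D i ∩ Z).Nonempty then L (D i) else D i
  have c1 : ∀ i ∈ I, ∀ e ∈ C i, e ∈ D i ∨ ∃ z ∈ D i, z ∈ Z ∧ ρ z = e := by
    intro i hi e he
    simp only [C] at he
    split_ifs at he with h
    · have := (hL' i hi h).2.2 he
      simp only [mem_union, mem_image, mem_inter] at this
      grind
    · exact Or.inl he
  have c2 : ∀ i ∈ I, ∀ e ∈ D i, e ∉ Z → e ∈ C i := by
    intro i hi e he heZ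
    simp only [C]
    split_ifs with h
    · exact (hL' i hi h).2.1 (mem_sdiff.2 ⟨he, heZ⟩)
    · exact he
  have c3 : ∀ i ∈ I, ∀ e ∈ D i, e ∈ Es ∧ (G.Inc e v → e ∈ Z) := by
    intro i hi e he
    have := hDE i hi he
    have := hZ e
    simp only [mem_union, mem_off] at *
    tauto
  have c4 : ∀ i ∈ I, ∀ j ∈ I, ∀ e, e ∈ C i → e ∈ C j → i = j := by
    intro i hi j hj e k1 k2
    rcases c1 i hi e k1 with k1 | ⟨z, z1, z2, rfl⟩ <;> rcases c1 j hj _ k2 with k2 | ⟨y, y1, y2, y3⟩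
    · exact hD.disj i hi j hj e k1 k2
    · subst y3
      exact absurd ((c3 i hi _ k1).2 (hρ y y2).2) (hρZ y y2)
    · exact absurd ((c3 j hj _ k2).2 (hρ z z2).2) (hρZ z z2)
    · rw [hinj y2 z2 y3] at y1
      exact hD.disj i hi j hj z z1 y1
  have c5 : ∀ i ∈ I, C i ⊆ Es := by
    intro i hi e he
    rcases c1 i hi e he with k1 | ⟨z, _, z2, rfl⟩
    · exact (c3 i hi e k1).1
    · exact (hρ z z2).1
  set R := Es \ I.biUnion C with hR
  have mR : ∀ e, e ∈ R ↔ e ∈ Es ∧ ∀ i ∈ I, e ∉ C i := fun e => by simp [hR]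
  have r1 : ∀ e ∈ R, G.Inc e v := by
    intro e he
    by_contra hi
    rw [mR] at he
    obtain ⟨i, hi', k⟩ := (hD.cov e).1 (mem_union_left _ (mem_off.2 ⟨he.1, hi⟩))
    exact he.2 i hi' (c2 i hi' e k fun h => hi (hZ e h).2)
  have r2 : s ∈ R := by
    rw [mR]
    refine ⟨hs, fun i hi k => ?_⟩
    rcases c1 i hi s k with k | ⟨z, _, z2, z3⟩
    · exact hsZ ((c3 i hi s k).2 hsv)
    · exact hsρ z z2 z3
  have r3 : (I.filter fun i => ¬ (D i ∩ Z).Nonempty).card = R.card := by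
    have k1 := card_sdiff_add_card_eq_card (biUnion_subset.2 c5)
    rw [card_biUnion (fun i hi j hj hij => disjoint_left.2 fun e k1 k2 =>
      hij (c4 i hi j hj e k1 k2))] at k1
    have k2 : ∑ i ∈ I, (C i).card + I.card + (I.filter fun i => ¬ (D i ∩ Z).Nonempty).card
        = I.card * X.card := by
      rw [card_filter, card_eq_sum_ones I, ← sum_add_distrib, ← sum_add_distrib, sum_mul]
      refine sum_congr rfl fun i hi => ?_
      simp only [C]
      by_cases h : (D i ∩ Z).Nonempty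
      · have := (hL' i hi h).1.card
        simp only [h, if_true, not_true, if_false]
        omega
      · have := (hD.tr i hi).card
        rw [card_erase_of_mem hv] at this
        have := card_pos.2 ⟨v, hv⟩
        simp only [h, if_false, not_false_iff, if_true]
        omega
    rw [← hR] at k1
    omega
  obtain ⟨β, hβ, hβl⟩ := exists_bij r3 r2 l
  have b1 : ∀ i ∈ I, ¬ (D i ∩ Z).Nonempty → β i ∈ R := fun i hi h =>
    hβ.mapsTo (mem_coe.2 (mem_filter.2 ⟨hi, h⟩))
  let c : ι → Finset E := fun i =>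
    if i ∈ I then (if (D i ∩ Z).Nonempty then L (D i) else insert (β i) (D i)) else D i
  have mc : ∀ i ∈ I, ∀ e, e ∈ c i ↔ e ∈ C i ∨ (¬ (D i ∩ Z).Nonempty ∧ e = β i) := by
    intro i hi e
    simp only [c, C, if_pos hi]
    split_ifs with h
    · simp [h]
    · simp [h, or_comm]
  refine ⟨c, ⟨fun i hi => ?_, fun i hi j hj e k1 k2 => ?_, fun e => ?_⟩,
    ⟨fun i hi e he => ?_, fun i hi => by simp [c, hi]⟩, ?_⟩
  · simp only [c, if_pos hi]
    split_ifs with h
    · exact (hL' i hi h).1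
    · have k1 := b1 i hi h
      have k2 := ((mR _).1 k1).1
      have k3 : G.Tr (X.erase v) (D i) := (hD.tr i hi).congr fun e he => by
        have := spl_of_not (G := G) (v := v) (ρ := ρ) fun hz => h ⟨e, mem_inter.2 ⟨he, hz⟩⟩
        exact ⟨this.1.symm, this.2.symm⟩
      exact k3.leaf_add hv (r1 _ k1).joins_oth
        (mem_erase.2 ⟨hloop _ k2 (r1 _ k1), ((r1 _ k1).joins_oth.mem hE k2).2⟩)
  · rcases (mc i hi e).1 k1 with k1 | ⟨k1, k4⟩ <;> rcases (mc j hj _).1 k2 with k2 | ⟨k2, k3⟩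
    · exact c4 i hi j hj e k1 k2
    · exact absurd k1 (((mR _).1 (k3 ▸ b1 j hj k2)).2 i hi)
    · exact absurd k2 (((mR _).1 (k4 ▸ b1 i hi k1)).2 j hj)
    · exact hβ.injOn (mem_coe.2 (mem_filter.2 ⟨hi, k1⟩)) (mem_coe.2 (mem_filter.2 ⟨hj, k2⟩))
        (k4.symm.trans k3)
  · constructor
    · intro he
      by_cases k : e ∈ R
      · obtain ⟨i, hi, rfl⟩ := hβ.surjOn k
        have := mem_filter.1 (mem_coe.1 hi)
        exact ⟨i, this.1, (mc i this.1 _).2 (Or.inr ⟨this.2, rfl⟩)⟩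
      · rw [mR] at k
        push Not at k
        obtain ⟨i, hi, k⟩ := k he
        exact ⟨i, hi, (mc i hi e).2 (Or.inl k)⟩
    · rintro ⟨i, hi, k⟩
      rcases (mc i hi e).1 k with k | ⟨k, k'⟩
      · exact c5 i hi k
      · exact k' ▸ ((mR _).1 (b1 i hi k)).1
  · rw [mc i hi]
    constructor
    · exact fun k => Or.inl (c2 i hi e k fun h => he (hZ e h).2)
    · rintro (k | ⟨k, rfl⟩)
      · rcases c1 i hi e k with k | ⟨z, _, z2, rfl⟩
        · exact k
        · exact absurd (hρ z z2).2 he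
      · exact absurd (r1 _ (b1 i hi k)) he
  · simp only [c, if_pos hl]
    split_ifs with h
    · rfl
    · rw [hβl (mem_filter.2 ⟨hl, h⟩)]

theorem mainProp (N : ℕ) : MainProp V E ι N := by
  induction N with
  | zero =>
    intro G X Es I P Q hN _ _ ho
    have : I = ∅ := card_eq_zero.1 (by omega)
    subst this
    rw [funext fun l => ho l (by simp)]
    exact Relation.ReflTransGen.refl
  | succ N ih =>
    intro G X Es I P Q hN hP hQ ho
    by_cases hI : I.card ≤ 2
    · rcases I.eq_empty_or_nonempty with rfl | ⟨i, hi⟩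
      · rw [funext fun l => ho l (by simp)]
        exact Relation.ReflTransGen.refl
      obtain ⟨j, hj, hij⟩ : ∃ j ∈ I, ∀ l ∈ I, l = i ∨ l = j := by
        by_cases h : ∃ j ∈ I, j ≠ i
        · obtain ⟨j, hj, hji⟩ := h
          refine ⟨j, hj, fun l hl => ?_⟩
          by_contra hn
          push Not at hn
          have := two_lt_card.2 ⟨l, hl, i, hi, j, hj, hn.1, hn.2, hji.symm⟩
          omega
        · push Not at h
          exact ⟨i, hi, fun l hl => Or.inl (h l hl)⟩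
      exact Relation.ReflTransGen.single ⟨hP, hQ, i, hi, j, hj, fun l a b => ho l fun hl => by
        have := hij l hl; tauto⟩
    obtain ⟨i0, hi0⟩ : I.Nonempty := card_pos.1 (by omega)
    have : Inhabited ι := ⟨i0⟩
    by_cases hX : X.card ≤ 1
    · have : P = Q := funext fun l => by
        by_cases hl : l ∈ I
        · have := (hP.tr l hl).card
          have := (hQ.tr l hl).card
          exact (card_eq_zero.1 (by omega)).trans (card_eq_zero.1 (by omega)).symm
        · exact ho l hl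
      rw [this]
      exact Relation.ReflTransGen.refl
    have hcard := hP.card
    obtain ⟨v, hv, -, hd⟩ := exists_low_deg (G := G) (Es := Es) (k := 2 * I.card) (empty_subset X)
      (by simp only [card_empty, mul_zero, add_zero, notMem_empty, filter_false]; nlinarith)
    obtain ⟨u, hu, huv⟩ := exists_mem_ne (by omega : 1 < X.card) v
    obtain ⟨P', p1, p2, p3⟩ := balance hv hu huv hd _ P hP rfl
    obtain ⟨Q', q1, q2, q3⟩ := balance hv hu huv hd _ Q hQ rfl
    refine p1.trans (Relation.ReflTransGen.trans ?_ q1.symm)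
    have ho' : ∀ l, l ∉ I → P' l = Q' l := fun l hl =>
      (p1.out hl).symm.trans ((ho l hl).trans (q1.out hl))
    obtain ⟨e0, -, -⟩ := (hP.tr i0 hi0).exists_inc hv hu huv
    obtain ⟨f, f1, f2⟩ := hall_of_bal (v := v) p2 e0
    obtain ⟨g, g1, g2⟩ := hall_of_bal (v := v) q2 e0
    have k1 := p2.card_bal hv hu huv p3
    have k2 := q2.card_bal hv hu huv q3
    obtain ⟨Z, ρ, π, π', z1, z2, z3, z4, z5, z6, z7⟩ := common_matching _ _ _ _ f g rfl
      (by omega) (by unfold deg at *; omega) f1 g1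
    have hZ : ∀ z ∈ Z, z ∈ Es ∧ G.Inc z v := fun z hz => mem_filter.1 (z1 hz)
    have hρ : ∀ z ∈ Z, ρ z ∈ Es ∧ G.Inc (ρ z) v := fun z hz => mem_filter.1 (z3 z hz).1
    obtain ⟨s, hs, hs'⟩ : ∃ s ∈ Es.filter fun e => G.Inc e v, s ∉ Z ∪ Z.image ρ := by
      refine exists_mem_notMem_of_card_lt_card ?_
      have := card_union_le Z (Z.image ρ)
      have := card_image_le (s := Z) (f := ρ)
      unfold deg at *
      omega
    simp only [mem_union, mem_image, not_or, not_exists, not_and] at hs'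
    obtain ⟨Λ, hΛ⟩ := lift_all hP.within hv hcard
      (fun e he hi => (mem_erase.1 (hP.oth_mem he hi)).1) hZ hρ (fun z hz => (z3 z hz).2) z4
      (mem_filter.1 hs).1 (mem_filter.1 hs).2 hs'.1 hs'.2
    obtain ⟨D, d1, d2⟩ := proj p2 hv hu huv p3 hZ hρ z5 fun z hz => f2 _ _ _ (z7 z hz).1
    obtain ⟨D', d3, d4⟩ := proj q2 hv hu huv q3 hZ hρ z6 fun z hz => g2 _ _ _ (z7 z hz).2
    have hr := ih _ _ _ _ D D' (by rw [card_erase_of_mem hv]; omega) d1 d3 fun l hl =>
      (d2.2 l hl).trans ((ho' l hl).trans (d4.2 l hl).symm)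
    have loc : ∀ D c c', G.MSt X Es I c → G.MSt X Es I c' → G.Rel v I D c → G.Rel v I D c' →
        G.MReach X Es I c c' := fun D c c' h1 h2 h3 h4 =>
      local_reach ih hN hv hu huv hd h2 _ c h1 (fun l hl => (h3.2 l hl).symm.trans (h4.2 l hl))
        (fun i hi e he => (h3.1 i hi e he).symm.trans (h4.1 i hi e he)) rfl
    have chain : ∀ c', G.MSt X Es I c' → G.Rel v I D' c' → G.MReach X Es I P' c' := by
      clear d3 d4
      induction hr with
      | refl => exact fun c' h1 h2 => loc _ _ _ p2 h1 d2 h2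
      | @tail D1 D2 _ h ih2 =>
        intro c' h1 h2
        obtain ⟨h3, h4, i, hi, j, hj, h5⟩ := h
        obtain ⟨l, hl, hl'⟩ : ∃ l ∈ I, l ∉ ({i, j} : Finset ι) :=
          exists_mem_notMem_of_card_lt_card (lt_of_le_of_lt card_le_two (by omega))
        simp only [mem_insert, mem_singleton, not_or] at hl'
        obtain ⟨c1, a1, a2, a3⟩ := hΛ D1 l h3 hl
        obtain ⟨c2, b1, b2, b3⟩ := hΛ D2 l h4 hl
        refine (ih2 c1 a1 a2).trans (Relation.ReflTransGen.trans
          (share ih hN a1 b1 (fun k hk => ?_) hl ?_) (loc _ _ _ b1 h1 b2 h2))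
        · rw [← a2.2 k hk, ← b2.2 k hk]
          exact h5 k (by rintro rfl; exact hk hi) (by rintro rfl; exact hk hj)
        · rw [a3, b3, h5 l hl'.1 hl'.2]
    exact chain Q' q2 d4

end Gr

end Pool.Agent.P.MP_3f5ce9_co
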