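import Pool.Agent.P.MP_3f5ce9_co.Root

/-!
Unique exchanges connect all ordered pairs of disjoint spanning trees.
-/

open Finset

set_option linter.unusedSectionVars false

namespace Pool.Agent.P.MP_3f5ce9_co

namespace Gr

variable {V E : Type*} [DecidableEq V] [DecidableEq E]
variable {G : Gr V E} {X Y Z W : Finset V} {F S T Es U Φ : Finset E} {u w v a b c r : V}
  {e f x y z : E} {p q : Finset E × Finset E}

/-- a unique exchange started from the first tree -/
def UX (G : Gr V E) (X : Finset V) (Es : Finset E) (p q : Finset E × Finset E) : Prop :=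
  ∃ e ∈ p.1, ∃ f ∈ p.2, q = (insert f (p.1.erase e), insert e (p.2.erase f)) ∧
    ∀ g ∈ p.2, G.St X Es (insert g (p.1.erase e), insert e (p.2.erase g)) → g = f

def UStep (G : Gr V E) (X : Finset V) (Es : Finset E) (p q : Finset E × Finset E) : Prop :=
  G.St X Es p ∧ G.St X Es q ∧ (G.UX X Es p q ∨ G.UX X Es p.swap q.swap)

theorem LM.ux (hp : G.St X Es p) (hq : G.St X Es q) (h : G.LM w p q) : G.UX X Es p q := by
  obtain ⟨S, T⟩ := p
  obtain ⟨e, he, f, hf, ie, jf, hl, h1, h2⟩ := h
  refine ⟨e, he, f, hf, Prod.ext h1 h2, fun g hg hst => ?_⟩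
  simp only at *
  by_contra hgf
  obtain ⟨k, hk⟩ := ie.exists_joins
  have hm := hk.mem hp.fst.within he
  have hkw : k ≠ w := (hp.fst.acyc.ne he hk).symm
  have ig : G.Inc g w := by
    obtain ⟨i, hi, ii⟩ := hst.fst.exists_inc hm.1 hm.2 hkw
    rcases mem_insert.1 hi with rfl | hi
    · exact ii
    · exact absurd (hl i (mem_of_mem_erase hi) ii) (mem_erase.1 hi).1
  have key : ∀ f ∈ T, G.Inc f w → G.Tr X (insert e (T.erase f)) → ¬ G.Conn (T.erase f) w k := by
    intro f hf jf ht hc
    obtain ⟨a, ha⟩ := jf.exists_joins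
    refine hp.snd.acyc.not_conn hf ha ?_
    have hma := ha.mem hp.snd.within hf
    refine (ht.conn w hm.1 a hma.2).of_spans fun i hi => ?_
    rcases mem_insert.1 hi with rfl | hi
    · exact hk.conn hc
    · exact Conn.edge hi (G.joins_st i)
  have k1 := key f hf jf (h2 ▸ hq.snd)
  have k2 := key g hg ig hst.snd
  obtain ⟨i, hi, a, ha, hc⟩ := exists_first (hp.snd.conn w hm.1 k hm.2) hkw
  have key2 : ∀ f, G.Inc f w → i ≠ f → G.Conn (T.erase f) w k := by
    intro f jf hif
    refine (Conn.edge (mem_erase.2 ⟨hif, hi⟩) ha).trans (hc.mono fun j hj => ?_)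
    refine mem_erase.2 ⟨?_, (mem_filter.1 hj).1⟩
    rintro rfl
    exact (mem_filter.1 hj).2 jf
  by_cases hif : i = f
  · exact k2 (key2 g ig (by rw [hif]; exact Ne.symm hgf))
  · exact k1 (key2 f jf hif)

theorem Step.ustep (h : G.Step X Es r p q) : G.UStep X Es p q := by
  obtain ⟨hp, hq, w, -, h | h⟩ := h
  · exact ⟨hp, hq, Or.inl (h.ux hp hq)⟩
  · exact ⟨hp, hq, Or.inr (h.ux hp.swap hq.swap)⟩

theorem ux_inner {α α' β : Finset E × Finset E} (hW : W.Nonempty)
    (ht : 2 * W.card ≤ (G.ind Es W).card + 2) (hα : G.St W (G.ind Es W) α)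
    (hβ : ∀ g, g ∈ Es \ G.ind Es W ↔ g ∈ β.1 ∨ g ∈ β.2) (h : G.UX W (G.ind Es W) α α') :
    G.UX X Es (α.1 ∪ β.1, α.2 ∪ β.2) (α'.1 ∪ β.1, α'.2 ∪ β.2) := by
  obtain ⟨e, he, f, hf, rfl, hu⟩ := h
  have i1 : ∀ g, g ∈ α.1 ∨ g ∈ α.2 → g ∉ β.1 ∧ g ∉ β.2 ∧ G.s g ∈ W ∧ G.t g ∈ W := by
    intro g hg
    have h1 := (hα.cov g).2 hg
    have h2 := hβ g
    simp only [mem_sdiff, mem_ind] at h1 h2
    tauto
  have i2 : ∀ g, g ∈ β.1 ∨ g ∈ β.2 → ¬ (G.s g ∈ W ∧ G.t g ∈ W) := by
    intro g hg
    have h2 := (hβ g).2 hg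
    simp only [mem_sdiff, mem_ind] at h2
    tauto
  have ie := i1 e (Or.inl he)
  have jf := i1 f (Or.inr hf)
  refine ⟨e, mem_union_left _ he, f, mem_union_left _ hf, ?_, fun g hg hst => ?_⟩
  · refine Prod.ext ?_ ?_ <;> ext g <;> simp only [mem_union, mem_insert, mem_erase] <;> grind
  · simp only at hg hst
    rcases mem_union.1 hg with hg | hg
    · refine hu g hg ?_
      have h1 := hst.inner hW ht
      have ig := i1 g (Or.inr hg)
      convert h1 using 2
      all_goals
        ext k
        have := i1 k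
        have := i2 k
        simp only [mem_union, mem_insert, mem_erase, mem_ind]
        grind
    · exfalso
      have h1 := (hst.tight hW ht).1
      have h2 : G.ind (insert g ((α.1 ∪ β.1).erase e)) W = α.1.erase e := by
        ext k
        have := i1 k
        have := i2 k
        simp only [mem_union, mem_insert, mem_erase, mem_ind]
        grind
      simp only [h2, card_erase_of_mem he] at h1
      have := hα.fst.card
      have := card_pos.2 ⟨e, he⟩
      omega

theorem ux_outer {α β β' : Finset E × Finset E} (hW : W ⊆ X) (hr : r ∈ W)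
    (ht : 2 * W.card ≤ (G.ind Es W).card + 2) (hα : G.St W (G.ind Es W) α)
    (hβ : ∀ g, g ∈ Es \ G.ind Es W ↔ g ∈ β.1 ∨ g ∈ β.2)
    (h : (G.map (cw W r)).UX (insert r (X \ W)) (Es \ G.ind Es W) β β') :
    G.UX X Es (α.1 ∪ β.1, α.2 ∪ β.2) (α.1 ∪ β'.1, α.2 ∪ β'.2) := by
  obtain ⟨e, he, f, hf, rfl, hu⟩ := h
  have i1 : ∀ g, g ∈ α.1 ∨ g ∈ α.2 → g ∉ β.1 ∧ g ∉ β.2 ∧ G.s g ∈ W ∧ G.t g ∈ W := by
    intro g hg
    have h1 := (hα.cov g).2 hg
    have h2 := hβ g
    simp only [mem_sdiff, mem_ind] at h1 h2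
    tauto
  have i2 : ∀ g, g ∈ β.1 ∨ g ∈ β.2 → ¬ (G.s g ∈ W ∧ G.t g ∈ W) := by
    intro g hg
    have h2 := (hβ g).2 hg
    simp only [mem_sdiff, mem_ind] at h2
    tauto
  have ie := i2 e (Or.inl he)
  have jf := i2 f (Or.inr hf)
  have ie' := i1 e
  have jf' := i1 f
  refine ⟨e, mem_union_right _ he, f, mem_union_right _ hf, ?_, fun g hg hst => ?_⟩
  · refine Prod.ext ?_ ?_ <;> ext g <;> simp only [mem_union, mem_insert, mem_erase] <;> grind
  · simp only at hg hst
    rcases mem_union.1 hg with hg | hg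
    · exfalso
      have h1 := (hst.tight ⟨r, hr⟩ ht).1
      have ig := i1 g (Or.inr hg)
      have h2 : G.ind (insert g ((α.1 ∪ β.1).erase e)) W = insert g α.1 := by
        ext k
        have := i1 k
        have := i2 k
        simp only [mem_union, mem_insert, mem_erase, mem_ind]
        grind
      simp only [h2, card_insert_of_notMem (fun h => hα.disj g h hg)] at h1
      have := hα.fst.card
      omega
    · refine hu g hg ?_
      have h1 := hst.outer hW hr ht
      have ig := i2 g (Or.inr hg)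
      convert h1 using 2
      all_goals
        ext k
        have := i1 k
        have := i2 k
        simp only [mem_union, mem_insert, mem_erase, mem_ind, mem_sdiff]
        grind

theorem ureach_all (n : ℕ) : ∀ (G : Gr V E) (X : Finset V) (Es : Finset E)
    (p q : Finset E × Finset E), X.card ≤ n → G.St X Es p → G.St X Es q →
    Relation.ReflTransGen (G.UStep X Es) p q := by
  induction n with
  | zero =>
    intro G X Es p q hn hp
    have := hp.fst.card
    omega
  | succ n ih =>
    intro G X Es p q hn hp hq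
    by_cases h : ∃ W ⊆ X, W ≠ X ∧ 2 ≤ W.card ∧ 2 * W.card ≤ (G.ind Es W).card + 2
    · obtain ⟨W, hW, hWX, h2, ht⟩ := h
      obtain ⟨r, hr⟩ : W.Nonempty := card_pos.1 (by omega)
      have hE := hp.within
      have c1 : W.card ≤ n := by
        have := card_lt_card (Finset.ssubset_iff_subset_ne.2 ⟨hW, hWX⟩)
        omega
      have c2 : (insert r (X \ W)).card ≤ n := by
        have := card_cw hW hr
        omega
      have split : ∀ p : Finset E × Finset E,
          p = (G.ind p.1 W ∪ (p.1 \ G.ind p.1 W), G.ind p.2 W ∪ (p.2 \ G.ind p.2 W)) := fun p =>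
        Prod.ext (union_sdiff_of_subset (G.ind_subset _ _)).symm
          (union_sdiff_of_subset (G.ind_subset _ _)).symm
      have r1 := ih G _ _ _ _ c1 (hp.inner ⟨r, hr⟩ ht) (hq.inner ⟨r, hr⟩ ht)
      have r2 := ih _ _ _ _ _ c2 (hp.outer hW hr ht) (hq.outer hW hr ht)
      have l1 : ∀ α α' β, (G.map (cw W r)).St (insert r (X \ W)) (Es \ G.ind Es W) β →
          Relation.ReflTransGen (G.UStep W (G.ind Es W)) α α' →
          Relation.ReflTransGen (G.UStep X Es) (α.1 ∪ β.1, α.2 ∪ β.2) (α'.1 ∪ β.1, α'.2 ∪ β.2) := by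
        intro α α' β hβ h
        induction h with
        | refl => exact Relation.ReflTransGen.refl
        | tail _ h ih =>
          refine ih.tail ⟨St.combine hE hW hr h.1 hβ, St.combine hE hW hr h.2.1 hβ, ?_⟩
          rcases h.2.2 with h3 | h3
          · exact Or.inl (ux_inner ⟨r, hr⟩ ht h.1 hβ.cov h3)
          · exact Or.inr (ux_inner ⟨r, hr⟩ ht h.1.swap hβ.swap.cov h3)
      have l2 : ∀ α β β', G.St W (G.ind Es W) α →
          Relation.ReflTransGen
            ((G.map (cw W r)).UStep (insert r (X \ W)) (Es \ G.ind Es W)) β β' →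
          Relation.ReflTransGen (G.UStep X Es) (α.1 ∪ β.1, α.2 ∪ β.2) (α.1 ∪ β'.1, α.2 ∪ β'.2) := by
        intro α β β' hα h
        induction h with
        | refl => exact Relation.ReflTransGen.refl
        | tail _ h ih =>
          refine ih.tail ⟨St.combine hE hW hr hα h.1, St.combine hE hW hr hα h.2.1, ?_⟩
          rcases h.2.2 with h3 | h3
          · exact Or.inl (ux_outer hW hr ht hα h.1.cov h3)
          · exact Or.inr (ux_outer hW hr ht hα.swap h.1.swap.cov h3)
      rw [split p, split q]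
      exact (l1 _ _ _ (hp.outer hW hr ht) r1).trans (l2 _ _ _ (hq.inner ⟨r, hr⟩ ht) r2)
    · push Not at h
      obtain ⟨r, hr⟩ : X.Nonempty := card_pos.1 (by have := hp.fst.card; omega)
      have hs : G.Sp X Es r := by
        intro Y hY hrY h2
        have := h Y hY (by rintro rfl; exact hrY hr) h2
        omega
      have := reach_all _ G X Es r p q le_rfl hr hs hp hq
      clear hq
      induction this with
      | refl => exact Relation.ReflTransGen.refl
      | tail _ h ih => exact ih.tail h.ustep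

end Gr

end Pool.Agent.P.MP_3f5ce9_co
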